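import Pool.Agent.H25.LIVE.Lab

/-!
# The probability of the good walks
-/

set_option autoImplicit false

namespace Pool.LIV

open Finset MvPolynomial
open Pool.Agent.H49.Ent Pool.Agent.H32.Dense Pool.STK Pool.KS3 Pool.OC.RS
open Pool.BFL (Pl CB Pb P2 MC alt)
open Pool.STAT
open Pool.KAF (Pr Pr_eq)

theorem Pb_marg {Ω W : Type} [Fintype Ω] [Fintype W] {p : Ω → ℝ} {q : W → ℝ} {f : W → Ω}
    (h : Marg q p f) (A : Ω → Prop) : Pb q (fun w => A (f w)) = Pb p A := by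
  classical
  have h1 := h.ex (fun ω => if A ω then 1 else 0)
  unfold Pool.Agent.H32.Dense.Ex at h1
  have e1 : Pb q (fun w => A (f w)) = ∑ w, q w * (if A (f w) then 1 else 0) := by
    unfold Pb
    refine Finset.sum_congr rfl fun w _ => ?_
    by_cases k : A (f w)
    · rw [if_pos k, if_pos k, mul_one]
    · rw [if_neg k, if_neg k, mul_zero]
  have e2 : Pb p A = ∑ ω, p ω * (if A ω then 1 else 0) := by
    unfold Pb
    refine Finset.sum_congr rfl fun w _ => ?_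
    by_cases k : A w
    · rw [if_pos k, if_pos k, mul_one]
    · rw [if_neg k, if_neg k, mul_zero]
  rw [e1, e2]
  exact h1

theorem Pr_marg {Ω W : Type} [Fintype Ω] [Fintype W] {p : Ω → ℝ} {q : W → ℝ} {f : W → Ω}
    (h : Marg q p f) (E : Set Ω) : Pr q {w | f w ∈ E} = Pr p E := by
  unfold Pr
  exact h.law (fun ω => ω ∈ E) True

theorem Pb_mono25 {W : Type} [Fintype W] {q : W → ℝ} (hq : ∀ w, 0 ≤ q w) {A B : W → Prop}
    (h : ∀ w, 0 < q w → A w → B w) : Pb q A ≤ Pb q B := by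
  unfold Pb
  refine Finset.sum_le_sum fun w _ => ?_
  rcases (hq w).eq_or_lt with h0 | h0
  · rw [← h0]
    simp
  by_cases k : A w
  · rw [if_pos k, if_pos (h w h0 k)]
  · rw [if_neg k]
    split_ifs
    · exact h0.le
    · exact le_rfl

theorem Pb_or25 {W : Type} [Fintype W] {q : W → ℝ} (hq : ∀ w, 0 ≤ q w) (A B : W → Prop) :
    Pb q (fun w => A w ∨ B w) ≤ Pb q A + Pb q B := by
  unfold Pb
  rw [← Finset.sum_add_distrib]
  refine Finset.sum_le_sum fun w _ => ?_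
  have := hq w
  by_cases k1 : A w
  · rw [if_pos (show A w ∨ B w from Or.inl k1), if_pos k1]
    split_ifs <;> linarith
  · by_cases k2 : B w
    · rw [if_pos (show A w ∨ B w from Or.inr k2), if_neg k1, if_pos k2]
      linarith
    · rw [if_neg (show ¬ (A w ∨ B w) from fun e => e.elim k1 k2), if_neg k1, if_neg k2, add_zero]

theorem Pb_ex25 {W : Type} [Fintype W] {q : W → ℝ} (hq : ∀ w, 0 ≤ q w) (A : ℕ → W → Prop)
    (n : ℕ) {e : ℝ} (h : ∀ k < n, Pb q (A k) ≤ e) :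
    Pb q (fun w => ∃ k < n, A k w) ≤ n * e := by
  induction n with
  | zero =>
    have : Pb q (fun w => ∃ k < 0, A k w) ≤ Pb q (fun _ => False) :=
      Pb_mono25 hq fun w _ ⟨k, hk, _⟩ => absurd hk (Nat.not_lt_zero k)
    refine this.trans (le_of_eq ?_)
    unfold Pb
    simp
  | succ n ih =>
    have h1 : Pb q (fun w => ∃ k < n + 1, A k w) ≤ Pb q (fun w => (∃ k < n, A k w) ∨ A n w) := by
      refine Pb_mono25 hq fun w _ ⟨k, hk, hA⟩ => ?_
      rcases Nat.lt_succ_iff_lt_or_eq.1 hk with h2 | h2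
      · exact Or.inl ⟨k, h2, hA⟩
      · exact Or.inr (h2 ▸ hA)
    have h2 := Pb_or25 hq (fun w => ∃ k < n, A k w) (A n)
    have h3 := ih fun k hk => h k (by omega)
    have h4 := h n (by omega)
    push_cast
    linarith

variable {c : ℕ} {Ω G B 𝔅 𝒱 W : Type} [Fintype Ω] [Fintype W] {d : Fin c → ℕ} {j m N γ : ℕ}
  {C₀ R : ℝ} {p : Ω → ℝ} {g : Ω → G} {bk : Ω → B} {β : Ω → 𝔅} {V : Ω → 𝒱} {tm : Ω → ℤ}
  {pT : Ω → Fin c → ℝ} {pN : Ω → ℝ}
  {ΘT : B → (Fin c → ℝ) → Fin c → ℝ} {FN : B → (Fin c → ℝ) → ℝ}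
  {ξT : 𝒱 → 𝔅 → Fin c → Pl c} {ξN : 𝒱 → 𝔅 → Pl c} {q : W → ℝ} {z : ℕ → W → Ω}

/-- **The good walks are likely.** -/
theorem good_le (hp : ∀ ω, 0 ≤ p ω) {δ η : ℝ} (h : MC p (alt g bk) (2 * N - 1) q z)
    (hN : 1 ≤ N)
    (hT : P2 p g (fun ω ω' => ¬ Tr d j m C₀ bk β V tm ΘT FN ξT ξN δ ω ω') ≤ η)
    (hO : Pb p (fun ω => ¬ Own ΘT FN bk pT pN δ ω) ≤ η) (Y : W → Prop)
    (hY : Pb q (fun w => ¬ Y w) ≤ η) :
    Pr q {w | GG d j m N C₀ p g bk β V tm pT pN ΘT FN ξT ξN q z δ w ∧ Y w}ᶜ ≤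
      (8 * N + 2) * η := by
  classical
  have hq := h.isLaw.nonneg
  have e1 : Pr q {w | GG d j m N C₀ p g bk β V tm pT pN ΘT FN ξT ξN q z δ w ∧ Y w}ᶜ ≤
      Pb q (fun w => (∃ k < 2 * N, ¬ Gd d j m C₀ p g bk β V tm ΘT FN ξT ξN δ (z k w)) ∨
        (¬ Own ΘT FN bk pT pN δ (z (2 * N - 1) w) ∨ ¬ Y w)) := by
    rw [Pr_eq]
    unfold Pb
    refine Finset.sum_le_sum fun w _ => ?_
    rcases (hq w).eq_or_lt with h0 | h0
    · rw [← h0]
      simp
    by_cases k : w ∈ {w | GG d j m N C₀ p g bk β V tm pT pN ΘT FN ξT ξN q z δ w ∧ Y w}ᶜ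
    · rw [if_pos k, if_pos]
      by_contra hn
      push Not at hn
      refine k ⟨⟨h0, fun i hi => hn.1 i (by omega), hn.2.1⟩, hn.2.2⟩
    · rw [if_neg k]
      split_ifs
      · exact h0.le
      · exact le_rfl
  refine e1.trans ?_
  have a1 := Pb_ex25 hq (fun k w => ¬ Gd d j m C₀ p g bk β V tm ΘT FN ξT ξN δ (z k w)) (2 * N)
    (e := 4 * η) (fun k hk => by
      rw [Pb_marg (h.marg k (by omega))
        (fun ω => ¬ Gd d j m C₀ p g bk β V tm ΘT FN ξT ξN δ ω)]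
      exact (not_gd_le hp δ).trans (mul_le_mul_of_nonneg_left hT (by norm_num)))
  have a2 : Pb q (fun w => ¬ Own ΘT FN bk pT pN δ (z (2 * N - 1) w)) ≤ η := by
    rw [Pb_marg (h.marg (2 * N - 1) le_rfl) (fun ω => ¬ Own ΘT FN bk pT pN δ ω)]
    exact hO
  have a3 := Pb_or25 hq (fun w => ∃ k < 2 * N, ¬ Gd d j m C₀ p g bk β V tm ΘT FN ξT ξN δ (z k w))
    (fun w => ¬ Own ΘT FN bk pT pN δ (z (2 * N - 1) w) ∨ ¬ Y w)
  have a4 := Pb_or25 hq (fun w => ¬ Own ΘT FN bk pT pN δ (z (2 * N - 1) w)) (fun w => ¬ Y w)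
  push_cast at a1
  linarith

end Pool.LIV
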