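import Pool.Agent.H25.LIVE.Loc
import Pool.Agent.H60.KSM1.OdtThm
import Pool.Agent.H60.KSM.SumThm

/-!
# Several moving times
-/

set_option autoImplicit false

namespace Pool.LIV

open Finset Real
open Pool.Agent.H49.Ent Pool.Agent.H32.Dense Pool.STK Pool.OC.RS Pool.KSM
open Pool.KAF (Pr Pr_eq)

/-- The data of several vertices: a position moves in the direction `k` if the time of the vertex
`ι k` moves. -/
structure MV (c N : ℕ) where
  W : Type
  Lam : Type
  Bet : Type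
  Gam : Type
  Ful : Type
  [fin : Fintype W]
  q : W → ℝ
  L : Fin N → W → Lam
  L' : Fin N → W → Lam
  T : Fin N → W → ℤ
  b : W → Bet
  a : Fin N → W → Gam
  th : Fin N → W → ℝ
  F : W → Ful
  A : Set W
  ι : W → Fin c → Fin N
  Nn : W → Fin c → ℤ
  X : ℕ
  G : Set W

attribute [instance] MV.fin

namespace MV

variable {c N : ℕ} (d : MV c N)

/-- The probability that a second time of the window is near. -/
noncomputable def dead (i : Fin N) (k' ℓ : ℕ) (w : d.W) : ℝ :=
  Pr (Pool.Agent.H49.Ent.cond d.q (fun v => (d.L i v, (d.b v, ⌊(2 : ℝ) ^ ℓ * d.th i v⌋)))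
    (d.L i w, (d.b w, ⌊(2 : ℝ) ^ ℓ * d.th i w⌋)))
    {v | |d.th i v - d.th i w| < (2 : ℝ) ^ (-((ℓ : ℤ) + k'))}

/-- The assumptions. -/
structure OK (s : ℕ) : Prop where
  law : IsLaw d.q
  hab : ∀ i, Det d.q (d.a i) d.b
  hth : ∀ i, Det d.q (fun w => (d.T i w, d.b w)) (d.th i)
  hF : ∀ i, Det d.q d.F (fun w => (d.T i w, d.a i w))
  hF' : ∀ i, Det d.q (fun w => (d.T i w, d.a i w)) d.F
  hA : ∀ i w w', 0 < d.q w → 0 < d.q w' → d.a i w = d.a i w' → w ∈ d.A → w' ∈ d.A
  hι : ∀ i w w', 0 < d.q w → 0 < d.q w' → d.a i w = d.a i w' → d.ι w = d.ι w'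
  hι1 : ∀ w k, 0 < d.q w → w ∈ d.A → 1 ≤ (d.ι w k : ℕ)
  h0 : ∀ i k w w', 0 < d.q w → 0 < d.q w' → w ∈ d.A → d.ι w k = i → w ∈ d.G → w' ∈ d.G →
    d.L i w = d.L i w' → d.a i w = d.a i w' → ∀ j, |(d.Nn w' j : ℝ) - d.Nn w j| ≤ 4
  hv : ∀ i k w w', 0 < d.q w → 0 < d.q w' → w ∈ d.A → d.ι w k = i → w ∈ d.G → w' ∈ d.G →
    d.L' i w = d.L' i w' → d.a i w = d.a i w' → ∀ j, |((d.Nn w' j : ℝ) - d.Nn w j) -
      2 ^ d.X * ((d.th i w' - d.th i w) * (Pi.single k 1 : Fin c → ℝ) j)| ≤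
      4 + 2 ^ d.X * |d.th i w' - d.th i w| / 2 ^ s

end MV

theorem Pr_nn {W : Type} [Fintype W] {q : W → ℝ} (hq : ∀ w, 0 ≤ q w) (E : Set W) :
    0 ≤ Pr q E := law_nonneg hq _ _

theorem Pr_compl_eq {W : Type} [Fintype W] {q : W → ℝ} (hq : IsLaw q) (E : Set W) :
    Pr q Eᶜ = 1 - Pr q E := by
  classical
  rw [Pr_eq, Pr_eq, eq_sub_iff_add_eq, ← Finset.sum_add_distrib, ← hq.sum_one]
  refine Finset.sum_congr rfl fun w _ => ?_
  by_cases k : w ∈ E
  · rw [if_pos k, if_neg (show ¬ w ∈ Eᶜ from fun h => h k), zero_add]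
  · rw [if_neg k, if_pos (show w ∈ Eᶜ from k), add_zero]

open Classical in
/-- **Several moving times.** -/
theorem mv_thm (c N k' : ℕ) (a ε : ℝ) (ha : 0 < a) (hε : 0 < ε) :
    ∃ (δ : ℝ) (s X₀ : ℕ), 0 < δ ∧ ∀ d : MV c N, d.OK s → X₀ ≤ d.X → Pr d.q d.Gᶜ ≤ δ →
      (∀ i : Fin N, 1 ≤ (i : ℕ) → mi d.q (d.L i) (d.T i) (d.a i) ≤ δ * d.X ∧
        mi d.q (d.L' i) (d.T i) (d.a i) ≤ δ * d.X ∧
        mi d.q (d.T i) (d.a i) (fun w => (d.L i w, d.b w)) ≤ δ * d.X) →
      ∀ D : Fin N → ℕ → Set d.W,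
      (∀ (i : Fin N) ℓ w, 1 ≤ (i : ℕ) → 0 < d.q w → w ∉ D i ℓ → d.dead i k' ℓ w ≤ 1 - a) →
      ∀ S : ℝ, 0 ≤ S → (∀ i, ∑ ℓ ∈ range d.X, Pr d.q (D i ℓ) ≤ S) →
      c * ((Pr d.q d.A - ε) * d.X * Real.log 2 - N * (Real.log 2 * S)) ≤
        CH d.q (fun w => if w ∈ d.A then d.Nn w else 0) d.F := by
  have hl2 : 0 < Real.log 2 := Real.log_pos (by norm_num)
  obtain ⟨δ, s, X₀, K, hδ, hK, key⟩ := odt1_thm c k' a (ε / (N + 1)) ha (by positivity)
  refine ⟨δ, s, X₀, hδ, ?_⟩
  intro d h hX hG hI D hD S hS0 hS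
  have hq := h.law
  -- the pieces
  obtain ⟨Gi, hGi⟩ : ∃ Gi : Fin c → Fin N → Set d.W, ∀ k i w, w ∈ Gi k i ↔
    (0 < d.q w ∧ w ∈ d.A ∧ d.ι w k = i) :=
    ⟨fun k i => {w | 0 < d.q w ∧ w ∈ d.A ∧ d.ι w k = i}, fun _ _ _ => Iff.rfl⟩
  have hGa : ∀ k i i' w w', 0 < d.q w → 0 < d.q w' → d.a i' w = d.a i' w' → w ∈ Gi k i →
      w' ∈ Gi k i := by
    intro k i i' w w' hw hw' e hin
    rw [hGi] at hin ⊢
    refine ⟨hw', h.hA i' w w' hw hw' e hin.2.1, ?_⟩
    rw [← h.hι i' w w' hw hw' e]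
    exact hin.2.2
  -- one piece
  have one : ∀ k i, 2 ^ d.X * (K * ((Pr d.q (Gi k i) - ε / (N + 1)) * d.X * Real.log 2 -
      Real.log 2 * S)) ≤ rowSum d.q d.X (fun w => if w ∈ Gi k i then d.Nn w else 0) k K d.F := by
    intro k i
    by_cases hi : 1 ≤ (i : ℕ)
    · have kk := key { Om := d.W, Lam := d.Lam, Lam' := d.Lam, Tau := ℤ, Bet := d.Bet,
                       Gam := d.Gam, P := d.q, L := d.L i, L' := d.L' i, T := d.T i, b := d.b,
                       a := d.a i, th := d.th i,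
                       N := fun w => if w ∈ Gi k i then d.Nn w else 0, k := k, X := d.X,
                       G := d.G, G1 := Gi k i }
        { law := h.law
          hab := h.hab i
          hth := h.hth i
          hG1 := fun w w' hw hw' e hin => hGa k i i w w' hw hw' e hin
          h0 := fun w w' hw hw' hin hg hg' hL he j => by
            have hin' := hGa k i i w w' hw hw' he hin
            show |(((if w' ∈ Gi k i then d.Nn w' else 0) : Fin c → ℤ) j : ℝ) -
              ((if w ∈ Gi k i then d.Nn w else 0) : Fin c → ℤ) j| ≤ _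
            rw [if_pos hin, if_pos hin']
            have h1 := (hGi k i w).1 hin
            have h2 := h.h0 i k w w' hw hw' h1.2.1 h1.2.2 hg hg' hL he j
            refine h2.trans ?_
            have : 0 ≤ 2 ^ d.X * |d.th i w' - d.th i w| / 2 ^ s := by positivity
            exact le_add_of_nonneg_right this
          hv := fun w w' hw hw' hin hg hg' hL he j => by
            have hin' := hGa k i i w w' hw hw' he hin
            show |((((if w' ∈ Gi k i then d.Nn w' else 0) : Fin c → ℤ) j : ℝ) -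
              ((if w ∈ Gi k i then d.Nn w else 0) : Fin c → ℤ) j) - _| ≤ _
            rw [if_pos hin, if_pos hin']
            have h1 := (hGi k i w).1 hin
            exact h.hv i k w w' hw hw' h1.2.1 h1.2.2 hg hg' hL he j }
        hX hG (hI i hi).1 (hI i hi).2.1 (hI i hi).2.2 (D i) (fun ℓ w hw hwD => hD i ℓ w hi hw hwD)
      have e0 : Pr d.q (Gi k i)ᶜ = 1 - Pr d.q (Gi k i) := Pr_compl_eq hq _
      have kk' : 2 ^ d.X * (K * ((1 - ε / (N + 1) - Pr d.q (Gi k i)ᶜ) * d.X * Real.log 2 -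
          Real.log 2 * ∑ ℓ ∈ range d.X, Pr d.q (D i ℓ))) ≤
          rowSum d.q d.X (fun w => if w ∈ Gi k i then d.Nn w else 0) k K
            (fun w => (d.T i w, d.a i w)) := kk
      rw [e0, ← rowSum_congr hq d.X _ k K d.F _ (h.hF i) (h.hF' i)] at kk'
      refine le_trans ?_ kk'
      refine mul_le_mul_of_nonneg_left ?_ (by positivity)
      refine mul_le_mul_of_nonneg_left ?_ (Nat.cast_nonneg _)
      have := mul_le_mul_of_nonneg_left (hS i) hl2.le
      have e1 : (1 - ε / (N + 1) - (1 - Pr d.q (Gi k i))) = Pr d.q (Gi k i) - ε / (N + 1) := by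
        ring
      rw [e1]
      linarith
    · have e0 : Pr d.q (Gi k i) = 0 := by
        rw [Pr_eq]
        refine Finset.sum_eq_zero fun w _ => ?_
        rw [if_neg]
        intro hin
        have h1 := (hGi k i w).1 hin
        have h2 := h.hι1 w k h1.1 h1.2.1
        rw [h1.2.2] at h2
        exact hi h2
      rw [e0]
      refine le_trans ?_ (rowSum_nonneg hq _ _ _ _ _)
      have h1 : (0 - ε / ((N : ℝ) + 1)) * d.X * Real.log 2 - Real.log 2 * S ≤ 0 := by
        have a1 : 0 ≤ ε / ((N : ℝ) + 1) * d.X * Real.log 2 := by positivity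
        have a2 : 0 ≤ Real.log 2 * S := by positivity
        linarith
      exact mul_nonpos_of_nonneg_of_nonpos (by positivity)
        (mul_nonpos_of_nonneg_of_nonpos (Nat.cast_nonneg _) h1)
  -- one direction
  have dir : ∀ k, 2 ^ d.X * (K * ((Pr d.q d.A - ε) * d.X * Real.log 2 - N * (Real.log 2 * S))) ≤
      rowSum d.q d.X (fun w => if w ∈ d.A then d.Nn w else 0) k K d.F := by
    intro k
    have t1 := rowSum_part hq d.X d.Nn k K d.F d.A (Gi k)
      (fun i w w' hw hw' e hin => hGa k i i w w' hw hw'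
        (Prod.ext_iff.mp (h.hF i w w' hw hw' e)).2 hin)
      (fun i i' w h1 h2 => by
        rw [hGi] at h1 h2
        rw [← h1.2.2, ← h2.2.2])
      (fun i w hin => ((hGi k i w).1 hin).2.1)
    refine le_trans ?_ t1
    refine le_trans ?_ (Finset.sum_le_sum fun i _ => one k i)
    rw [← Finset.mul_sum, ← Finset.mul_sum]
    refine mul_le_mul_of_nonneg_left ?_ (by positivity)
    refine mul_le_mul_of_nonneg_left ?_ (Nat.cast_nonneg _)
    have e1 : ∑ i, Pr d.q (Gi k i) = Pr d.q d.A := by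
      simp only [Pr_eq]
      rw [Finset.sum_comm]
      refine Finset.sum_congr rfl fun w _ => ?_
      rcases (hq.nonneg w).eq_or_lt with h0 | h0
      · rw [← h0]
        simp
      by_cases hw : w ∈ d.A
      · rw [if_pos hw, Finset.sum_eq_single (d.ι w k)]
        · rw [if_pos ((hGi k _ w).2 ⟨h0, hw, rfl⟩)]
        · intro i _ hi
          rw [if_neg]
          intro hin
          exact hi ((hGi k i w).1 hin).2.2.symm
        · intro e
          exact absurd (Finset.mem_univ _) e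
      · rw [if_neg hw]
        refine Finset.sum_eq_zero fun i _ => ?_
        rw [if_neg]
        intro hin
        exact hw ((hGi k i w).1 hin).2.1
    rw [Finset.sum_sub_distrib, Finset.sum_const, card_univ, Fintype.card_fin, nsmul_eq_mul,
      ← Finset.sum_mul, ← Finset.sum_mul, Finset.sum_sub_distrib, e1, Finset.sum_const, card_univ,
      Fintype.card_fin, nsmul_eq_mul]
    have h2 : (N : ℝ) * (ε / (N + 1)) ≤ ε := by
      rw [mul_div_assoc', div_le_iff₀ (by positivity)]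
      nlinarith
    have h3 : (N : ℝ) * (ε / (N + 1)) * d.X * Real.log 2 ≤ ε * d.X * Real.log 2 := by
      gcongr
    have h4 : (Pr d.q d.A - N * (ε / (N + 1))) * d.X * Real.log 2 =
      Pr d.q d.A * d.X * Real.log 2 - N * (ε / (N + 1)) * d.X * Real.log 2 := by ring
    have h5 : (Pr d.q d.A - ε) * d.X * Real.log 2 =
      Pr d.q d.A * d.X * Real.log 2 - ε * d.X * Real.log 2 := by ring
    rw [h4, h5]
    linarith
  have fin := sum_thm d.W d.Ful c d.X K d.q (fun w => if w ∈ d.A then d.Nn w else 0) d.F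
    (fun _ => (Pr d.q d.A - ε) * d.X * Real.log 2 - N * (Real.log 2 * S)) hq hK dir
  rw [Finset.sum_const, card_univ, Fintype.card_fin, nsmul_eq_mul] at fin
  exact fin

end Pool.LIV
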