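import Pool.Agent.H25.LIVE.Good
import Pool.Agent.H25.LIVE.Mv

/-!
# The live core (A): assembly, with the numbers as hypotheses
-/

set_option autoImplicit false

namespace Pool.LIV

open Finset MvPolynomial
open Pool.Agent.H49.Ent Pool.Agent.H32.Dense Pool.STK Pool.KS3 Pool.OC.RS
open Pool.BFL (Pl CB Pb P2 MC alt)
open Pool.STAT
open Pool.KAF (Pr Pr_eq)

open Classical in
/-- The choice of a frame. -/
noncomputable def io {c N : ℕ} (hN : 1 ≤ N) (κ₂ : ℝ) (i₀ : Fin c)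
    (Q : Fin (c + 1) → Fin N → ℝ) : Fin c → Fin N :=
  if h : ∃ ι, κ₂ ≤ |(Ah i₀ Q ι).det| then h.choose else fun _ => ⟨0, by omega⟩

theorem io_spec {c N : ℕ} (hN : 1 ≤ N) {κ₂ : ℝ} {i₀ : Fin c} {Q : Fin (c + 1) → Fin N → ℝ}
    (h : ∃ ι, κ₂ ≤ |(Ah i₀ Q ι).det|) : κ₂ ≤ |(Ah i₀ Q (io hN κ₂ i₀ Q)).det| := by
  unfold io
  rw [dif_pos h]
  exact h.choose_spec

/-- A column of a frame which is not degenerate is a moving vertex. -/
theorem Ah_pos {c N : ℕ} {i₀ : Fin c} {Q : Fin (c + 1) → Fin N → ℝ} {ι : Fin c → Fin N}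
    (h : (Ah i₀ Q ι).det ≠ 0) (k : Fin c) : 1 ≤ (ι k : ℕ) := by
  by_contra hk
  refine h (Matrix.det_eq_zero_of_column_eq_zero k fun r => ?_)
  unfold Ah
  rw [Matrix.of_apply, vd_zero hk]
  rfl

variable {c : ℕ} {Ω G B 𝔅 𝒱 W : Type} [Fintype Ω] [Fintype W] {d : Fin c → ℕ} {j m N γ : ℕ}
  {C₀ R : ℝ} {p : Ω → ℝ} {g : Ω → G} {bk : Ω → B} {β : Ω → 𝔅} {V : Ω → 𝒱} {tm : Ω → ℤ}
  {pT : Ω → Fin c → ℝ} {pN : Ω → ℝ}
  {ΘT : B → (Fin c → ℝ) → Fin c → ℝ} {FN : B → (Fin c → ℝ) → ℝ}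
  {ξT : 𝒱 → 𝔅 → Fin c → Pl c} {ξN : 𝒱 → 𝔅 → Pl c} {q : W → ℝ} {z : ℕ → W → Ω}

omit [Fintype Ω] [Fintype W] in
/-- The rounded lengths are a function of the rounded times. -/
theorem lh_congr {w w' : W} (h : ∀ a ≤ N, tr tm m γ N z a w = tr tm m γ N z a w') :
    lh tm m γ N z w = lh tm m γ N z w' := by
  funext a
  unfold lh
  have ha := a.2
  rw [h a (by omega), h (a + 1) (by omega)]

omit [Fintype Ω] [Fintype W] in
theorem tr_of_tv {a : ℕ} {w w' : W} (h : tv tm N z a w = tv tm N z a w') :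
    tr tm m γ N z a w = tr tm m γ N z a w' := by
  unfold tr
  rw [h]

/-- The gradients are a function of the context. -/
theorem Qr_congr (h : MC p (alt g bk) (2 * N - 1) q z)
    (hG : GC d j m C₀ R p g bk β V tm ΘT FN ξT ξN) {i : ℕ} {w w' : W} (hw : 0 < q w)
    (hw' : 0 < q w') (hc : cxv β V tm N z i w = cxv β V tm N z i w')
    (ht : tr tm m γ N z i w = tr tm m γ N z i w') :
    QW d j N β V ξT ξN z (lh tm m γ N z w) w = QW d j N β V ξT ξN z (lh tm m γ N z w') w' := by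
  obtain ⟨cV, ct, cβ⟩ := cxv_data hc
  have e1 := WP_eq h hG hw hw' cV cβ
  have e2 : lh tm m γ N z w = lh tm m γ N z w' := lh_congr fun a ha => by
    by_cases hai : a = i
    · rw [hai]
      exact ht
    · exact tr_of_tv (ct a ha hai)
  unfold QW
  rw [e1, e2]

open Classical in
/-- **The live core**, with the numbers as hypotheses. -/
theorem ful_core {K KT CJ CW DW D CM DM U X s k' : ℕ} {MJ MW B₂ B₃ ε εE Ai κE κ₂ θ η a ε' : ℝ}
    {i₀ : Fin c} (hN : 1 ≤ N) (hθ : 0 ≤ θ) (hC₀ : 1 ≤ C₀)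
    (hLC : LC d i₀ j D U m C₀ θ η p g bk β V tm pT pN ΘT FN ξT ξN)
    (hK : RelC d j K)
    (hT : ∀ (R δ : ℝ), 1 ≤ R →
    0 ≤ δ → δ ≤ 1 → ∀ (ξ : Fin N → Fin c → Pl c) (b : Fin N → Pl c) (s : Fin N → ℝ)
    (u : ℕ → Fin c → ℝ) (f : ℕ → ℝ) (y : ℝ), (∀ a, VF d (ξ a)) →
    (∀ a, (b a).IsWeightedHomogeneous d (j - 1)) → (∀ a i, CB (ξ a i) R) → (∀ a, CB (b a) R) →
    (∀ a, |s a| ≤ 1) → (∀ a ≤ N, ∀ i, |u a i| ≤ R) →
    (∀ (a : Fin N) (i : Fin c), |u (a + 1) i - eval (u a) (flow d (ξ a) (-s a) i)| ≤ δ) →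
    (∀ a : Fin N, |f (a + 1) - f a + eval (u a) (hfl j (ξ a) (b a) (-s a))| ≤ δ) →
    (∀ i, |u N i| ≤ δ) → |y - f N| ≤ δ →
    (∀ i, |u 0 i - eval s (wT d N ξ i)| ≤ KT * R ^ KT * δ) ∧
    |y - f 0 - eval s (wH d j N ξ b)| ≤ KT * R ^ KT * δ)
    (hCJ : PBC c D CJ) (hCW : PBC N DW CW) (hCM : PBC N DM CM)
    (hMV : ∀ d : MV c N, d.OK s → Pr d.q d.Gᶜ ≤ (8 * N + 2) * η → d.X = X →
      (∀ i : Fin N, 1 ≤ (i : ℕ) → mi d.q (d.L i) (d.T i) (d.a i) ≤
          2 * N * θ + (((c * c : ℕ) : ℝ) + 1) * Real.log (9 * MJ * 2 ^ γ) ∧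
        mi d.q (d.L' i) (d.T i) (d.a i) ≤
          2 * N * θ + (((c * c : ℕ) : ℝ) + 1) * Real.log (9 * MJ * 2 ^ γ) ∧
        mi d.q (d.T i) (d.a i) (fun w => (d.L i w, d.b w)) ≤
          2 * N * θ + (((c * c : ℕ) : ℝ) + 1) * Real.log (9 * MJ * 2 ^ γ)) →
      ∀ D : Fin N → ℕ → Set d.W,
      (∀ (i : Fin N) ℓ w, 1 ≤ (i : ℕ) → 0 < d.q w → w ∉ D i ℓ → d.dead i k' ℓ w ≤ 1 - a) →
      ∀ S : ℝ, 0 ≤ S → (∀ i, ∑ ℓ ∈ range d.X, Pr d.q (D i ℓ) ≤ S) →
      c * ((Pr d.q d.A - ε') * d.X * Real.log 2 - N * (Real.log 2 * S)) ≤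
        CH d.q (fun w => if w ∈ d.A then d.Nn w else 0) d.F)
    (hWPb : ∀ (ξ : Fin N → Fin c → Pl c) (b : Fin N → Pl c), (∀ a, VF d (ξ a)) →
      (∀ a, (b a).IsWeightedHomogeneous d (j - 1)) → (∀ a i, CB (ξ a i) (Real.exp θ)) →
      (∀ a, CB (b a) (Real.exp θ)) → ∀ s : Fin (c + 1),
      ((Fin.snoc (wT d N ξ) (wH d j N ξ b) : Fin (c + 1) → Pl N) s).totalDegree ≤ DW ∧
        CB ((Fin.snoc (wT d N ξ) (wH d j N ξ b) : Fin (c + 1) → Pl N) s) B₂)
    (hMb : ∀ (ξ : Fin N → Fin c → Pl c) (b : Fin N → Pl c), (∀ a, VF d (ξ a)) →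
      (∀ a, (b a).IsWeightedHomogeneous d (j - 1)) → (∀ a i, CB (ξ a i) (Real.exp θ)) →
      (∀ a, CB (b a) (Real.exp θ)) → ∀ e : Fin (c + 1) → Fin N,
      (minA d j ξ b e).totalDegree ≤ DM ∧ CB (minA d j ξ b e) B₃)
    (hMJ : MJ = CJ * (Real.exp θ * C₀ ^ D)) (hMW : MW = CW * (B₂ * 2 ^ DW)) (hMW1 : 1 ≤ MW)
    (hB₂ : 0 ≤ B₂) (hγ : γ ≤ m) (hXU : X ≤ U)
    (hεd : ε = 2 * (KT * Real.exp θ ^ KT * (K * Real.exp θ ^ K * (K * Real.exp θ ^ K *
      (Real.exp θ / 2 ^ U)))) + (K * Real.exp θ ^ K) ^ N * (K * Real.exp θ ^ K *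
        (K * Real.exp θ ^ K * (K * Real.exp θ ^ K * (Real.exp θ / 2 ^ U)))))
    (hε1 : ε ≤ 1)
    (hεE : εE = (K * Real.exp θ ^ K) ^ N * (K * Real.exp θ ^ K * (K * Real.exp θ ^ K *
      (Real.exp θ / 2 ^ U))))
    (hAi : Ai = c.factorial * (2 * MW) ^ c / κ₂) (hκ₂ : 0 < κ₂) (hκE : κE = 2 * (N : ℝ) ^ c * κ₂)
    (C3 : 2 ^ X * (c * ((c * (Ai * (MJ + 1))) * (2 * Real.exp θ))) ≤ (2 : ℝ) ^ U)
    (C4 : 2 ^ X * (c * ((c * (Ai * (MJ + 1))) * (6 * Real.exp θ ^ 2 * εE))) ≤ 1)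
    (C5 : c * (Ai * (20 * MJ * Real.exp θ ^ 2 * MW ^ 2 + 9 * c * Real.exp θ ^ 2 * MW + 2 * MW)) *
      2 ^ s ≤ (2 : ℝ) ^ γ)
    (C6 : 2 ^ X * (c * (Ai * ((20 * MJ * Real.exp θ ^ 2 * MW ^ 2 +
      3 * c * Real.exp θ ^ 2) * ε))) ≤ 1)
    (C7 : CM * (B₃ * 2 ^ DM) * (1 / 2 ^ γ) ≤ κE / 2)
    (Dd : ℕ → Set Ω) (hDd : ∀ i ω, 0 < p ω → ω ∉ Dd i → dead p g tm m k' i ω ≤ 1 - a)
    (h : MC p (alt g bk) (2 * N - 1) q z) :
    ∃ A : Set W, (∀ w w', 0 < q w → 0 < q w' →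
        CX β V tm N z w = CX β V tm N z w' → w ∈ A → w' ∈ A) ∧
      (∀ w, 0 < q w → (∃ e : Fin (c + 1) → Fin N, κE ≤
        |eval (len tm m N z w) (minA d j (lgT β V ξT N z w) (lgN β V ξN N z w) e)|) → w ∈ A) ∧
      ∀ y : W → Fin c → ℤ,
        Pb q (fun w => ¬ ∀ i, |(y w i : ℝ) - 2 ^ U * pos i₀ pT pN (z (2 * N - 1) w) i| ≤
          Real.exp θ) ≤ η →
        c * ((Pr q A - ε') * X * Real.log 2 -
            N * (Real.log 2 * ∑ i ∈ range U, Pr p (Dd i))) ≤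
          CH q (fun w => if w ∈ A then y w else 0) (CX β V tm N z) := by
  have hq := h.isLaw
  have hp := hLC.isLaw.nonneg
  have hR : 1 ≤ Real.exp θ := Real.one_le_exp hθ
  have hG : GC d j m C₀ (Real.exp θ) p g bk β V tm ΘT FN ξT ξN :=
    ⟨hR, hLC.bk_β, hLC.g_β, hLC.g_V, hLC.bk_tm, hLC.tm_g, hLC.ξT_vf, hLC.ξT_le, hLC.ξN_hom,
      hLC.ξN_le, hLC.ΘT_le⟩
  have hI : WI p g bk β V tm θ :=
    ⟨hLC.isLaw, hLC.bk_β, hLC.g_β, hLC.g_V, hLC.bk_tm, hLC.timeInd, hLC.indep⟩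
  have hδ0 : 0 ≤ Real.exp θ / 2 ^ U := by positivity
  have hpos : ∀ k, k ≤ 2 * N - 1 → ∀ w, 0 < q w → 0 < p (z k w) := fun k hk w hw =>
    (h.marg k hk).pos hq.nonneg hw
  have hL := one_le_L hK hR
  have hKT0 : (0 : ℝ) ≤ KT * Real.exp θ ^ KT := by positivity
  have hMJ1 : 1 ≤ MJ := by
    rw [hMJ]
    have k1 : (1 : ℝ) ≤ CJ := by exact_mod_cast hCJ.1
    have k2 : (1 : ℝ) ≤ C₀ ^ D := one_le_pow₀ hC₀
    have k3 : (1 : ℝ) ≤ Real.exp θ * C₀ ^ D := by nlinarith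
    nlinarith
  have hAi0 : 0 ≤ Ai := by
    rw [hAi]
    positivity
  have hsm : (K * Real.exp θ ^ K) ^ N * (K * Real.exp θ ^ K * (K * Real.exp θ ^ K *
      (K * Real.exp θ ^ K * (Real.exp θ / 2 ^ U)))) ≤ 1 := by
    have : 0 ≤ 2 * (KT * Real.exp θ ^ KT * (K * Real.exp θ ^ K * (K * Real.exp θ ^ K *
      (Real.exp θ / 2 ^ U)))) := by positivity
    linarith
  -- the polynomials
  choose PΘ hΘ using hLC.ΘT_pol
  choose PF hF using hLC.FN_pol
  have hJ : ∀ w, 0 < q w → ∀ r l, |Jw i₀ PΘ PF bk pT N z w r l| ≤ MJ := fun w hw =>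
    Jw_le hR hC₀ hCJ i₀ PΘ PF hΘ hF hMJ (hLC.pT_le _ (hpos _ le_rfl w hw))
  have hWP : ∀ w s, (WP d j N β V ξT ξN z w s).totalDegree ≤ DW ∧
      CB (WP d j N β V ξT ξN z w s) B₂ := fun w s =>
    hWPb _ _ (fun a => hLC.ξT_vf _ _) (fun a => hLC.ξN_hom _ _) (fun a i => hLC.ξT_le _ _ _)
      (fun a => hLC.ξN_le _ _) s
  obtain ⟨Qr, hQr⟩ : ∃ Qr : W → Fin (c + 1) → Fin N → ℝ,
    ∀ w, Qr w = QW d j N β V ξT ξN z (lh tm m γ N z w) w := ⟨_, fun _ => rfl⟩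
  obtain ⟨A, hAd⟩ : ∃ A : Set W, ∀ w, w ∈ A ↔ ∃ ι, κ₂ ≤ |(Ah i₀ (Qr w) ι).det| :=
    ⟨{w | ∃ ι, κ₂ ≤ |(Ah i₀ (Qr w) ι).det|}, fun _ => Iff.rfl⟩
  have hdet : ∀ w ∈ A, κ₂ ≤ |(Ah i₀ (Qr w) (io hN κ₂ i₀ (Qr w))).det| := fun w hw =>
    io_spec hN ((hAd w).1 hw)
  have hdet0 : ∀ w ∈ A, (Ah i₀ (Qr w) (io hN κ₂ i₀ (Qr w))).det ≠ 0 := fun w hw e => by
    have := hdet w hw
    rw [e, abs_zero] at this
    linarith
  have hct : ∀ {w w' : W}, CX β V tm N z w = CX β V tm N z w' →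
      (∀ a < N, V (z (2 * a) w) = V (z (2 * a) w')) ∧
      (∀ a ≤ N, tv tm N z a w = tv tm N z a w') ∧ β (z 0 w) = β (z 0 w') := by
    intro w w' e
    unfold CX at e
    simp only [Prod.mk.injEq] at e
    exact ⟨fun a ha => congrFun e.1 ⟨a, ha⟩, fun a ha => congrFun e.2.1 ⟨a, by omega⟩, e.2.2⟩
  have hcx : ∀ (i : ℕ) {w w' : W}, CX β V tm N z w = CX β V tm N z w' →
      cxv β V tm N z i w = cxv β V tm N z i w' := by
    intro i w w' e
    obtain ⟨a1, a2, a3⟩ := hct e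
    unfold cxv
    refine Prod.ext (funext fun a => a1 a a.2) (Prod.ext (funext fun a => ?_) a3)
    show (if (a : ℕ) = i then 0 else tv tm N z a w) = if (a : ℕ) = i then 0 else tv tm N z a w'
    rw [a2 a (by omega)]
  have hQc : ∀ (i : ℕ) {w w' : W}, 0 < q w → 0 < q w' →
      cta i₀ PΘ PF bk pT m γ β V tm N z i w = cta i₀ PΘ PF bk pT m γ β V tm N z i w' →
      Qr w = Qr w' := by
    intro i w w' hw hw' e
    unfold cta at e
    simp only [Prod.mk.injEq] at e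
    rw [hQr, hQr]
    exact Qr_congr h hG hw hw' e.2 e.1.2
  have hQX : ∀ {w w' : W}, 0 < q w → 0 < q w' →
      CX β V tm N z w = CX β V tm N z w' → Qr w = Qr w' := by
    intro w w' hw hw' e
    rw [hQr, hQr]
    exact Qr_congr (i := 0) h hG hw hw' (hcx 0 e) (tr_of_tv ((hct e).2.1 0 (by omega)))
  refine ⟨A, ?_, ?_, ?_⟩
  · intro w w' hw hw' e hwA
    rw [hAd] at hwA ⊢
    rw [← hQX hw hw' e]
    exact hwA
  · rintro w hw ⟨e, he⟩
    rw [hAd]
    have h1 : ∀ a, |len tm m N z w a| ≤ 2 := fun a => by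
      rw [len_eq h hG.bk_tm hw]
      exact (ln_le h hG hw a.2).trans one_le_two
    have h2 : ∀ a, |lh tm m γ N z w a| ≤ 2 := lh_le h hG hγ hw
    have h3 : ∀ a, |lh tm m γ N z w a - len tm m N z w a| ≤ 1 / 2 ^ γ := fun a => by
      rw [len_eq h hG.bk_tm hw, abs_sub_comm]
      exact ln_lh hγ a w
    have hb := hMb (lgT β V ξT N z w) (lgN β V ξN N z w) (fun a => hLC.ξT_vf _ _)
      (fun a => hLC.ξN_hom _ _) (fun a i => hLC.ξT_le _ _ _) (fun a => hLC.ξN_le _ _) e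
    have key := (hCM.2 _ B₃ 2 hb.1 hb.2 one_le_two (len tm m N z w) (lh tm m γ N z w) h1 h2
      (1 / 2 ^ γ) (by positivity) h3).2.2.1
    have h4 := key.trans C7
    have h5 : κE / 2 ≤ |eval (lh tm m γ N z w) (minA d j (lgT β V ξT N z w)
        (lgN β V ξN N z w) e)| := by
      have h6 := abs_sub_abs_le_abs_sub (eval (len tm m N z w) (minA d j (lgT β V ξT N z w)
        (lgN β V ξN N z w) e)) (eval (lh tm m γ N z w) (minA d j (lgT β V ξT N z w)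
        (lgN β V ξN N z w) e))
      rw [abs_sub_comm] at h6
      linarith
    rw [minA_eq, ← hQr] at h5
    obtain ⟨ι, hι⟩ := frame (Qr w) (Fin.castSucc i₀) (fun a => by
      rw [hQr]
      unfold QW WP
      rw [Fin.snoc_castSucc]
      exact eval_pderiv_wT_time hLC.d_time (ξ := lgT β V ξT N z w)
        (fun a => hLC.ξT_time _ _) _ _) e
    refine ⟨ι, ?_⟩
    have h7 := h5.trans hι
    rw [hκE] at h7
    have hNc : (0 : ℝ) < (N : ℝ) ^ c := by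
      have : (0 : ℝ) < N := by exact_mod_cast (by omega : 0 < N)
      positivity
    have h8 : (N : ℝ) ^ c * κ₂ ≤ (N : ℝ) ^ c * |(Ah i₀ (Qr w) ι).det| := by
      have e9 : 2 * (N : ℝ) ^ c * κ₂ / 2 = (N : ℝ) ^ c * κ₂ := by ring
      rw [e9] at h7
      exact h7
    exact le_of_mul_le_mul_left h8 hNc
  · intro y hy
    -- the multi vertex data
    obtain ⟨Gs, hGs⟩ : ∃ Gs : Set W, Gs = {w | GG d j m N C₀ p g bk β V tm pT pN ΘT FN ξT ξN q z
      (Real.exp θ / 2 ^ U) w ∧ ∀ i, |(y w i : ℝ) - 2 ^ U * pos i₀ pT pN (z (2 * N - 1) w) i| ≤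
        Real.exp θ} := ⟨_, rfl⟩
    obtain ⟨Nn, hNn⟩ : ∃ Nn : W → Fin c → ℤ, ∀ w, Nn w =
      Nv U X (Ah i₀ (Qr w) (io hN κ₂ i₀ (Qr w))) (Mr γ (Mh i₀ PΘ PF bk pT N γ z w)) (y w) :=
      ⟨_, fun _ => rfl⟩
    have hAinv : ∀ w ∈ A, 0 < q w → ∀ r l,
        |(Ah i₀ (Qr w) (io hN κ₂ i₀ (Qr w)))⁻¹ r l| ≤ Ai := by
      intro w hwA hw r l
      rw [hAi]
      refine inv_entry _ (by linarith) (fun r l => ?_) hκ₂ (hdet w hwA) r l
      unfold Ah
      rw [Matrix.of_apply, hQr]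
      exact vd_le (by linarith) (fun r a => (QW_near hCW hMW h hG hγ hw (hWP w) r a).2) _ _
    have rel : ∀ (i : Fin N) (k : Fin c) (w w' : W), 0 < q w → 0 < q w' → w ∈ A →
        io hN κ₂ i₀ (Qr w) k = i → w ∈ Gs → w' ∈ Gs →
        cta i₀ PΘ PF bk pT m γ β V tm N z i w = cta i₀ PΘ PF bk pT m γ β V tm N z i w' →
        (g (z (2 * i) w) = g (z (2 * i) w') → ∀ r, |((Nn w' r : ℝ) - Nn w r)| ≤ 4) ∧
        (1 ≤ (i : ℕ) → g (z (2 * i - 1) w) = g (z (2 * i - 1) w') → ∀ r,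
          |((Nn w' r : ℝ) - Nn w r) -
            2 ^ X * (dti tm m N z i w w' * (Pi.single k 1 : Fin c → ℝ) r)| ≤
            4 + 2 ^ X * |dti tm m N z i w w'| / 2 ^ s) := by
      intro i k w w' hw hw' hwA hι hwG hwG' e
      have eQ := hQc i hw hw' e
      have e' := e
      unfold cta at e'
      simp only [Prod.mk.injEq] at e'
      rw [hGs] at hwG hwG'
      have key := od_rel (U := U) (X := X) (s := s) (ε := ε) (εE := εE) (Ai := Ai) (MJ := MJ)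
        (MW := MW) (B₂ := B₂) hK hp hG hδ0 hT hsm h i₀ hLC.pT_le hC₀
        hLC.ΘT_inv hLC.FN_lip hLC.ΘT_time hLC.d_time hLC.ξT_time hCJ hCW PΘ PF hΘ hF hMJ hMW hMW1
        hB₂ hγ hεd hε1 hεE hAi0 C3 C4 C5 C6 (hWP w) hwG.1 hwG'.1 y hwG.2 hwG'.2 i k
        (io hN κ₂ i₀ (Qr w)) hι (Ah i₀ (Qr w) (io hN κ₂ i₀ (Qr w))) (by rw [hQr])
        (hdet0 w hwA) (hAinv w hwA hw) (Mh i₀ PΘ PF bk pT N γ z w) rfl
        e'.2 e'.1.2
      rw [hNn w, hNn w', ← eQ, ← e'.1.1]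
      exact key
    have fin := hMV { W := W, Lam := G, Bet := 𝔅,
                      Gam := ((Fin c → Fin c → ℤ) × ℤ) × ((Fin N → 𝒱) × (Fin (N + 1) → ℤ) × 𝔅),
                      Ful := (Fin c → Fin c → ℤ) × ((Fin N → 𝒱) × (Fin (N + 1) → ℤ) × 𝔅),
                      q := q, L := fun i w => g (z (2 * i) w), L' := fun i w => g (z (2 * i - 1) w),
                      T := fun i w => tv tm N z i w, b := fun w => β (z 0 w),
                      a := fun i => cta i₀ PΘ PF bk pT m γ β V tm N z i,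
                      th := fun i w => (tv tm N z i w : ℝ) / 2 ^ m,
                      F := fun w => (Mh i₀ PΘ PF bk pT N γ z w, CX β V tm N z w),
                      A := A, ι := fun w => io hN κ₂ i₀ (Qr w), Nn := Nn, X := X, G := Gs }
      { law := hq
        hab := fun i w w' _ _ e => by
          unfold cta cxv at e
          simp only [Prod.mk.injEq] at e
          exact e.2.2.2
        hth := fun i w w' _ _ e => by
          have e1 : tv tm N z i w = tv tm N z i w' := (Prod.ext_iff.mp e).1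
          show (tv tm N z i w : ℝ) / 2 ^ m = (tv tm N z i w' : ℝ) / 2 ^ m
          rw [e1]
        hF := fun i w w' _ _ e => by
          have e1 := Prod.ext_iff.mp e
          have e2 := (hct e1.2).2.1 i (by omega)
          refine Prod.ext e2 (Prod.ext (Prod.ext e1.1 (tr_of_tv e2)) (hcx i e1.2))
        hF' := fun i w w' _ _ e => by
          have e1 := Prod.ext_iff.mp e
          have e2 : cta i₀ PΘ PF bk pT m γ β V tm N z i w = cta i₀ PΘ PF bk pT m γ β V tm N z i w' :=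
            e1.2
          have e3 : tv tm N z i w = tv tm N z i w' := e1.1
          unfold cta at e2
          simp only [Prod.mk.injEq] at e2
          obtain ⟨a1, a2, a3⟩ := cxv_data (β := β) (V := V) (tm := tm) (N := N) (z := z) (i := i)
            e2.2
          refine Prod.ext e2.1.1 (Prod.ext (funext fun a => a1 a a.2)
            (Prod.ext (funext fun a => ?_) a3))
          show tv tm N z a w = tv tm N z a w'
          by_cases hai : (a : ℕ) = i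
          · rw [hai]
            exact e3
          · exact a2 a (by omega) hai
        hA := fun i w w' hw hw' e hwA => by
          show w' ∈ A
          have hwA' : w ∈ A := hwA
          rw [hAd] at hwA' ⊢
          rw [← hQc i hw hw' e]
          exact hwA'
        hι := fun i w w' hw hw' e => by
          show io hN κ₂ i₀ (Qr w) = io hN κ₂ i₀ (Qr w')
          rw [hQc i hw hw' e]
        hι1 := fun w k hw hwA => Ah_pos (hdet0 w hwA) k
        h0 := fun i k w w' hw hw' hwA hι hwG hwG' hL he r =>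
          (rel i k w w' hw hw' hwA hι hwG hwG' he).1 hL r
        hv := fun i k w w' hw hw' hwA hι hwG hwG' hL he r => by
          have hi : 1 ≤ (i : ℕ) := by
            have h1 : 1 ≤ ((io hN κ₂ i₀ (Qr w) k : Fin N) : ℕ) := Ah_pos (hdet0 w hwA) k
            have h2 : io hN κ₂ i₀ (Qr w) k = i := hι
            rw [h2] at h1
            exact h1
          have h3 := (rel i k w w' hw hw' hwA hι hwG hwG' he).2 hi hL r
          have e1 : dti tm m N z i w w' = (tv tm N z i w' : ℝ) / 2 ^ m -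
              (tv tm N z i w : ℝ) / 2 ^ m := by
            unfold dti
            push_cast
            ring
          rw [e1] at h3
          exact h3 }
      (by
        show Pr q Gsᶜ ≤ _
        rw [hGs]
        exact good_le hp h hN hLC.transport hLC.own _ hy)
      rfl
      (fun i hi => infos hI hθ h hLC.tm_g hγ hi i.2 i₀ PΘ PF hMJ1 hJ)
      (fun i ℓ => if ℓ ≤ m then {w | z (2 * i) w ∈ Dd ℓ} else Set.univ)
      (fun i ℓ w hi hw hwD => by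
        by_cases hℓ : ℓ ≤ m
        · have hwD' : ¬ w ∈ (if ℓ ≤ m then {w | z (2 * (i : ℕ)) w ∈ Dd ℓ} else Set.univ) := hwD
          rw [if_pos hℓ] at hwD'
          refine (dead_walk h hLC.g_β (fun w hw k hk => hG.β_const h hw hk) i.2 k' hℓ hw).trans ?_
          exact hDd ℓ _ (hpos _ (by omega) w hw) hwD'
        · exfalso
          have hwD' : ¬ w ∈ (if ℓ ≤ m then {w | z (2 * (i : ℕ)) w ∈ Dd ℓ} else Set.univ) := hwD
          rw [if_neg hℓ] at hwD'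
          exact hwD' (Set.mem_univ w))
      (∑ i ∈ range U, Pr p (Dd i)) (Finset.sum_nonneg fun i _ => Pr_nn hp _)
      (fun i => by
        show ∑ ℓ ∈ range X, Pr q (if ℓ ≤ m then {w | z (2 * (i : ℕ)) w ∈ Dd ℓ} else Set.univ) ≤ _
        have hm := hLC.m_ge
        have e1 : ∀ ℓ ∈ range X, Pr q (if ℓ ≤ m then {w | z (2 * (i : ℕ)) w ∈ Dd ℓ}
            else Set.univ) = Pr p (Dd ℓ) := by
          intro ℓ hℓ
          have hℓ' := Finset.mem_range.mp hℓ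
          rw [if_pos (by omega)]
          exact Pr_marg (h.marg (2 * i) (by omega)) (Dd ℓ)
        rw [Finset.sum_congr rfl e1]
        exact Finset.sum_le_sum_of_subset_of_nonneg
          (fun x hx => Finset.mem_range.mpr (by
            have := Finset.mem_range.mp hx
            omega)) fun _ _ _ => Pr_nn hp _)
    refine (show _ ≤ _ from fin).trans ?_
    have s1 : CH q (fun w => if w ∈ A then Nn w else 0)
        (fun w => (Mh i₀ PΘ PF bk pT N γ z w, CX β V tm N z w)) ≤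
        CH q (fun w => if w ∈ A then y w else 0)
        (fun w => (Mh i₀ PΘ PF bk pT N γ z w, CX β V tm N z w)) := by
      refine CH_mono_left hq.nonneg ?_
      intro w w' hw hw' e
      have e1 := Prod.ext_iff.mp e
      have e2 : (if w ∈ A then y w else 0) = if w' ∈ A then y w' else 0 := e1.1
      have e3 := Prod.ext_iff.mp e1.2
      have e4 : Mh i₀ PΘ PF bk pT N γ z w = Mh i₀ PΘ PF bk pT N γ z w' := e3.1
      have eQ := hQX hw hw' e3.2
      show (if w ∈ A then Nn w else 0) = if w' ∈ A then Nn w' else 0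
      have hAA : w ∈ A ↔ w' ∈ A := by
        rw [hAd, hAd, eQ]
      by_cases hwA : w ∈ A
      · rw [if_pos hwA, if_pos (hAA.1 hwA)] at e2
        rw [if_pos hwA, if_pos (hAA.1 hwA), hNn, hNn, eQ, e4, e2]
      · rw [if_neg hwA, if_neg (fun k => hwA (hAA.2 k))]
    refine s1.trans (CH_mono_cond hq.nonneg fun w w' _ _ e => (Prod.ext_iff.mp e).2)

end Pool.LIV
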