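import Pool.Agent.H25.LIVE.Rnd
import Pool.Agent.H60.KSM1.Defs

/-!
# Near times along a marginal
-/

set_option autoImplicit false

namespace Pool.LIV

open Finset
open Pool.Agent.H49.Ent Pool.Agent.H32.Dense Pool.STK Pool.KS3
open Pool.BFL (Pl CB Pb P2 MC alt)
open Pool.KAF (Pr Pr_eq)

/-- The conditional probability of an event of a marginal. -/
theorem cond_marg {Ω W A B : Type} [Fintype Ω] [Fintype W] {p : Ω → ℝ} {q : W → ℝ} {f : W → Ω}
    (h : Marg q p f) (hq : ∀ w, 0 ≤ q w) (Z : W → A) (ζ : Ω → B) (w : W)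
    (hZ : ∀ v, 0 < q v → (Z v = Z w ↔ ζ (f v) = ζ (f w))) (E : Set W) (E' : Set Ω)
    (hE : ∀ v, 0 < q v → Z v = Z w → v ∈ E → f v ∈ E') :
    Pr (cond q Z (Z w)) E ≤ Pr (cond p ζ (ζ (f w))) E' := by
  classical
  have hl : law q Z (Z w) = law p ζ (ζ (f w)) := by
    rw [← h.law ζ]
    unfold law
    refine Finset.sum_congr rfl fun v _ => ?_
    rcases (hq v).eq_or_lt with h0 | h0
    · rw [← h0]
      simp
    · by_cases k : Z v = Z w
      · rw [if_pos k, if_pos ((hZ v h0).1 k)]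
      · rw [if_neg k, if_neg (fun e => k ((hZ v h0).2 e))]
  rw [Pr_eq, Pr_eq]
  have h1 := h.ex (fun ω => if ω ∈ E' then (if ζ ω = ζ (f w) then 1 / law p ζ (ζ (f w)) else 0)
    else 0)
  unfold Ex at h1
  have h2 : ∑ ω, (if ω ∈ E' then cond p ζ (ζ (f w)) ω else 0) =
      ∑ ω, p ω * (if ω ∈ E' then (if ζ ω = ζ (f w) then 1 / law p ζ (ζ (f w)) else 0) else 0) := by
    refine Finset.sum_congr rfl fun ω _ => ?_
    unfold Pool.Agent.H49.Ent.cond
    by_cases k : ω ∈ E'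
    · rw [if_pos k, if_pos k]
      by_cases k2 : ζ ω = ζ (f w)
      · rw [if_pos k2, if_pos k2]
        ring
      · rw [if_neg k2, if_neg k2, mul_zero]
    · rw [if_neg k, if_neg k, mul_zero]
  rw [h2, ← h1]
  refine Finset.sum_le_sum fun v _ => ?_
  beta_reduce
  rcases (hq v).eq_or_lt with h0 | h0
  · rw [← h0, zero_mul]
    unfold Pool.Agent.H49.Ent.cond
    rw [← h0]
    simp
  have hr : 0 ≤ q v * (if f v ∈ E' then (if ζ (f v) = ζ (f w) then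
      1 / law p ζ (ζ (f w)) else 0) else 0) := by
    have : 0 ≤ law p ζ (ζ (f w)) := by
      rw [← hl]
      exact law_nonneg hq _ _
    refine mul_nonneg (hq v) ?_
    split_ifs <;> positivity
  by_cases k : v ∈ E
  · rw [if_pos k]
    unfold Pool.Agent.H49.Ent.cond
    by_cases k2 : Z v = Z w
    · rw [if_pos k2, if_pos (hE v h0 k2 k), if_pos ((hZ v h0).1 k2), hl]
      exact le_of_eq (by ring)
    · rw [if_neg k2]
      exact hr
  · rw [if_neg k]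
    exact hr

variable {Ω G B 𝔅 𝒱 W : Type} [Fintype Ω] [Fintype W] {m N : ℕ}
  {p : Ω → ℝ} {g : Ω → G} {bk : Ω → B} {β : Ω → 𝔅} {tm : Ω → ℤ}
  {q : W → ℝ} {z : ℕ → W → Ω}

/-- The first digits of a time are its window. -/
theorem win_eq {i : ℕ} (hi : i ≤ m) (t : ℤ) :
    ⌊(2 : ℝ) ^ i * ((t : ℝ) / 2 ^ m)⌋ = t / ((2 ^ (m - i) : ℕ) : ℤ) := by
  have e : (2 : ℝ) ^ i * ((t : ℝ) / 2 ^ m) = (t : ℝ) / ((2 ^ (m - i) : ℕ) : ℝ) := by
    push_cast
    have : (2 : ℝ) ^ m = 2 ^ i * 2 ^ (m - i) := by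
      rw [← pow_add]
      congr 1
      omega
    rw [this]
    field_simp
  rw [e, Int.floor_div_natCast, Int.floor_intCast]

/-- The near times of the line block of a vertex. -/
theorem dead_walk (h : MC p (alt g bk) (2 * N - 1) q z) (hgβ : Det p g β)
    (hβc : ∀ w, 0 < q w → ∀ k ≤ 2 * N - 1, β (z k w) = β (z 0 w)) {i : ℕ} (hi : i < N) (k' : ℕ)
    {ℓ : ℕ} (hℓ : ℓ ≤ m) {w : W} (hw : 0 < q w) :
    Pr (cond q (fun v => (g (z (2 * i) v), (β (z 0 v),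
        ⌊(2 : ℝ) ^ ℓ * ((tv tm N z i v : ℝ) / 2 ^ m)⌋)))
      (g (z (2 * i) w), (β (z 0 w), ⌊(2 : ℝ) ^ ℓ * ((tv tm N z i w : ℝ) / 2 ^ m)⌋)))
      {v | |(tv tm N z i v : ℝ) / 2 ^ m - (tv tm N z i w : ℝ) / 2 ^ m| <
        (2 : ℝ) ^ (-((ℓ : ℤ) + k'))} ≤ dead p g tm m k' ℓ (z (2 * i) w) := by
  have hq := h.isLaw.nonneg
  have hm := h.marg (2 * i) (by omega)
  unfold dead
  refine cond_marg hm hq (fun v => (g (z (2 * i) v), (β (z 0 v),
        ⌊(2 : ℝ) ^ ℓ * ((tv tm N z i v : ℝ) / 2 ^ m)⌋)))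
    (fun v => (g v, win tm m ℓ v)) w ?_ _ _ ?_
  · intro v hv
    have e1 : ∀ v, ⌊(2 : ℝ) ^ ℓ * ((tv tm N z i v : ℝ) / 2 ^ m)⌋ = win tm m ℓ (z (2 * i) v) := by
      intro v
      rw [win_eq hℓ, ← tv_even (tm := tm) (z := z) (w := v) hi]
      rfl
    constructor
    · intro e
      simp only [e1] at e
      have e' := Prod.ext_iff.mp e
      exact Prod.ext e'.1 (Prod.ext_iff.mp e'.2).2
    · intro e
      simp only [e1]
      have e' := Prod.ext_iff.mp e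
      refine Prod.ext e'.1 (Prod.ext ?_ e'.2)
      show β (z 0 v) = β (z 0 w)
      rw [← hβc v hv (2 * i) (by omega), ← hβc w hw (2 * i) (by omega)]
      exact hgβ _ _ (hm.pos hq hv) (hm.pos hq hw) e'.1
  · intro v hv _ hvE
    have hvE' : |(tv tm N z i v : ℝ) / 2 ^ m - (tv tm N z i w : ℝ) / 2 ^ m| <
        (2 : ℝ) ^ (-((ℓ : ℤ) + k')) := hvE
    show ((|tm (z (2 * i) v) - tm (z (2 * i) w)| : ℤ) : ℝ) / 2 ^ m < 1 / 2 ^ (ℓ + k')
    rw [tv_even (tm := tm) (z := z) (w := v) hi, tv_even (tm := tm) (z := z) (w := w) hi]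
    have e2 : (2 : ℝ) ^ (-((ℓ : ℤ) + k')) = 1 / 2 ^ (ℓ + k') := by
      rw [zpow_neg, one_div, ← Nat.cast_add, zpow_natCast]
    rw [← e2]
    rw [← sub_div, abs_div, abs_of_pos (by positivity : (0 : ℝ) < 2 ^ m)] at hvE'
    push_cast
    exact hvE'

end Pool.LIV
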