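import Pool.Agent.H64.STAT.Stmts
import Pool.Agent.H60.KS2.Defs

/-!
# The weighted core for times with gaps: data and statements

As in `Pool.STAT`, but the time of the sample is not almost uniform: `g` is a line block (finitely
many digits of the line), almost independent of the time given `β`, and a second time of the line
block is separated from the first one in most windows (`dead`). The coordinate `i₀` is the time.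
-/

set_option autoImplicit false

namespace Pool.LIV

open Finset MvPolynomial
open Pool.Agent.H49.Ent Pool.Agent.H32.Dense Pool.STK Pool.KS3
open Pool.BFL (Pl CB Pb P2 MC alt)
open Pool.KAF (Pr)
open Pool.STAT

/-- The data of the core. -/
structure LC {c : ℕ} {Ω G B 𝔅 𝒱 : Type} [Fintype Ω] (d : Fin c → ℕ) (i₀ : Fin c) (j D U m : ℕ)
    (C₀ θ η : ℝ) (p : Ω → ℝ) (g : Ω → G) (bk : Ω → B) (β : Ω → 𝔅) (V : Ω → 𝒱) (tm : Ω → ℤ)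
    (pT : Ω → Fin c → ℝ) (pN : Ω → ℝ) (ΘT : B → (Fin c → ℝ) → Fin c → ℝ)
    (FN : B → (Fin c → ℝ) → ℝ) (ξT : 𝒱 → 𝔅 → Fin c → Pl c) (ξN : 𝒱 → 𝔅 → Pl c) : Prop where
  isLaw : IsLaw p
  d_pos : ∀ i, 1 ≤ d i
  j_pos : 1 ≤ j
  m_ge : 2 * U ≤ m
  bk_β : Det p bk β
  g_β : Det p g β
  g_V : Det p g V
  bk_tm : Det p bk tm
  tm_g : ∀ ω ω', g ω = g ω' → |tm ω' - tm ω| ≤ 2 ^ m
  pT_le : ∀ ω, 0 < p ω → ∀ i, |pT ω i| ≤ C₀
  ξT_vf : ∀ v x, VF d (ξT v x)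
  ξT_le : ∀ v x i, CB (ξT v x i) (Real.exp θ)
  ξN_hom : ∀ v x, (ξN v x).IsWeightedHomogeneous d (j - 1)
  ξN_le : ∀ v x, CB (ξN v x) (Real.exp θ)
  d_time : d i₀ = 1
  ξT_time : ∀ v x, ξT v x i₀ = 1
  ΘT_time : ∀ x z z', ΘT x z' i₀ - ΘT x z i₀ = z' i₀ - z i₀
  ΘT_pol : ∀ x i, ∃ P : Pl c, P.totalDegree ≤ D ∧ CB P (Real.exp θ) ∧ ∀ z, ΘT x z i = eval z P
  FN_pol : ∀ x, ∃ P : Pl c, P.totalDegree ≤ D ∧ CB P (Real.exp θ) ∧ ∀ z, FN x z = eval z P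
  ΘT_le : ∀ x z, (∀ i, |z i| ≤ C₀) → ∀ i, |ΘT x z i| ≤ Real.exp θ
  ΘT_lip : ∀ x z z', (∀ i, |z i| ≤ C₀) → (∀ i, |z' i| ≤ C₀) → ∀ δ : ℝ,
    (∀ i, |z i - z' i| ≤ δ) → ∀ i, |ΘT x z i - ΘT x z' i| ≤ Real.exp θ * δ
  ΘT_inv : ∀ x z z', (∀ i, |z i| ≤ C₀) → (∀ i, |z' i| ≤ C₀) → ∀ δ : ℝ,
    (∀ i, |ΘT x z i - ΘT x z' i| ≤ δ) → ∀ i, |z i - z' i| ≤ Real.exp θ * δ
  FN_lip : ∀ x z z', (∀ i, |z i| ≤ C₀) → (∀ i, |z' i| ≤ C₀) → ∀ δ : ℝ,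
    (∀ i, |z i - z' i| ≤ δ) → |FN x z - FN x z'| ≤ Real.exp θ * δ
  own : Pb p (fun ω => ¬ ((∀ i, |ΘT (bk ω) (pT ω) i| ≤ Real.exp θ / 2 ^ U) ∧
    |pN ω - FN (bk ω) (pT ω)| ≤ Real.exp θ / 2 ^ U)) ≤ η
  transport : P2 p g (fun ω ω' => ¬ ∀ z : Fin c → ℝ, (∀ i, |z i| ≤ C₀) →
    (∀ i, |ΘT (bk ω') z i - eval (ΘT (bk ω) z)
      (flow d (ξT (V ω) (β ω)) (-(((tm ω' - tm ω : ℤ) : ℝ) / 2 ^ m)) i)| ≤
      Real.exp θ / 2 ^ U) ∧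
    |FN (bk ω') z - FN (bk ω) z + eval (ΘT (bk ω) z)
      (hfl j (ξT (V ω) (β ω)) (ξN (V ω) (β ω)) (-(((tm ω' - tm ω : ℤ) : ℝ) / 2 ^ m)))| ≤
      Real.exp θ / 2 ^ U) ≤ η
  timeInd : CH p tm β - CH p tm g ≤ θ
  indep : CH p V β - CH p V bk ≤ θ

/-- The window of the first `i` digits of the time (unit `2 ^ (-m)`). -/
def win {Ω : Type} (tm : Ω → ℤ) (m i : ℕ) (ω : Ω) : ℤ := tm ω / ((2 ^ (m - i) : ℕ) : ℤ)

/-- The probability that a second time of the line block, in the same window `i`, is nearer than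
`2 ^ (-(i + k))`. -/
noncomputable def dead {Ω G : Type} [Fintype Ω] (p : Ω → ℝ) (g : Ω → G) (tm : Ω → ℤ)
    (m k i : ℕ) (ω : Ω) : ℝ :=
  Pr (cond p (fun v => (g v, win tm m i v)) (g ω, win tm m i ω))
    {v | ((|tm v - tm ω| : ℤ) : ℝ) / 2 ^ m < 1 / 2 ^ (i + k)}

/-- The coordinates of the space and the height: the height takes the place of the time. -/
noncomputable def pos {c : ℕ} {Ω : Type} (i₀ : Fin c) (pT : Ω → Fin c → ℝ) (pN : Ω → ℝ) (ω : Ω) :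
    Fin c → ℝ := Function.update (pT ω) i₀ (pN ω)

/-- The context of a walk: the fields of the legs, the times of the vertices, `β`. -/
def CX {Ω W 𝔅 𝒱 : Type} (β : Ω → 𝔅) (V : Ω → 𝒱) (tm : Ω → ℤ) (N : ℕ) (z : ℕ → W → Ω) (w : W) :
    (Fin N → 𝒱) × (Fin (N + 1) → ℤ) × 𝔅 :=
  (fun a => V (z (2 * a) w), fun a => tm (z (min (2 * a) (2 * N - 1)) w), β (z 0 w))

open Classical in
/-- **(A) FULL.** The position of the end point (coordinates of the space and height) is full given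
the context, on an event `A` of the context which contains all walks with a minor which is not
small. -/
def LFulEStmt : Prop :=
  ∀ (c j D N k : ℕ) (d : Fin c → ℕ) (i₀ : Fin c) (C₀ a ε : ℝ), 1 ≤ N → 1 ≤ C₀ → 0 < a → 0 < ε →
    ∃ (κ τ : ℝ), 0 < κ ∧ 0 < τ ∧ ∃ U₀ : ℕ, ∀ U m : ℕ, U₀ ≤ U → (m : ℝ) ≤ C₀ * U →
    ∀ (Ω G B 𝔅 𝒱 : Type) [Fintype Ω] (p : Ω → ℝ) (g : Ω → G) (bk : Ω → B) (β : Ω → 𝔅)
      (V : Ω → 𝒱) (tm : Ω → ℤ) (pT : Ω → Fin c → ℝ) (pN : Ω → ℝ)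
      (ΘT : B → (Fin c → ℝ) → Fin c → ℝ) (FN : B → (Fin c → ℝ) → ℝ)
      (ξT : 𝒱 → 𝔅 → Fin c → Pl c) (ξN : 𝒱 → 𝔅 → Pl c) (Dd : ℕ → Set Ω),
      LC d i₀ j D U m C₀ (τ * U) τ p g bk β V tm pT pN ΘT FN ξT ξN →
      (∀ i ω, 0 < p ω → ω ∉ Dd i → dead p g tm m k i ω ≤ 1 - a) →
      ∀ (W : Type) [Fintype W] (q : W → ℝ) (z : ℕ → W → Ω), MC p (alt g bk) (2 * N - 1) q z →
      ∃ A : Set W, (∀ w w', 0 < q w → 0 < q w' →
          CX β V tm N z w = CX β V tm N z w' → w ∈ A → w' ∈ A) ∧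
        (∀ w, 0 < q w → (∃ e : Fin (c + 1) → Fin N, Real.exp (-(κ * U)) ≤
          |eval (len tm m N z w) (minA d j (lgT β V ξT N z w) (lgN β V ξN N z w) e)|) → w ∈ A) ∧
        ∀ y : W → Fin c → ℤ,
          Pb q (fun w => ¬ ∀ i, |(y w i : ℝ) - 2 ^ U * pos i₀ pT pN (z (2 * N - 1) w) i| ≤
            Real.exp (τ * U)) ≤ τ →
          (Pr q A - ε) * (c * (U * Real.log 2)) -
              N * c * Real.log 2 * ∑ i ∈ range U, Pr p (Dd i) ≤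
            CH q (fun w => if w ∈ A then y w else 0) (CX β V tm N z)

end Pool.LIV
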