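import Pool.Agent.H25.LIVE.Pos

/-!
# The estimates for two walks
-/

set_option autoImplicit false

namespace Pool.LIV

open Finset MvPolynomial
open Pool.Agent.H49.Ent Pool.Agent.H32.Dense Pool.STK Pool.KS3
open Pool.BFL (Pl CB Pb P2 MC alt)
open Pool.STAT
open Pool.KAF (Pr)

variable {c : ℕ} {B : Type} {ΘT : B → (Fin c → ℝ) → Fin c → ℝ} {FN : B → (Fin c → ℝ) → ℝ}

/-- The position (a point and a height; the height takes the place of the time). -/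
def upd (i₀ : Fin c) (u : Fin c → ℝ) (y : ℝ) : Fin c → ℝ := Function.update u i₀ y

/-- **The line does not move**: the positions are close. -/
theorem pos_h0 {C₀ R ε : ℝ} (hR : 1 ≤ R) (hε : 0 ≤ ε) (i₀ : Fin c) (x x' : B)
    (u u' : Fin c → ℝ) (y y' : ℝ)
    (hu : ∀ i, |u i| ≤ C₀) (hu' : ∀ i, |u' i| ≤ C₀)
    (hinv : ∀ x z z', (∀ i, |z i| ≤ C₀) → (∀ i, |z' i| ≤ C₀) → ∀ δ : ℝ,
      (∀ i, |ΘT x z i - ΘT x z' i| ≤ δ) → ∀ i, |z i - z' i| ≤ R * δ)
    (hlip : ∀ x z z', (∀ i, |z i| ≤ C₀) → (∀ i, |z' i| ≤ C₀) → ∀ δ : ℝ,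
      (∀ i, |z i - z' i| ≤ δ) → |FN x z - FN x z'| ≤ R * δ)
    (h1 : ∀ z : Fin c → ℝ, (∀ i, |z i| ≤ C₀) → (∀ i, |ΘT x z i - ΘT x' z i| ≤ ε) ∧
      |FN x z - FN x' z| ≤ ε)
    (o1 : ∀ i, |ΘT x u i| ≤ ε) (o2 : |y - FN x u| ≤ ε)
    (o1' : ∀ i, |ΘT x' u' i| ≤ ε) (o2' : |y' - FN x' u'| ≤ ε) (l : Fin c) :
    |upd i₀ u' y' l - upd i₀ u y l| ≤ 6 * R ^ 2 * ε := by
  have a1 : ∀ i, |ΘT x u i - ΘT x u' i| ≤ 3 * ε := by
    intro i
    have b1 := (h1 u' hu').1 i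
    have e : ΘT x u i - ΘT x u' i = ΘT x u i - (ΘT x u' i - ΘT x' u' i) - ΘT x' u' i := by ring
    rw [e]
    refine (abs_sub _ _).trans ?_
    have b2 := abs_sub (ΘT x u i) (ΘT x u' i - ΘT x' u' i)
    have := o1 i
    have := o1' i
    linarith
  have a2 := hinv x u u' hu hu' (3 * ε) a1
  have a3 := hlip x u u' hu hu' (R * (3 * ε)) a2
  have hR2 : R ≤ R ^ 2 := by nlinarith
  have hR1 : (1 : ℝ) ≤ R ^ 2 := hR.trans hR2
  unfold upd
  by_cases hl : l = i₀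
  · rw [hl, Function.update_self, Function.update_self]
    have e : y' - y = (y' - FN x' u') - (FN x u' - FN x' u') - (FN x u - FN x u') -
        (y - FN x u) := by ring
    rw [e]
    have b1 := (h1 u' hu').2
    have c1 := abs_sub (y' - FN x' u' - (FN x u' - FN x' u') - (FN x u - FN x u')) (y - FN x u)
    have c2 := abs_sub (y' - FN x' u' - (FN x u' - FN x' u')) (FN x u - FN x u')
    have c3 := abs_sub (y' - FN x' u') (FN x u' - FN x' u')
    nlinarith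
  · rw [Function.update_of_ne hl, Function.update_of_ne hl, abs_sub_comm]
    have := a2 l
    nlinarith

/-- The derivative of the coordinates (first variable: index of the coordinate). -/
noncomputable def Jm (i₀ : Fin c) (PΘ : B → Fin c → Pl c) (PF : B → Pl c) (x : B)
    (u : Fin c → ℝ) (l : Fin c) : Fin (c + 1) → ℝ :=
  Fin.snoc (fun r => if l = i₀ then 0 else eval u (pderiv l (PΘ x r)))
    (if l = i₀ then 1 else -eval u (pderiv l (PF x)))

/-- The first order of the coordinates. -/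
theorem jac_le {C : ℕ} {C₀ R M ε v : ℝ} (hC₀ : 1 ≤ C₀) (hv0 : 0 ≤ v) (D : ℕ)
    (hC : ∀ (P : Pl c) (B a : ℝ), P.totalDegree ≤ D →
      CB P B → 1 ≤ a → ∀ x y : Fin c → ℝ, (∀ i, |x i| ≤ a) → (∀ i, |y i| ≤ a) → ∀ v : ℝ,
      0 ≤ v → (∀ i, |y i - x i| ≤ v) → |eval x P| ≤ C * (B * a ^ D) ∧
      (∀ i, |eval x (pderiv i P)| ≤ C * (B * a ^ D)) ∧
      |eval y P - eval x P| ≤ C * (B * a ^ D) * v ∧
      (∀ i, |eval y (pderiv i P) - eval x (pderiv i P)| ≤ C * (B * a ^ D) * v) ∧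
      |eval y P - eval x P - ∑ i, (y i - x i) * eval x (pderiv i P)| ≤
        C * (B * a ^ D) * v ^ 2)
    (hM : M = C * (R * C₀ ^ D)) (i₀ : Fin c) (PΘ : B → Fin c → Pl c) (PF : B → Pl c)
    (hΘ : ∀ x i, (PΘ x i).totalDegree ≤ D ∧ CB (PΘ x i) R ∧ ∀ z, ΘT x z i = eval z (PΘ x i))
    (hF : ∀ x, (PF x).totalDegree ≤ D ∧ CB (PF x) R ∧ ∀ z, FN x z = eval z (PF x))
    (x : B) (u u' : Fin c → ℝ) (y y' : ℝ) (hu : ∀ i, |u i| ≤ C₀) (hu' : ∀ i, |u' i| ≤ C₀)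
    (huv : ∀ i, |u' i - u i| ≤ v) (hu0 : |u' i₀ - u i₀| ≤ ε) (s : Fin (c + 1)) :
    |Ps ΘT FN x u' y' s - Ps ΘT FN x u y s -
      ∑ l, Jm i₀ PΘ PF x u l s * (upd i₀ u' y' l - upd i₀ u y l)| ≤ M * v ^ 2 + M * ε := by
  classical
  have key : ∀ P : Pl c, P.totalDegree ≤ D → CB P R →
      |eval u' P - eval u P - (∑ l, (if l = i₀ then 0 else eval u (pderiv l P)) *
        (upd i₀ u' y' l - upd i₀ u y l))| ≤ M * v ^ 2 + M * ε := by
    intro P hP hPR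
    obtain ⟨-, c2, -, -, c5⟩ := hC P R C₀ hP hPR hC₀ u u' hu hu' v hv0 huv
    rw [← hM] at c2 c5
    have e1 : ∑ l, (if l = i₀ then 0 else eval u (pderiv l P)) *
        (upd i₀ u' y' l - upd i₀ u y l) = ∑ l, (u' l - u l) * eval u (pderiv l P) -
          (u' i₀ - u i₀) * eval u (pderiv i₀ P) := by
      have e2 : ∀ l, (if l = i₀ then 0 else eval u (pderiv l P)) *
          (upd i₀ u' y' l - upd i₀ u y l) = (u' l - u l) * eval u (pderiv l P) -
            (if l = i₀ then (u' l - u l) * eval u (pderiv l P) else 0) := by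
        intro l
        by_cases hl : l = i₀
        · rw [if_pos hl, if_pos hl]
          ring
        · rw [if_neg hl, if_neg hl]
          unfold upd
          rw [Function.update_of_ne hl, Function.update_of_ne hl]
          ring
      rw [Finset.sum_congr rfl fun l _ => e2 l, Finset.sum_sub_distrib, Finset.sum_ite_eq']
      simp
    rw [e1]
    have e3 : eval u' P - eval u P - (∑ l, (u' l - u l) * eval u (pderiv l P) -
        (u' i₀ - u i₀) * eval u (pderiv i₀ P)) = (eval u' P - eval u P -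
          ∑ l, (u' l - u l) * eval u (pderiv l P)) + (u' i₀ - u i₀) * eval u (pderiv i₀ P) := by
      ring
    rw [e3]
    refine (abs_add_le _ _).trans (add_le_add c5 ?_)
    rw [abs_mul, mul_comm]
    exact mul_le_mul (c2 i₀) hu0 (abs_nonneg _) ((abs_nonneg _).trans (c2 i₀))
  unfold Ps
  induction s using Fin.lastCases with
  | last =>
    have k := key (PF x) (hF x).1 (hF x).2.1
    simp only [Jm, Fin.snoc_last]
    rw [(hF x).2.2, (hF x).2.2]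
    have e : ∑ l, (if l = i₀ then (1 : ℝ) else -eval u (pderiv l (PF x))) *
        (upd i₀ u' y' l - upd i₀ u y l) = (y' - y) - ∑ l, (if l = i₀ then 0 else
          eval u (pderiv l (PF x))) * (upd i₀ u' y' l - upd i₀ u y l) := by
      have e2 : ∀ l, (if l = i₀ then (1 : ℝ) else -eval u (pderiv l (PF x))) *
          (upd i₀ u' y' l - upd i₀ u y l) = (if l = i₀ then upd i₀ u' y' l - upd i₀ u y l else 0) -
            (if l = i₀ then 0 else eval u (pderiv l (PF x))) *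
              (upd i₀ u' y' l - upd i₀ u y l) := by
        intro l
        by_cases hl : l = i₀
        · rw [if_pos hl, if_pos hl, if_pos hl]
          ring
        · rw [if_neg hl, if_neg hl, if_neg hl]
          ring
      rw [Finset.sum_congr rfl fun l _ => e2 l, Finset.sum_sub_distrib, Finset.sum_ite_eq']
      simp [upd]
    rw [e]
    have e4 : y' - eval u' (PF x) - (y - eval u (PF x)) - (y' - y - ∑ l, (if l = i₀ then 0 else
          eval u (pderiv l (PF x))) * (upd i₀ u' y' l - upd i₀ u y l)) =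
        -(eval u' (PF x) - eval u (PF x) - ∑ l, (if l = i₀ then 0 else
          eval u (pderiv l (PF x))) * (upd i₀ u' y' l - upd i₀ u y l)) := by ring
    rw [e4, abs_neg]
    exact k
  | cast r =>
    have k := key (PΘ x r) (hΘ x r).1 (hΘ x r).2.1
    simp only [Jm, Fin.snoc_castSucc]
    rw [(hΘ x r).2.2, (hΘ x r).2.2]
    exact k

/-- **The line moves**: the estimates for the position. -/
theorem pos_hv {C : ℕ} {C₀ R MJ MW ε dt : ℝ} (hC₀ : 1 ≤ C₀) (hR : 1 ≤ R) (hMJ : 1 ≤ MJ)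
    (hMW : 1 ≤ MW) (hε : 0 ≤ ε) (hε1 : ε ≤ 1) (hdt : |dt| ≤ 1) (D : ℕ)
    (hC : ∀ (P : Pl c) (B a : ℝ), P.totalDegree ≤ D →
      CB P B → 1 ≤ a → ∀ x y : Fin c → ℝ, (∀ i, |x i| ≤ a) → (∀ i, |y i| ≤ a) → ∀ v : ℝ,
      0 ≤ v → (∀ i, |y i - x i| ≤ v) → |eval x P| ≤ C * (B * a ^ D) ∧
      (∀ i, |eval x (pderiv i P)| ≤ C * (B * a ^ D)) ∧
      |eval y P - eval x P| ≤ C * (B * a ^ D) * v ∧
      (∀ i, |eval y (pderiv i P) - eval x (pderiv i P)| ≤ C * (B * a ^ D) * v) ∧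
      |eval y P - eval x P - ∑ i, (y i - x i) * eval x (pderiv i P)| ≤
        C * (B * a ^ D) * v ^ 2)
    (hM : MJ = C * (R * C₀ ^ D)) (i₀ : Fin c) (PΘ : B → Fin c → Pl c) (PF : B → Pl c)
    (hΘ : ∀ x i, (PΘ x i).totalDegree ≤ D ∧ CB (PΘ x i) R ∧ ∀ z, ΘT x z i = eval z (PΘ x i))
    (hF : ∀ x, (PF x).totalDegree ≤ D ∧ CB (PF x) R ∧ ∀ z, FN x z = eval z (PF x))
    (htime : ∀ x z z', ΘT x z' i₀ - ΘT x z i₀ = z' i₀ - z i₀)
    (hinv : ∀ x z z', (∀ i, |z i| ≤ C₀) → (∀ i, |z' i| ≤ C₀) → ∀ δ : ℝ,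
      (∀ i, |ΘT x z i - ΘT x z' i| ≤ δ) → ∀ i, |z i - z' i| ≤ R * δ)
    (hlip : ∀ x z z', (∀ i, |z i| ≤ C₀) → (∀ i, |z' i| ≤ C₀) → ∀ δ : ℝ,
      (∀ i, |z i - z' i| ≤ δ) → |FN x z - FN x z'| ≤ R * δ)
    (x : B) (u u' : Fin c → ℝ) (y y' : ℝ) (hu : ∀ i, |u i| ≤ C₀) (hu' : ∀ i, |u' i| ≤ C₀)
    (v : Fin (c + 1) → ℝ) (hv : ∀ s, |v s| ≤ 2 * MW) (hv0 : v (Fin.castSucc i₀) = 0)
    (hA : ∀ s, |Ps ΘT FN x u' y' s - Ps ΘT FN x u y s - dt * v s| ≤ MW * dt ^ 2 + ε) :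
    (∀ l, |upd i₀ u' y' l - upd i₀ u y l| ≤ 3 * R ^ 2 * (3 * MW * |dt| + ε)) ∧
      ∀ s, |∑ l, Jm i₀ PΘ PF x u l s * (upd i₀ u' y' l - upd i₀ u y l) - dt * v s| ≤
        20 * MJ * R ^ 2 * MW ^ 2 * (dt ^ 2 + ε) := by
  obtain ⟨a, ha⟩ : ∃ a, a = 3 * MW * |dt| + ε := ⟨_, rfl⟩
  have hdt0 := abs_nonneg dt
  have hdt2 : dt ^ 2 ≤ |dt| := by
    rw [← sq_abs]
    nlinarith
  have ha0 : 0 ≤ a := by
    rw [ha]
    positivity
  have hA1 : ∀ s, |Ps ΘT FN x u' y' s - Ps ΘT FN x u y s| ≤ a := by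
    intro s
    have h1 := hA s
    have h2 : |dt * v s| ≤ |dt| * (2 * MW) := by
      rw [abs_mul]
      exact mul_le_mul_of_nonneg_left (hv s) hdt0
    have e : Ps ΘT FN x u' y' s - Ps ΘT FN x u y s =
        (Ps ΘT FN x u' y' s - Ps ΘT FN x u y s - dt * v s) + dt * v s := by ring
    rw [e]
    refine (abs_add_le _ _).trans ?_
    have h3 : MW * dt ^ 2 ≤ MW * |dt| := mul_le_mul_of_nonneg_left hdt2 (by linarith)
    rw [ha]
    nlinarith
  have hΘd : ∀ r, |ΘT x u' r - ΘT x u r| ≤ a := by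
    intro r
    have := hA1 (Fin.castSucc r)
    simpa only [Ps, Fin.snoc_castSucc] using this
  have hu1 : ∀ i, |u' i - u i| ≤ R * a := hinv x u' u hu' hu a hΘd
  have hF1 : |FN x u' - FN x u| ≤ R * (R * a) := hlip x u' u hu' hu (R * a) hu1
  have hy1 : |y' - y| ≤ a + R * (R * a) := by
    have h1 := hA1 (Fin.last c)
    simp only [Ps, Fin.snoc_last] at h1
    have e : y' - y = (y' - FN x u' - (y - FN x u)) + (FN x u' - FN x u) := by ring
    rw [e]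
    exact (abs_add_le _ _).trans (add_le_add h1 hF1)
  have hu0 : |u' i₀ - u i₀| ≤ MW * dt ^ 2 + ε := by
    have h1 := hA (Fin.castSucc i₀)
    rw [hv0, mul_zero, sub_zero] at h1
    simp only [Ps, Fin.snoc_castSucc] at h1
    rw [← htime x u u']
    exact h1
  have hR2 : R ≤ R ^ 2 := by nlinarith
  have hR1 : (1 : ℝ) ≤ R ^ 2 := hR.trans hR2
  constructor
  · intro l
    rw [← ha]
    unfold upd
    by_cases hl : l = i₀
    · rw [hl, Function.update_self, Function.update_self]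
      nlinarith
    · rw [Function.update_of_ne hl, Function.update_of_ne hl]
      have := hu1 l
      nlinarith
  · intro s
    have h1 := jac_le (ΘT := ΘT) (FN := FN) (C := C) (C₀ := C₀) (R := R) (M := MJ)
      (ε := MW * dt ^ 2 + ε) (v := R * a) hC₀ (by positivity) D hC hM i₀ PΘ PF hΘ hF x u u' y y'
      hu hu' hu1 hu0 s
    have h2 := hA s
    have e : ∑ l, Jm i₀ PΘ PF x u l s * (upd i₀ u' y' l - upd i₀ u y l) - dt * v s =
        (Ps ΘT FN x u' y' s - Ps ΘT FN x u y s - dt * v s) -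
        (Ps ΘT FN x u' y' s - Ps ΘT FN x u y s -
          ∑ l, Jm i₀ PΘ PF x u l s * (upd i₀ u' y' l - upd i₀ u y l)) := by ring
    rw [e]
    refine (abs_sub _ _).trans ?_
    have h3 : (R * a) ^ 2 ≤ R ^ 2 * (18 * MW ^ 2 * dt ^ 2 + 2 * ε) := by
      rw [mul_pow]
      refine mul_le_mul_of_nonneg_left ?_ (by positivity)
      rw [ha, ← sq_abs dt]
      nlinarith [sq_nonneg (3 * MW * |dt| - ε), sq_nonneg ε]
    have h4 : MJ * (R * a) ^ 2 ≤ MJ * (R ^ 2 * (18 * MW ^ 2 * dt ^ 2 + 2 * ε)) :=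
      mul_le_mul_of_nonneg_left h3 (by linarith)
    have hW2 : MW ≤ MW ^ 2 := by nlinarith
    have hW1 : (1 : ℝ) ≤ MW ^ 2 := hMW.trans hW2
    have hX : (1 : ℝ) ≤ MJ * R ^ 2 := by nlinarith
    obtain ⟨X, hXd⟩ : ∃ X, X = MJ * R ^ 2 := ⟨_, rfl⟩
    have hMX : MJ ≤ X := by
      rw [hXd]
      nlinarith
    rw [← hXd] at hX
    have e2 : 20 * MJ * R ^ 2 * MW ^ 2 * (dt ^ 2 + ε) = 20 * X * MW ^ 2 * (dt ^ 2 + ε) := by
      rw [hXd]
      ring
    have e3 : MJ * (R ^ 2 * (18 * MW ^ 2 * dt ^ 2 + 2 * ε)) =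
        X * (18 * MW ^ 2 * dt ^ 2 + 2 * ε) := by
      rw [hXd]
      ring
    rw [e2]
    rw [e3] at h4
    have d2 : 0 ≤ dt ^ 2 := sq_nonneg dt
    -- everything is linear in `dt ^ 2` and `ε`
    have k1 : MW * dt ^ 2 ≤ X * MW ^ 2 * dt ^ 2 := by
      refine mul_le_mul_of_nonneg_right ?_ d2
      nlinarith
    have k2 : MJ * (MW * dt ^ 2) ≤ X * MW ^ 2 * dt ^ 2 := by
      have : MJ * (MW * dt ^ 2) = (MJ * MW) * dt ^ 2 := by ring
      rw [this]
      refine mul_le_mul_of_nonneg_right ?_ d2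
      exact mul_le_mul hMX hW2 (by linarith) (by linarith)
    have k3 : ε ≤ X * MW ^ 2 * ε := by
      have : 1 ≤ X * MW ^ 2 := by nlinarith
      nlinarith
    have k4 : MJ * ε ≤ X * MW ^ 2 * ε := by
      refine mul_le_mul_of_nonneg_right ?_ hε
      nlinarith
    have k5 : X * (2 * ε) ≤ 2 * (X * MW ^ 2 * ε) := by
      have : X * ε ≤ X * MW ^ 2 * ε := by
        refine mul_le_mul_of_nonneg_right ?_ hε
        nlinarith
      linarith
    have k6 : MJ * (MW * dt ^ 2 + ε) = MJ * (MW * dt ^ 2) + MJ * ε := by ring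
    rw [k6] at h1
    have k7 : X * (18 * MW ^ 2 * dt ^ 2 + 2 * ε) = 18 * (X * MW ^ 2 * dt ^ 2) + X * (2 * ε) := by
      ring
    rw [k7] at h4
    have k8 : 20 * X * MW ^ 2 * (dt ^ 2 + ε) = 20 * (X * MW ^ 2 * dt ^ 2) +
      20 * (X * MW ^ 2 * ε) := by ring
    rw [k8]
    have k9 : 0 ≤ X * MW ^ 2 * ε := by positivity
    linarith

end Pool.LIV
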