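import Mathlib

/-!
# Frames of differences of consecutive columns
-/

set_option autoImplicit false

namespace Pool.LIV

open Finset Matrix

variable {c N : ℕ}

/-- The difference of two consecutive columns. -/
def vd (Q : Fin (c + 1) → Fin N → ℝ) (a : Fin N) (s : Fin (c + 1)) : ℝ :=
  if h : 1 ≤ (a : ℕ) then Q s ⟨a - 1, by omega⟩ - Q s a else 0

theorem vd_zero {Q : Fin (c + 1) → Fin N → ℝ} {a : Fin N} (h : ¬ 1 ≤ (a : ℕ)) : vd Q a = 0 := by
  funext s
  unfold vd
  rw [dif_neg h]
  rfl

theorem tele_aux (f : ℕ → ℝ) (x : ℕ) : ∀ n, x + 1 ≤ n →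
    ∑ a ∈ range n, (if x < a then (f (a - 1) - f a) else 0) = f x - f (n - 1) := by
  intro n hn
  induction n, hn using Nat.le_induction with
  | base =>
    rw [Finset.sum_eq_zero]
    · simp
    · intro a ha
      rw [if_neg (by
        have := Finset.mem_range.mp ha
        omega)]
  | succ n hn ih =>
    rw [Finset.sum_range_succ, ih, if_pos (by omega)]
    simp

/-- A difference of two columns is a sum of differences of consecutive columns. -/
theorem tele (Q : Fin (c + 1) → Fin N → ℝ) (x y : Fin N) (s : Fin (c + 1)) :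
    Q s x - Q s y = ∑ a : Fin N, ((if x < a then (1 : ℝ) else 0) - (if y < a then (1 : ℝ) else 0)) *
      vd Q a s := by
  set f : ℕ → ℝ := fun n => if h : n < N then Q s ⟨n, h⟩ else 0 with hf
  have key : ∀ x : Fin N, ∑ a : Fin N, (if x < a then (1 : ℝ) else 0) * vd Q a s =
      f x - f (N - 1) := by
    intro x
    rw [← tele_aux f x N (by omega), ← Fin.sum_univ_eq_sum_range
      (fun a => if (x : ℕ) < a then (f (a - 1) - f a) else 0) N]
    refine Finset.sum_congr rfl fun a _ => ?_
    by_cases h : x < a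
    · have h' : (x : ℕ) < a := h
      rw [if_pos h, if_pos h', one_mul]
      unfold vd
      rw [dif_pos (by omega)]
      simp only [hf]
      rw [dif_pos (by omega), dif_pos a.2]
    · have h' : ¬ (x : ℕ) < a := h
      rw [if_neg h, if_neg h', zero_mul]
  simp only [sub_mul, Finset.sum_sub_distrib, key]
  simp only [hf]
  rw [dif_pos x.2, dif_pos y.2]
  ring

/-- The determinant of rows which are sums. -/
theorem det_sum_rows (co : Fin c → Fin N → ℝ) (v : Fin N → Fin c → ℝ) :
    Matrix.det (Matrix.of fun k r => ∑ a, co k a * v a r) =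
      ∑ ι : Fin c → Fin N, (∏ k, co k (ι k)) * Matrix.det (Matrix.of fun k r => v (ι k) r) := by
  have h1 := (Matrix.detRowAlternating (R := ℝ) (n := Fin c)).toMultilinearMap.map_sum
    (fun (k : Fin c) (a : Fin N) => co k a • v a)
  have h2 : (fun k : Fin c => ∑ a, co k a • v a) = (Matrix.of fun k r => ∑ a, co k a * v a r) := by
    funext k r
    simp [Finset.sum_apply, Pi.smul_apply, smul_eq_mul]
  have e1 : Matrix.det (Matrix.of fun k r => ∑ a, co k a * v a r) =
      (Matrix.detRowAlternating (R := ℝ) (n := Fin c)).toMultilinearMap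
        (fun k : Fin c => ∑ a, co k a • v a) := by
    rw [h2]
    rfl
  rw [e1, h1]
  refine Finset.sum_congr rfl fun ι _ => ?_
  have h3 := (Matrix.detRowAlternating (R := ℝ) (n := Fin c)).toMultilinearMap.map_smul_univ
    (fun k => co k (ι k)) (fun k => v (ι k))
  rw [h3]
  rfl

/-- **A minor is bounded by the frames of differences.** -/
theorem frame (Q : Fin (c + 1) → Fin N → ℝ) (i₀ : Fin (c + 1)) (hrow : ∀ a, Q i₀ a = 1)
    (e : Fin (c + 1) → Fin N) : ∃ ι : Fin c → Fin N,
      |Matrix.det (Matrix.of fun s k => Q s (e k))| ≤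
        (N : ℝ) ^ c * |Matrix.det (Matrix.of fun r k : Fin c => vd Q (ι k) (i₀.succAbove r))| := by
  classical
  -- first step
  have s1 : Matrix.det (Matrix.of fun s k => Q s (e k)) =
      Matrix.det (Matrix.of fun (k s : Fin (c + 1)) =>
        Q s (e k) - (if k = 0 then 0 else Q s (e 0))) := by
    rw [← Matrix.det_transpose]
    refine Matrix.det_eq_of_forall_row_eq_smul_add_const (fun k => if k = 0 then 0 else 1) 0
      (by simp) ?_
    intro k s
    by_cases hk : k = 0
    · simp [hk]
    · simp [hk]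
  have s2 : |Matrix.det (Matrix.of fun (k s : Fin (c + 1)) =>
      Q s (e k) - (if k = 0 then 0 else Q s (e 0)))| =
      |Matrix.det (Matrix.of fun k r : Fin c => Q (i₀.succAbove r) (e k.succ) -
        Q (i₀.succAbove r) (e 0))| := by
    rw [Matrix.det_succ_column _ i₀, Finset.sum_eq_single 0]
    · rw [abs_mul, abs_mul, abs_pow, abs_neg, abs_one, one_pow, one_mul]
      have h1 : (Matrix.of fun (k s : Fin (c + 1)) =>
          Q s (e k) - (if k = 0 then 0 else Q s (e 0))) 0 i₀ = 1 := by
        simp [hrow]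
      rw [h1, abs_one, one_mul]
      congr 2
    · intro k _ hk
      have h1 : (Matrix.of fun (k s : Fin (c + 1)) =>
          Q s (e k) - (if k = 0 then 0 else Q s (e 0))) k i₀ = 0 := by
        simp [hrow, hk]
      rw [h1]
      ring
    · intro h
      exact absurd (Finset.mem_univ _) h
  -- the sum
  set co : Fin c → Fin N → ℝ := fun k a =>
    (if e k.succ < a then (1 : ℝ) else 0) - (if e 0 < a then (1 : ℝ) else 0) with hco
  have hco1 : ∀ k a, |co k a| ≤ 1 := by
    intro k a
    simp only [hco]
    split_ifs <;> norm_num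
  have s3 : (Matrix.of fun k r : Fin c => Q (i₀.succAbove r) (e k.succ) -
        Q (i₀.succAbove r) (e 0)) =
      Matrix.of fun k r => ∑ a, co k a * (fun a r => vd Q a (i₀.succAbove r)) a r := by
    ext k r
    simp only [Matrix.of_apply, hco]
    exact tele Q (e k.succ) (e 0) (i₀.succAbove r)
  have hne : Nonempty (Fin c → Fin N) := ⟨fun _ => e 0⟩
  obtain ⟨ι, hι⟩ := Finite.exists_max (fun ι : Fin c → Fin N =>
    |Matrix.det (Matrix.of fun k r : Fin c => vd Q (ι k) (i₀.succAbove r))|)
  refine ⟨ι, ?_⟩
  have e1 : Matrix.det (Matrix.of fun r k : Fin c => vd Q (ι k) (i₀.succAbove r)) =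
      Matrix.det (Matrix.of fun k r : Fin c => vd Q (ι k) (i₀.succAbove r)) := by
    rw [← Matrix.det_transpose]
    rfl
  rw [s1, s2, s3, det_sum_rows, e1]
  refine (Finset.abs_sum_le_sum_abs _ _).trans ?_
  refine (Finset.sum_le_card_nsmul _ _
    |Matrix.det (Matrix.of fun k r : Fin c => vd Q (ι k) (i₀.succAbove r))|
    fun ι' _ => ?_).trans (le_of_eq ?_)
  · rw [abs_mul]
    have h1 : |∏ k, co k (ι' k)| ≤ 1 := by
      rw [Finset.abs_prod]
      exact Finset.prod_le_one (fun _ _ => abs_nonneg _) fun k _ => hco1 _ _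
    calc |∏ k, co k (ι' k)| * _ ≤ 1 * _ := mul_le_mul_of_nonneg_right h1 (abs_nonneg _)
      _ ≤ _ := by
        rw [one_mul]
        exact hι ι'
  · rw [card_univ, Fintype.card_fun, Fintype.card_fin, Fintype.card_fin, nsmul_eq_mul]
    push_cast
    rfl

/-- The entries of the inverse matrix. -/
theorem inv_entry (A : Matrix (Fin c) (Fin c) ℝ) {M κ : ℝ} (hM : 1 ≤ M)
    (hA : ∀ i j, |A i j| ≤ M) (hκ : 0 < κ) (hd : κ ≤ |A.det|) (i j : Fin c) :
    |A⁻¹ i j| ≤ c.factorial * M ^ c / κ := by
  have hdet : A.det ≠ 0 := by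
    intro h
    rw [h, abs_zero] at hd
    linarith
  rw [Matrix.inv_def, Ring.inverse_eq_inv', Matrix.smul_apply, smul_eq_mul, abs_mul, abs_inv,
    Matrix.adjugate_apply]
  have h1 : |(A.updateRow j (Pi.single i 1)).det| ≤ c.factorial * M ^ c := by
    have h2 := Matrix.det_le (A := A.updateRow j (Pi.single i 1)) (abv := AbsoluteValue.abs)
      (x := M) (by
        intro r s
        by_cases hr : r = j
        · subst hr
          rw [Matrix.updateRow_self]
          by_cases hs : s = i
          · subst hs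
            simp [hM]
          · simp only [AbsoluteValue.abs_apply]
            rw [Pi.single_eq_of_ne hs, abs_zero]
            linarith
        · rw [Matrix.updateRow_ne hr]
          exact hA r s)
    rw [Fintype.card_fin, nsmul_eq_mul] at h2
    exact h2
  rw [div_eq_inv_mul]
  refine mul_le_mul ?_ h1 (abs_nonneg _) (by positivity)
  exact inv_anti₀ hκ hd

end Pool.LIV
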