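import Pool.Agent.H65.STAT.Flw3
import Pool.Agent.H63.STAT.Flw4

/-!
# Relations between the blocks of a line
-/

set_option autoImplicit false

namespace Pool.LIV

open Finset MvPolynomial
open Pool.BFL (Pl CB)
open Pool.STAT

variable {c : ℕ}

/-- The states `(a, f)` and `(a', f')` are on one line, at times whose difference is `s`. -/
def Rel (d : Fin c → ℕ) (j : ℕ) (ξ : Fin c → Pl c) (b : Pl c) (s : ℝ) (a a' : Fin c → ℝ)
    (f f' δ : ℝ) : Prop :=
  (∀ i, |a' i - eval a (flow d ξ (-s) i)| ≤ δ) ∧ |f' - f + eval a (hfl j ξ b (-s))| ≤ δ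

theorem flow_zero (d : Fin c → ℕ) (ξ : Fin c → Pl c) (i : Fin c) (u : Fin c → ℝ) :
    eval u (flow d ξ 0 i) = u i := by
  unfold flow
  rw [Finset.sum_range_succ', Finset.sum_eq_zero]
  · simp
  · intro r _
    simp

theorem hfl_zero (j : ℕ) (ξ : Fin c → Pl c) (b : Pl c) (u : Fin c → ℝ) :
    eval u (hfl j ξ b 0) = 0 := by
  unfold hfl
  rw [Finset.sum_eq_zero]
  · simp
  · intro r _
    simp

/-- **Reversal, composition, comparison of relations.** -/
theorem rel_all (c j : ℕ) (d : Fin c → ℕ) (hd : ∀ i, 1 ≤ d i) (hj : 1 ≤ j) :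
    ∃ K : ℕ, ∀ (R δ : ℝ), 1 ≤ R → 0 ≤ δ → δ ≤ 1 → ∀ (ξ : Fin c → Pl c) (b : Pl c), VF d ξ →
      b.IsWeightedHomogeneous d (j - 1) → (∀ i, CB (ξ i) R) → CB b R →
      (∀ (s : ℝ) (a a' : Fin c → ℝ) (f f' : ℝ), |s| ≤ 1 → (∀ i, |a i| ≤ R) → (∀ i, |a' i| ≤ R) →
        Rel d j ξ b s a a' f f' δ → Rel d j ξ b (-s) a' a f' f (K * R ^ K * δ)) ∧
      (∀ (s s' : ℝ) (a a' a'' : Fin c → ℝ) (f f' f'' : ℝ), |s| ≤ 1 → |s'| ≤ 1 →
        (∀ i, |a i| ≤ R) → (∀ i, |a' i| ≤ R) → Rel d j ξ b s a a' f f' δ →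
        Rel d j ξ b s' a' a'' f' f'' δ → Rel d j ξ b (s + s') a a'' f f'' (K * R ^ K * δ)) ∧
      (∀ (s : ℝ) (a a' u u' : Fin c → ℝ) (f f' g g' : ℝ), |s| ≤ 1 → (∀ i, |a i| ≤ R) →
        (∀ i, |u i| ≤ R) → Rel d j ξ b s a a' f f' δ → Rel d j ξ b s u u' g g' δ →
        (∀ i, |a i - u i| ≤ δ) → |f - g| ≤ δ →
        (∀ i, |a' i - u' i| ≤ K * R ^ K * δ) ∧ |f' - g'| ≤ K * R ^ K * δ) := by
  obtain ⟨K, hK⟩ := flw4_thm c j d hd hj
  refine ⟨2 ^ K * K + K + 3, ?_⟩
  intro R δ hR hδ hδ1 ξ b hξ hb hξR hbR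
  obtain ⟨L, hL⟩ : ∃ L : ℝ, L = K * (2 * R) ^ K := ⟨_, rfl⟩
  have hL0 : 0 ≤ L := by rw [hL]; positivity
  have hR2 : (1 : ℝ) ≤ 2 * R := by linarith
  have cb2 : ∀ i, CB (ξ i) (2 * R) := fun i k => (hξR i k).trans (by linarith)
  have cbb : CB b (2 * R) := fun k => (hbR k).trans (by linarith)
  -- the main constant
  have hbig : L + 3 ≤ ((2 ^ K * K + K + 3 : ℕ) : ℝ) * R ^ (2 ^ K * K + K + 3) := by
    rw [hL, mul_pow]
    have h1 : R ^ K ≤ R ^ (2 ^ K * K + K + 3) := pow_le_pow_right₀ hR (by omega)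
    have h2 : (1 : ℝ) ≤ R ^ (2 ^ K * K + K + 3) := one_le_pow₀ hR
    push_cast
    have h3 : (K : ℝ) * (2 ^ K * R ^ K) ≤ 2 ^ K * K * R ^ (2 ^ K * K + K + 3) := by
      calc (K : ℝ) * (2 ^ K * R ^ K) = 2 ^ K * K * R ^ K := by ring
        _ ≤ _ := mul_le_mul_of_nonneg_left h1 (by positivity)
    have h4 : (0 : ℝ) ≤ K * R ^ (2 ^ K * K + K + 3) := by positivity
    nlinarith
  have hlip : ∀ (s : ℝ) (u v : Fin c → ℝ) (ρ : ℝ), |s| ≤ 1 → 0 ≤ ρ → (∀ i, |u i| ≤ 2 * R) →
      (∀ i, |v i| ≤ 2 * R) → (∀ i, |u i - v i| ≤ ρ) →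
      (∀ i, |eval u (flow d ξ s i) - eval v (flow d ξ s i)| ≤ L * ρ) ∧
      |eval u (hfl j ξ b s) - eval v (hfl j ξ b s)| ≤ L * ρ := by
    intro s u v ρ hs hρ hu hv huv
    have := hK (2 * R) ρ s hR2 hρ hs ξ b u v hξ hb cb2 cbb hu hv huv
    rw [hL]
    exact ⟨this.2.1, this.2.2⟩
  have fin : ∀ x : ℝ, x ≤ (L + 3) * δ →
      x ≤ ((2 ^ K * K + K + 3 : ℕ) : ℝ) * R ^ (2 ^ K * K + K + 3) * δ := fun x hx =>
    hx.trans (mul_le_mul_of_nonneg_right hbig hδ)
  refine ⟨?_, ?_, ?_⟩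
  · intro s a a' f f' hs ha ha' h
    have hv : ∀ i, |eval a (flow d ξ (-s) i)| ≤ 2 * R := by
      intro i
      have h1 := h.1 i
      have h2 := ha' i
      have h3 : |eval a (flow d ξ (-s) i)| ≤ |a' i| + |a' i - eval a (flow d ξ (-s) i)| := by
        have := abs_sub (a' i) (a' i - eval a (flow d ξ (-s) i))
        rwa [sub_sub_cancel] at this
      linarith
    have l1 := hlip (-(-s)) a' (fun i => eval a (flow d ξ (-s) i)) δ (by rwa [neg_neg]) hδ
      (fun i => (ha' i).trans (by linarith)) hv h.1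
    have g1 := fun i => (flw3_thm c j d ξ b (-s) (-(-s)) a hd hj hξ hb).1 i
    have g2 := (flw3_thm c j d ξ b (-s) (-(-s)) a hd hj hξ hb).2
    rw [add_neg_cancel, hfl_zero] at g2
    refine ⟨fun i => fin _ ?_, fin _ ?_⟩
    · have k1 := l1.1 i
      have k2 := g1 i
      rw [add_neg_cancel, flow_zero] at k2
      rw [k2] at k1
      rw [abs_sub_comm] at k1
      have : L * δ ≤ (L + 3) * δ := mul_le_mul_of_nonneg_right (by linarith) hδ
      exact k1.trans this
    · have k1 := l1.2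
      have k2 := h.2
      have e : f - f' + eval a' (hfl j ξ b (-(-s))) =
          (eval a' (hfl j ξ b (-(-s))) -
            eval (fun i => eval a (flow d ξ (-s) i)) (hfl j ξ b (-(-s)))) -
          (f' - f + eval a (hfl j ξ b (-s))) := by
        linarith
      rw [e]
      refine (abs_sub _ _).trans ?_
      nlinarith
  · intro s s' a a' a'' f f' f'' hs hs' ha ha' h h'
    have hv : ∀ i, |eval a (flow d ξ (-s) i)| ≤ 2 * R := by
      intro i
      have h1 := h.1 i
      have h2 := ha' i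
      have h3 : |eval a (flow d ξ (-s) i)| ≤ |a' i| + |a' i - eval a (flow d ξ (-s) i)| := by
        have := abs_sub (a' i) (a' i - eval a (flow d ξ (-s) i))
        rwa [sub_sub_cancel] at this
      linarith
    have l1 := hlip (-s') a' (fun i => eval a (flow d ξ (-s) i)) δ (by rwa [abs_neg]) hδ
      (fun i => (ha' i).trans (by linarith)) hv h.1
    have g1 := fun i => (flw3_thm c j d ξ b (-s) (-s') a hd hj hξ hb).1 i
    have g2 := (flw3_thm c j d ξ b (-s) (-s') a hd hj hξ hb).2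
    have e0 : -s + -s' = -(s + s') := by ring
    refine ⟨fun i => fin _ ?_, fin _ ?_⟩
    · have k1 := l1.1 i
      have k2 := g1 i
      rw [e0] at k2
      have k3 := h'.1 i
      have e : a'' i - eval a (flow d ξ (-(s + s')) i) =
          (a'' i - eval a' (flow d ξ (-s') i)) + (eval a' (flow d ξ (-s') i) -
            eval (fun i => eval a (flow d ξ (-s) i)) (flow d ξ (-s') i)) := by
        rw [← k2]
        ring
      rw [e]
      refine (abs_add_le _ _).trans ?_
      nlinarith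
    · have k1 := l1.2
      have k2 := h.2
      have k3 := h'.2
      rw [e0] at g2
      have e : f'' - f + eval a (hfl j ξ b (-(s + s'))) =
          (f'' - f' + eval a' (hfl j ξ b (-s'))) + (f' - f + eval a (hfl j ξ b (-s))) -
          (eval a' (hfl j ξ b (-s')) -
            eval (fun i => eval a (flow d ξ (-s) i)) (hfl j ξ b (-s'))) := by
        rw [g2]
        ring
      rw [e]
      refine (abs_sub _ _).trans ?_
      refine (add_le_add_left (abs_add_le _ _) _).trans ?_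
      nlinarith
  · intro s a a' u u' f f' g g' hs ha hu h h' hau hfg
    have l1 := hlip (-s) a u δ (by rwa [abs_neg]) hδ (fun i => (ha i).trans (by linarith))
      (fun i => (hu i).trans (by linarith)) hau
    refine ⟨fun i => fin _ ?_, fin _ ?_⟩
    · have k1 := l1.1 i
      have k2 := h.1 i
      have k3 := h'.1 i
      have e : a' i - u' i = (a' i - eval a (flow d ξ (-s) i)) +
          (eval a (flow d ξ (-s) i) - eval u (flow d ξ (-s) i)) -
          (u' i - eval u (flow d ξ (-s) i)) := by ring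
      rw [e]
      refine (abs_sub _ _).trans ?_
      refine (add_le_add_left (abs_add_le _ _) _).trans ?_
      nlinarith
    · have k1 := l1.2
      have k2 := h.2
      have k3 := h'.2
      have e : f' - g' = (f' - f + eval a (hfl j ξ b (-s))) -
          (g' - g + eval u (hfl j ξ b (-s))) -
          (eval a (hfl j ξ b (-s)) - eval u (hfl j ξ b (-s))) + (f - g) := by ring
      rw [e]
      refine (abs_add_le _ _).trans ?_
      refine (add_le_add_left ((abs_sub _ _).trans (add_le_add_left (abs_sub _ _) _)) _).trans ?_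
      nlinarith

end Pool.LIV
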