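import Pool.Agent.H25.LIVE.Defs

/-!
# The walk: independence of the times and of the data of the legs
-/

set_option autoImplicit false

namespace Pool.LIV

open Finset Real
open Pool.Agent.H49.Ent Pool.Agent.H32.Dense Pool.STK Pool.KS3 Pool.OC.RS
open Pool.BFL (Pb P2 MC alt)

section general

variable {Ω C W 𝔅 𝓔 : Type} [Fintype Ω] [Fintype W] {p : Ω → ℝ} {c : ℕ → Ω → C} {M : ℕ}
  {q : W → ℝ} {z : ℕ → W → Ω}

/-- The labels of the context are constant along the chain. -/
theorem chain_const (h : MC p c M q z) (β : Ω → 𝔅) (hβ : ∀ i < M, Det p (c i) β) (w : W)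
    (hw : 0 < q w) : ∀ i ≤ M, β (z i w) = β (z 0 w) := by
  intro i
  induction i with
  | zero => exact fun _ => rfl
  | succ i ih =>
    intro hi
    rw [← ih (by omega)]
    exact hβ i (by omega) _ _ ((h.marg (i + 1) hi).pos h.isLaw.nonneg hw)
      ((h.marg i (by omega)).pos h.isLaw.nonneg hw) (h.same w hw i (by omega)).symm

/-- One step of the walk. -/
theorem step_mi (h : MC p c M q z) (β : Ω → 𝔅)
    (hβ : ∀ i < M, Det p (c i) β) (E : Ω → 𝓔) {i : ℕ} (hi : i < M) {θ : ℝ}
    (hθ : CH p E β - CH p E (c i) ≤ θ) :
    mi q (fun w (k : Fin (i + 1)) => z k w) (fun w => E (z (i + 1) w)) (fun w => β (z 0 w)) ≤ θ := by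
  have hq := h.isLaw.nonneg
  have h1 : CH q (fun w => E (z (i + 1) w)) (fun w => β (z 0 w)) = CH p E β := by
    rw [← (h.marg (i + 1) (by omega)).CH E β]
    exact CH_congr hq (fun _ _ _ _ e => (Prod.ext_iff.mp e).1)
      (fun _ _ _ _ e => (Prod.ext_iff.mp e).1)
      (fun w w' a b e => by
        show β (z (i + 1) w) = β (z (i + 1) w')
        rw [chain_const h β hβ w a _ (by omega), chain_const h β hβ w' b _ (by omega)]
        exact e)
      (fun w w' a b e => by
        show β (z 0 w) = β (z 0 w')
        rw [← chain_const h β hβ w a (i + 1) (by omega),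
          ← chain_const h β hβ w' b (i + 1) (by omega)]
        exact e)
  have h2 : CH q (fun w => E (z (i + 1) w)) (fun w => c i (z i w)) = CH p E (c i) := by
    rw [← (h.marg (i + 1) (by omega)).CH E (c i)]
    exact CH_congr hq (fun _ _ _ _ e => (Prod.ext_iff.mp e).1)
      (fun _ _ _ _ e => (Prod.ext_iff.mp e).1)
      (fun w w' a b e => by
        show c i (z (i + 1) w) = c i (z (i + 1) w')
        rw [← h.same w a i hi, ← h.same w' b i hi]
        exact e)
      (fun w w' a b e => by
        show c i (z i w) = c i (z i w')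
        rw [h.same w a i hi, h.same w' b i hi]
        exact e)
  have h3 := ((h.markov i hi).mono_left hq (A' := fun w => E (z (i + 1) w)) (by
    intro w w' _ _ e
    have e1 := congrFun (Prod.ext_iff.mp e).1 ⟨0, by omega⟩
    simp only [add_zero] at e1
    show E (z (i + 1) w) = E (z (i + 1) w')
    rw [e1]))
  unfold CI at h3
  have h4 : CH q (fun w => E (z (i + 1) w)) (fun w => ((fun k : Fin (i + 1) => z k w), c i (z i w)))
      ≤ CH q (fun w => E (z (i + 1) w)) (fun w => ((fun k : Fin (i + 1) => z k w), β (z 0 w))) :=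
    CH_mono_cond hq (fun w w' _ _ e => by
      have e1 := (Prod.ext_iff.mp e).1
      have e2 := congrFun e1 ⟨0, by omega⟩
      simp only at e2
      refine Prod.ext e1 ?_
      show β (z 0 w) = β (z 0 w')
      rw [e2])
  rw [mi_eq' hq, h1]
  have h5 : CH q (fun w => E (z (i + 1) w)) (fun w => ((fun k : Fin (i + 1) => z k w), c i (z i w)))
      = CH p E (c i) := by rw [h3, h2]
  linarith

/-- The past is almost independent of the data of the future. -/
theorem fwd_mi (h : MC p c M q z) (β : Ω → 𝔅)
    (hβ : ∀ i < M, Det p (c i) β) (E : ℕ → Ω → 𝓔) {θ : ℝ}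
    (hθ : ∀ i < M, CH p (E (i + 1)) β - CH p (E (i + 1)) (c i) ≤ θ) (n : ℕ) :
    ∀ r : ℕ, n + r ≤ M → mi q (fun w (k : Fin (n + 1)) => z k w)
      (fun w (k : Fin r) => E (n + 1 + k) (z (n + 1 + k) w)) (fun w => β (z 0 w)) ≤ r * θ := by
  have hq := h.isLaw.nonneg
  intro r
  induction r with
  | zero =>
    intro _
    rw [mi_eq' hq]
    have h1 : CH q (fun w (k : Fin 0) => E (n + 1 + k) (z (n + 1 + k) w)) (fun w => β (z 0 w)) =
        0 := CH_eq_zero hq (fun w w' _ _ _ => by
          funext k
          exact absurd k.2 (by omega))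
    have h2 := CH_nonneg hq (fun w (k : Fin 0) => E (n + 1 + k) (z (n + 1 + k) w))
      (fun w => ((fun k : Fin (n + 1) => z k w), β (z 0 w)))
    push_cast
    linarith
  | succ r ih =>
    intro hr
    have ih' := ih (by omega)
    have h1 := step_mi h β hβ (E (n + r + 1)) (i := n + r) (by omega) (hθ (n + r) (by omega))
    have h2 := mi_chain hq (fun w (k : Fin (n + 1)) => z k w)
      (fun w (k : Fin r) => E (n + 1 + k) (z (n + 1 + k) w))
      (fun w => E (n + r + 1) (z (n + r + 1) w)) (fun w => β (z 0 w))
    have h3 := mi_mono hq (fun w (k : Fin (n + 1)) => z k w)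
      (fun w => ((fun k : Fin r => E (n + 1 + k) (z (n + 1 + k) w)),
        E (n + r + 1) (z (n + r + 1) w)))
      (fun w (k : Fin (r + 1)) => E (n + 1 + k) (z (n + 1 + k) w)) (fun w => β (z 0 w))
      (by
        intro w w' _ _ e
        have e1 := (Prod.ext_iff.mp (Prod.ext_iff.mp e).1)
        funext k
        show E (n + 1 + k) (z (n + 1 + k) w) = E (n + 1 + k) (z (n + 1 + k) w')
        by_cases hk : (k : ℕ) < r
        · exact congrFun e1.1 ⟨k, hk⟩
        · have hk' : (k : ℕ) = r := by
            have := k.2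
            omega
          have e2 := e1.2
          simp only at e2
          rw [hk', show n + 1 + r = n + r + 1 by omega]
          exact e2)
    have h4 : mi q (fun w (k : Fin (n + 1)) => z k w) (fun w => E (n + r + 1) (z (n + r + 1) w))
        (fun w => ((fun k : Fin r => E (n + 1 + k) (z (n + 1 + k) w)), β (z 0 w))) ≤
        mi q (fun w (k : Fin (n + r + 1)) => z k w) (fun w => E (n + r + 1) (z (n + r + 1) w))
          (fun w => β (z 0 w)) := by
      rw [mi_eq' hq, mi_eq' hq]
      have k1 : CH q (fun w => E (n + r + 1) (z (n + r + 1) w))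
          (fun w => ((fun k : Fin r => E (n + 1 + k) (z (n + 1 + k) w)), β (z 0 w))) ≤
          CH q (fun w => E (n + r + 1) (z (n + r + 1) w)) (fun w => β (z 0 w)) :=
        CH_mono_cond hq (fun _ _ _ _ e => (Prod.ext_iff.mp e).2)
      have k2 : CH q (fun w => E (n + r + 1) (z (n + r + 1) w))
          (fun w => ((fun k : Fin (n + r + 1) => z k w), β (z 0 w))) ≤
          CH q (fun w => E (n + r + 1) (z (n + r + 1) w))
          (fun w => ((fun k : Fin (n + 1) => z k w),
            ((fun k : Fin r => E (n + 1 + k) (z (n + 1 + k) w)), β (z 0 w)))) :=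
        CH_mono_cond hq (fun w w' _ _ e => by
          have e1 := (Prod.ext_iff.mp e).1
          have e2 : ∀ k, k < n + r + 1 → z k w = z k w' := fun k hk => congrFun e1 ⟨k, hk⟩
          refine Prod.ext (funext fun k => e2 k (by omega)) (Prod.ext (funext fun k => ?_)
            (Prod.ext_iff.mp e).2)
          show E (n + 1 + k) (z (n + 1 + k) w) = E (n + 1 + k) (z (n + 1 + k) w')
          rw [e2 (n + 1 + k) (by omega)])
      linarith
    push_cast
    linarith

/-- The reversed chain. -/
theorem rev_chain (h : MC p c M q z) {c' : ℕ → Ω → C} (hc : ∀ i < M, c' i = c (M - 1 - i)) :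
    MC p c' M q (fun i => z (M - i)) where
  isLaw := h.isLaw
  marg := fun i hi => h.marg (M - i) (by omega)
  same := by
    intro w hw i hi
    rw [hc i hi]
    have := h.same w hw (M - 1 - i) (by omega)
    rw [show M - 1 - i + 1 = M - i by omega] at this
    rw [show M - (i + 1) = M - 1 - i by omega]
    exact this.symm
  markov := by
    intro i hi
    have hq := h.isLaw.nonneg
    have h1 := (h.markov (M - 1 - i) (by omega)).symm hq
    have h2 := h1.mono_left hq (A' := fun w (k : Fin (M - i)) => z (M - (i + 1 + k)) w) (by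
      intro w w' _ _ e
      have e1 := (Prod.ext_iff.mp e).1
      funext k
      have := congrFun e1 ⟨M - (i + 1 + k), by omega⟩
      exact this)
    have h3 := h2.mono_right hq (B' := fun w (k : Fin (i + 1)) => z (M - k) w) (by
      intro w w' _ _ e
      have e1 := (Prod.ext_iff.mp e).1
      funext k
      have := congrFun e1 ⟨M - k - (M - 1 - i + 1), by omega⟩
      simp only at this
      rw [show M - 1 - i + 1 + (M - k - (M - 1 - i + 1)) = M - k by omega] at this
      exact this)
    refine h3.congr hq ?_ ?_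
    · intro w w' a b e
      simp only at e ⊢
      rw [hc i hi]
      have u := h.same w a (M - 1 - i) (by omega)
      have v := h.same w' b (M - 1 - i) (by omega)
      rw [show M - 1 - i + 1 = M - i by omega] at u v
      rw [← u, ← v]
      exact e
    · intro w w' a b e
      simp only at e ⊢
      rw [hc i hi] at e
      have u := h.same w a (M - 1 - i) (by omega)
      have v := h.same w' b (M - 1 - i) (by omega)
      rw [show M - 1 - i + 1 = M - i by omega] at u v
      rw [u, v]
      exact e
  pair := by
    intro i hi A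
    rw [hc i hi]
    have h1 := h.pair (M - 1 - i) (by omega) (fun ω ω' => A ω' ω)
    rw [show M - 1 - i + 1 = M - i by omega] at h1
    rw [show M - (i + 1) = M - 1 - i by omega]
    rw [h1]
    unfold P2
    rw [Finset.sum_comm]
    refine Finset.sum_congr rfl fun ω _ => Finset.sum_congr rfl fun ω' _ => ?_
    by_cases hg : c (M - 1 - i) ω' = c (M - 1 - i) ω
    · by_cases hA : A ω ω'
      · rw [if_pos ⟨hg, hA⟩, if_pos ⟨hg.symm, hA⟩, hg, mul_comm]
      · rw [if_neg (fun k => hA k.2), if_neg (fun k => hA k.2)]
    · rw [if_neg (fun k => hg k.1), if_neg (fun k => hg k.1.symm)]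

end general

section abstract

variable {W A B C T K Y : Type} [Fintype W] {q : W → ℝ}

theorem mi_swap (hq : ∀ w, 0 ≤ q w) (X : W → A) (Y : W → B) (Z : W → C) :
    mi q X Y Z = mi q Y X Z := mi_comm hq X Y Z

/-- The informations of a vertex: `G` is the line block, `P` and `F` the data of the other legs. -/
theorem vertex_mi (hq : ∀ w, 0 ≤ q w) (G : W → A) (P : W → B) (F : W → C) (t : W → T)
    (β : W → K) (cx : W → Y) {a c : ℝ} (hG : mi q G t β ≤ a)
    (hF : mi q F t (fun w => (G w, β w)) ≤ 0)
    (hP : mi q P (fun w => (t w, F w, G w)) β ≤ c)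
    (hcx : Det q (fun w => ((G w, P w, F w), β w)) cx) (hβ : Det q cx β) :
    mi q G t cx ≤ a + c ∧ mi q t cx (fun w => (G w, β w)) ≤ c := by
  have e1 : mi q P t (fun w => (F w, G w, β w)) ≤ c := by
    refine le_trans ?_ hP
    have h1 := mi_chain hq P (fun w => (F w, G w)) t β
    have h2 := mi_mono hq P (fun w => (t w, F w, G w)) (fun w => ((F w, G w), t w)) β (by
      intro w w' _ _ e
      have e' := Prod.ext_iff.mp (Prod.ext_iff.mp e).1
      exact Prod.ext e'.2 e'.1)
    have h3 := mi_nonneg hq P (fun w => (F w, G w)) β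
    have h4 : mi q P t (fun w => (F w, G w, β w)) = mi q P t (fun w => ((F w, G w), β w)) := by
      rw [mi_eq' hq, mi_eq' hq]
      have k1 : CH q t (fun w => (F w, G w, β w)) = CH q t (fun w => ((F w, G w), β w)) :=
        CH_congr hq (fun _ _ _ _ e => (Prod.ext_iff.mp e).1)
          (fun _ _ _ _ e => (Prod.ext_iff.mp e).1)
          (fun _ _ _ _ e => by
            simp only [Prod.mk.injEq] at e ⊢
            tauto)
          (fun _ _ _ _ e => by
            simp only [Prod.mk.injEq] at e ⊢
            tauto)
      have k2 : CH q t (fun w => (P w, F w, G w, β w)) =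
          CH q t (fun w => (P w, (F w, G w), β w)) :=
        CH_congr hq (fun _ _ _ _ e => (Prod.ext_iff.mp e).1)
          (fun _ _ _ _ e => (Prod.ext_iff.mp e).1)
          (fun _ _ _ _ e => by
            simp only [Prod.mk.injEq] at e ⊢
            tauto)
          (fun _ _ _ _ e => by
            simp only [Prod.mk.injEq] at e ⊢
            tauto)
      rw [k1, k2]
    rw [h4]
    linarith
  -- the information of the time with the data of the other legs, given the line block
  have e2 : mi q t (fun w => (F w, P w)) (fun w => (G w, β w)) ≤ c := by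
    have h1 := mi_chain hq t F P (fun w => (G w, β w))
    have h2 := mi_comm hq F t (fun w => (G w, β w))
    have h3 := mi_comm hq P t (fun w => (F w, G w, β w))
    linarith
  have e3 : mi q t cx (fun w => (G w, β w)) ≤ c := by
    refine le_trans ?_ e2
    refine mi_mono hq t (fun w => (F w, P w)) cx (fun w => (G w, β w)) ?_
    intro w w' a b e
    refine hcx w w' a b ?_
    simp only [Prod.mk.injEq] at e ⊢
    tauto
  refine ⟨?_, e3⟩
  -- `mi (G, cx) t β ≥ mi G t (cx, β)`
  have h1 := mi_chain hq t G cx β
  have h2 := mi_chain hq t cx G β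
  have h3 : mi q t (fun w => (G w, cx w)) β = mi q t (fun w => (cx w, G w)) β :=
    le_antisymm (mi_mono hq t (fun w => (cx w, G w)) (fun w => (G w, cx w)) β (by
        intro w w' _ _ e
        simp only [Prod.mk.injEq] at e ⊢
        tauto)) (mi_mono hq t (fun w => (G w, cx w)) (fun w => (cx w, G w)) β (by
        intro w w' _ _ e
        simp only [Prod.mk.injEq] at e ⊢
        tauto))
  have h4 := mi_nonneg hq t cx β
  have h5 : mi q G t cx = mi q t G (fun w => (cx w, β w)) := by
    rw [mi_comm hq G t cx, mi_eq hq, mi_eq hq]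
    have k1 : CH q t cx = CH q t (fun w => (cx w, β w)) :=
      CH_congr hq (fun _ _ _ _ e => (Prod.ext_iff.mp e).1)
        (fun _ _ _ _ e => (Prod.ext_iff.mp e).1)
        (fun w w' a b e => Prod.ext e (hβ w w' a b e)) (fun _ _ _ _ e => (Prod.ext_iff.mp e).1)
    have k2 : CH q t (fun w => (G w, cx w)) = CH q t (fun w => (G w, cx w, β w)) :=
      CH_congr hq (fun _ _ _ _ e => (Prod.ext_iff.mp e).1)
        (fun _ _ _ _ e => (Prod.ext_iff.mp e).1)
        (fun w w' a b e => by
          have := hβ w w' a b (Prod.ext_iff.mp e).2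
          simp only [Prod.mk.injEq] at e ⊢
          tauto)
        (fun _ _ _ _ e => by
          simp only [Prod.mk.injEq] at e ⊢
          tauto)
    rw [k1, k2]
  have h6 := mi_comm hq G t β
  rw [h5]
  linarith

/-- One more label in the context. -/
theorem mi_add_ctx (hq : ∀ w, 0 ≤ q w) (G : W → A) (t : W → T) (cx : W → Y) (x : W → B) :
    mi q G t (fun w => (x w, cx w)) ≤ mi q G t cx + CH q x cx := by
  have h1 := mi_chain hq G x t cx
  have h2 := mi_chain hq G t x cx
  have h3 : mi q G (fun w => (x w, t w)) cx = mi q G (fun w => (t w, x w)) cx :=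
    le_antisymm (mi_mono hq G (fun w => (t w, x w)) (fun w => (x w, t w)) cx (by
        intro w w' _ _ e
        simp only [Prod.mk.injEq] at e ⊢
        tauto)) (mi_mono hq G (fun w => (x w, t w)) (fun w => (t w, x w)) cx (by
        intro w w' _ _ e
        simp only [Prod.mk.injEq] at e ⊢
        tauto))
  have h4 := mi_nonneg hq G x cx
  have h5 : mi q G x (fun w => (t w, cx w)) ≤ CH q x cx := by
    rw [mi_eq' hq]
    have k1 : CH q x (fun w => (t w, cx w)) ≤ CH q x cx :=
      CH_mono_cond hq (fun _ _ _ _ e => (Prod.ext_iff.mp e).2)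
    have k2 := CH_nonneg hq x (fun w => (G w, t w, cx w))
    linarith
  linarith

/-- One more label in the second variable. -/
theorem mi_add_lab (hq : ∀ w, 0 ≤ q w) (t : W → T) (cx : W → Y) (x : W → B) (L : W → A) :
    mi q t (fun w => (x w, cx w)) L ≤ mi q t cx L + CH q x L := by
  have h1 := mi_chain hq t x cx L
  have h2 := mi_chain hq t cx x L
  have h3 : mi q t (fun w => (x w, cx w)) L = mi q t (fun w => (cx w, x w)) L :=
    le_antisymm (mi_mono hq t (fun w => (cx w, x w)) (fun w => (x w, cx w)) L (by
        intro w w' _ _ e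
        simp only [Prod.mk.injEq] at e ⊢
        tauto)) (mi_mono hq t (fun w => (x w, cx w)) (fun w => (cx w, x w)) L (by
        intro w w' _ _ e
        simp only [Prod.mk.injEq] at e ⊢
        tauto))
  have h5 : mi q t x (fun w => (cx w, L w)) ≤ CH q x L := by
    rw [mi_eq' hq]
    have k1 : CH q x (fun w => (cx w, L w)) ≤ CH q x L :=
      CH_mono_cond hq (fun _ _ _ _ e => (Prod.ext_iff.mp e).2)
    have k2 := CH_nonneg hq x (fun w => (t w, cx w, L w))
    linarith
  linarith

end abstract

end Pool.LIV
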