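import Pool.Agent.H25.LIVE.Odr
import Pool.Agent.H25.LIVE.Dead

/-!
# The labels of the contexts
-/

set_option autoImplicit false

namespace Pool.LIV

open Finset MvPolynomial
open Pool.Agent.H49.Ent Pool.Agent.H32.Dense Pool.STK Pool.KS3 Pool.OC.RS
open Pool.BFL (Pl CB Pb P2 MC alt)
open Pool.STAT
open Pool.KAF (Pr)

variable {c : ℕ} {Ω G B 𝔅 𝒱 W : Type} [Fintype Ω] [Fintype W] {d : Fin c → ℕ} {j m N γ : ℕ}
  {C₀ R : ℝ} {p : Ω → ℝ} {g : Ω → G} {bk : Ω → B} {β : Ω → 𝔅} {V : Ω → 𝒱} {tm : Ω → ℤ}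
  {pT : Ω → Fin c → ℝ} {pN : Ω → ℝ}
  {ΘT : B → (Fin c → ℝ) → Fin c → ℝ} {FN : B → (Fin c → ℝ) → ℝ}
  {ξT : 𝒱 → 𝔅 → Fin c → Pl c} {ξN : 𝒱 → 𝔅 → Pl c} {q : W → ℝ} {z : ℕ → W → Ω}

omit [Fintype Ω] [Fintype W] in
/-- The entries of the derivative. -/
theorem Jw_le {CJ D : ℕ} {MJ : ℝ} (hR : 1 ≤ R) (hC₀ : 1 ≤ C₀) (hCJ : PBC c D CJ) (i₀ : Fin c)
    (PΘ : B → Fin c → Pl c) (PF : B → Pl c)
    (hΘ : ∀ x i, (PΘ x i).totalDegree ≤ D ∧ CB (PΘ x i) R ∧ ∀ z, ΘT x z i = eval z (PΘ x i))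
    (hF : ∀ x, (PF x).totalDegree ≤ D ∧ CB (PF x) R ∧ ∀ z, FN x z = eval z (PF x))
    (hMJ : MJ = CJ * (R * C₀ ^ D)) {w : W} (hpw : ∀ i, |pT (z (2 * N - 1) w) i| ≤ C₀)
    (r l : Fin c) : |Jw i₀ PΘ PF bk pT N z w r l| ≤ MJ := by
  have hMJ1 : 1 ≤ MJ := by
    rw [hMJ]
    have k1 : (1 : ℝ) ≤ CJ := by exact_mod_cast hCJ.1
    have k2 : (1 : ℝ) ≤ C₀ ^ D := one_le_pow₀ hC₀
    have k3 : (1 : ℝ) ≤ R * C₀ ^ D := by nlinarith
    nlinarith
  unfold Jw Jm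
  rw [Matrix.of_apply]
  have kk : ∀ P : Pl c, P.totalDegree ≤ D → CB P R → |eval (pT (z (2 * N - 1) w))
      (pderiv l P)| ≤ MJ := by
    intro P h1 h2
    rw [hMJ]
    exact (hCJ.2 P R C₀ h1 h2 hC₀ _ _ hpw hpw 0 le_rfl (fun _ => by rw [sub_self, abs_zero])).2.1 l
  induction ((Fin.castSucc i₀).succAbove r) using Fin.lastCases with
  | last =>
    rw [Fin.snoc_last]
    split_ifs
    · rw [abs_one]
      exact hMJ1
    · rw [abs_neg]
      exact kk _ (hF _).1 (hF _).2.1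
  | cast r' =>
    rw [Fin.snoc_castSucc]
    split_ifs
    · rw [abs_zero]
      linarith
    · exact kk _ (hΘ _ _).1 (hΘ _ _).2.1

/-- The entropy of a bounded integer matrix. -/
theorem CH_mat {Y : Type} {q : W → ℝ} (hq : IsLaw q) (M : W → Fin c → Fin c → ℤ) (Z : W → Y)
    {b : ℝ} (hM : ∀ w, 0 < q w → ∀ r l, |(M w r l : ℝ)| ≤ b) :
    CH q M Z ≤ ((c * c : ℕ) : ℝ) * Real.log (4 * b + 1) := by
  have h1 := CH_le_vec hq.nonneg hq.sum_one (fun w (k : Fin (c * c)) =>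
    M w (finProdFinEquiv.symm k).1 (finProdFinEquiv.symm k).2) Z (fun _ => 2 * b)
    (fun w w' a b' _ k => by
      rw [Int.cast_sub]
      refine (abs_sub _ _).trans ?_
      have := hM w a (finProdFinEquiv.symm k).1 (finProdFinEquiv.symm k).2
      have := hM w' b' (finProdFinEquiv.symm k).1 (finProdFinEquiv.symm k).2
      linarith)
  rw [Ex_const hq.sum_one] at h1
  have h2 : CH q M Z = CH q (fun w (k : Fin (c * c)) =>
      M w (finProdFinEquiv.symm k).1 (finProdFinEquiv.symm k).2) Z := by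
    refine CH_congr hq.nonneg ?_ ?_ (fun _ _ _ _ h => h) (fun _ _ _ _ h => h)
    · intro w w' _ _ e
      have e1 := (Prod.ext_iff.mp e).1
      funext k
      show M w _ _ = M w' _ _
      have : M w = M w' := e1
      rw [this]
    · intro w w' _ _ e
      have e1 := (Prod.ext_iff.mp e).1
      funext r l
      have e2 := congrFun e1 (finProdFinEquiv (r, l))
      simpa using e2
  rw [h2]
  refine h1.trans (le_of_eq ?_)
  rw [show (2 : ℝ) * (2 * b) + 1 = 4 * b + 1 by ring]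

omit [Fintype Ω] in
/-- The entropy of a rounded time. -/
theorem CH_tr {Y : Type} (hq : IsLaw q) (hγ : γ ≤ m) (i : ℕ) (Z : W → Y)
    (hZ : ∀ w w', 0 < q w → 0 < q w' → Z w = Z w' →
      |((tv tm N z i w - tv tm N z i w' : ℤ) : ℝ)| ≤ 2 * 2 ^ m) :
    CH q (tr tm m γ N z i) Z ≤ Real.log (9 * 2 ^ γ) := by
  have h1 := CH_le_int hq.nonneg hq.sum_one (tr tm m γ N z i) Z (fun _ => 3 * 2 ^ γ) (by
    intro w w' hw hw' hh
    have h2 := hZ w w' hw hw' hh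
    obtain ⟨a1, a2⟩ := tr_bd (m := m) (γ := γ) (N := N) (z := z) (tm := tm) i w
    obtain ⟨b1, b2⟩ := tr_bd (m := m) (γ := γ) (N := N) (z := z) (tm := tm) i w'
    have e := pow_split hγ
    have h2γ : (1 : ℝ) ≤ 2 ^ γ := one_le_pow₀ (by norm_num)
    have h2D : (0 : ℝ) < ((2 ^ (m - γ) : ℕ) : ℝ) := by positivity
    obtain ⟨E, hE⟩ : ∃ E : ℝ, E = ((2 ^ (m - γ) : ℕ) : ℝ) := ⟨_, rfl⟩
    rw [← hE] at a1 a2 b1 b2 e h2D
    rw [Int.cast_sub, abs_le] at h2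
    rw [Int.cast_sub, abs_le]
    rw [← e] at h2
    have k1 : E * ((tr tm m γ N z i w : ℝ) - tr tm m γ N z i w') ≤ E * (2 * 2 ^ γ + 1) := by
      nlinarith
    have k2 : E * (-(2 * 2 ^ γ + 1)) ≤ E * ((tr tm m γ N z i w : ℝ) - tr tm m γ N z i w') := by
      nlinarith
    have k3 := le_of_mul_le_mul_left k1 h2D
    have k4 := le_of_mul_le_mul_left k2 h2D
    constructor <;> linarith)
  rw [Ex_const hq.sum_one] at h1
  refine h1.trans (Real.log_le_log (by positivity) ?_)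
  have h2γ : (1 : ℝ) ≤ 2 ^ γ := one_le_pow₀ (by norm_num)
  linarith

/-- The entropy of the labels. -/
theorem CH_lab {Y : Type} {MJ : ℝ} (hq : IsLaw q) (hγ : γ ≤ m) (i : ℕ) (i₀ : Fin c)
    (PΘ : B → Fin c → Pl c) (PF : B → Pl c) (hMJ : 1 ≤ MJ)
    (hJ : ∀ w, 0 < q w → ∀ r l, |Jw i₀ PΘ PF bk pT N z w r l| ≤ MJ) (Z : W → Y)
    (hZ : ∀ w w', 0 < q w → 0 < q w' → Z w = Z w' →
      |((tv tm N z i w - tv tm N z i w' : ℤ) : ℝ)| ≤ 2 * 2 ^ m) :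
    CH q (fun w => (Mh i₀ PΘ PF bk pT N γ z w, tr tm m γ N z i w)) Z ≤
      (((c * c : ℕ) : ℝ) + 1) * Real.log (9 * MJ * 2 ^ γ) := by
  have hp := hq.nonneg
  have h2γ : (1 : ℝ) ≤ 2 ^ γ := one_le_pow₀ (by norm_num)
  have hM1 : (1 : ℝ) ≤ MJ * 2 ^ γ := by nlinarith
  have h1 := CH_mat hq (Mh i₀ PΘ PF bk pT N γ z)
    (fun w => (tr tm m γ N z i w, Z w)) (b := 2 * (MJ * 2 ^ γ)) (by
      intro w hw r l
      unfold Mh
      have h3 := Int.floor_le ((2 : ℝ) ^ γ * Jw i₀ PΘ PF bk pT N z w r l)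
      have h4 := Int.lt_floor_add_one ((2 : ℝ) ^ γ * Jw i₀ PΘ PF bk pT N z w r l)
      have h5 : |(2 : ℝ) ^ γ * Jw i₀ PΘ PF bk pT N z w r l| ≤ MJ * 2 ^ γ := by
        rw [abs_mul, abs_of_pos (by positivity : (0 : ℝ) < 2 ^ γ), mul_comm]
        exact mul_le_mul_of_nonneg_right (hJ w hw r l) (by positivity)
      rw [abs_le] at h5 ⊢
      constructor <;> linarith)
  have h2 := CH_tr (tm := tm) (z := z) (N := N) hq hγ i Z hZ
  rw [CH_chain hp]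
  have h3 : Real.log (4 * (2 * (MJ * 2 ^ γ)) + 1) ≤ Real.log (9 * MJ * 2 ^ γ) :=
    Real.log_le_log (by positivity) (by nlinarith)
  have h4 : Real.log (9 * 2 ^ γ) ≤ Real.log (9 * MJ * 2 ^ γ) :=
    Real.log_le_log (by positivity) (by nlinarith)
  have h5 : ((c * c : ℕ) : ℝ) * Real.log (4 * (2 * (MJ * 2 ^ γ)) + 1) ≤
      ((c * c : ℕ) : ℝ) * Real.log (9 * MJ * 2 ^ γ) :=
    mul_le_mul_of_nonneg_left h3 (Nat.cast_nonneg _)
  linarith

/-- The context of the vertex. -/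
noncomputable def cta (i₀ : Fin c) (PΘ : B → Fin c → Pl c) (PF : B → Pl c) (bk : Ω → B)
    (pT : Ω → Fin c → ℝ) (m γ : ℕ) (β : Ω → 𝔅) (V : Ω → 𝒱) (tm : Ω → ℤ) (N : ℕ)
    (z : ℕ → W → Ω) (i : ℕ) (w : W) :
    ((Fin c → Fin c → ℤ) × ℤ) × ((Fin N → 𝒱) × (Fin (N + 1) → ℤ) × 𝔅) :=
  ((Mh i₀ PΘ PF bk pT N γ z w, tr tm m γ N z i w), cxv β V tm N z i w)

/-- **The informations of the vertex**, with the labels. -/
theorem infos {MJ θ : ℝ} (hI : WI p g bk β V tm θ) (hθ : 0 ≤ θ)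
    (h : MC p (alt g bk) (2 * N - 1) q z) (htg : ∀ ω ω', g ω = g ω' → |tm ω' - tm ω| ≤ 2 ^ m)
    (hγ : γ ≤ m) {i : ℕ} (hi1 : 1 ≤ i) (hi : i < N) (i₀ : Fin c)
    (PΘ : B → Fin c → Pl c) (PF : B → Pl c) (hMJ : 1 ≤ MJ)
    (hJ : ∀ w, 0 < q w → ∀ r l, |Jw i₀ PΘ PF bk pT N z w r l| ≤ MJ) :
    mi q (fun w => g (z (2 * i) w)) (tv tm N z i) (cta i₀ PΘ PF bk pT m γ β V tm N z i) ≤
        2 * N * θ + (((c * c : ℕ) : ℝ) + 1) * Real.log (9 * MJ * 2 ^ γ) ∧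
      mi q (fun w => g (z (2 * i - 1) w)) (tv tm N z i) (cta i₀ PΘ PF bk pT m γ β V tm N z i) ≤
        2 * N * θ + (((c * c : ℕ) : ℝ) + 1) * Real.log (9 * MJ * 2 ^ γ) ∧
      mi q (tv tm N z i) (cta i₀ PΘ PF bk pT m γ β V tm N z i)
        (fun w => (g (z (2 * i) w), β (z 0 w))) ≤
        2 * N * θ + (((c * c : ℕ) : ℝ) + 1) * Real.log (9 * MJ * 2 ^ γ) := by
  have hq := h.isLaw
  obtain ⟨v1, v2, v3⟩ := vertex hI hθ h hi1 hi
  have hpos : ∀ k, k ≤ 2 * N - 1 → ∀ w, 0 < q w → 0 < p (z k w) := fun k hk w hw =>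
    (h.marg k hk).pos hq.nonneg hw
  have hcast : ∀ a b : ℤ, |a - b| ≤ 2 ^ m → |((a - b : ℤ) : ℝ)| ≤ 2 ^ m := by
    intro a b hab
    have h3 : ((|a - b| : ℤ) : ℝ) ≤ ((2 ^ m : ℤ) : ℝ) := by exact_mod_cast hab
    rw [Int.cast_abs] at h3
    push_cast at h3 ⊢
    exact h3
  have L1 := CH_lab (tm := tm) (z := z) (N := N) (bk := bk) (pT := pT) hq hγ i i₀ PΘ PF hMJ hJ
    (cxv β V tm N z i) (by
      intro w w' hw hw' e
      obtain ⟨-, ct, -⟩ := cxv_data e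
      have e1 := ct (i + 1) (by omega) (by omega)
      have s1 := hcast _ _ (htg _ _ (same_g h hw hi))
      have s2 := hcast _ _ (htg _ _ (same_g h hw' hi))
      rw [tv_odd h hI.bk_tm hw hi, tv_even (tm := tm) (z := z) (w := w) hi] at s1
      rw [tv_odd h hI.bk_tm hw' hi, tv_even (tm := tm) (z := z) (w := w') hi] at s2
      rw [e1] at s1
      have e2 : ((tv tm N z i w - tv tm N z i w' : ℤ) : ℝ) =
          ((tv tm N z (i + 1) w' - tv tm N z i w' : ℤ) : ℝ) -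
          ((tv tm N z (i + 1) w' - tv tm N z i w : ℤ) : ℝ) := by
        push_cast
        ring
      rw [e2]
      refine (abs_sub _ _).trans ?_
      linarith)
  have L2 := CH_lab (tm := tm) (z := z) (N := N) (bk := bk) (pT := pT) hq hγ i i₀ PΘ PF hMJ hJ
    (fun w => (g (z (2 * i) w), β (z 0 w))) (by
      intro w w' hw hw' e
      have e1 := (Prod.ext_iff.mp e).1
      have s1 := hcast _ _ (htg _ _ e1.symm)
      rw [tv_even (tm := tm) (z := z) (w := w) hi, tv_even (tm := tm) (z := z) (w := w') hi] at s1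
      have : (0 : ℝ) < 2 ^ m := by positivity
      linarith)
  refine ⟨?_, ?_, ?_⟩
  · refine (mi_add_ctx hq.nonneg _ _ _ _).trans ?_
    linarith
  · refine (mi_add_ctx hq.nonneg _ _ _ _).trans ?_
    linarith
  · refine (mi_add_lab hq.nonneg _ _ _ _).trans ?_
    linarith

end Pool.LIV
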