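import Mathlib

/-!
# The displacement in the frame
-/

set_option autoImplicit false

namespace Pool.LIV

open Finset Matrix

variable {c : ℕ}

/-- The displacement, in the rounded frame. -/
theorem lin_est (A : Matrix (Fin c) (Fin c) ℝ) (hdet : A.det ≠ 0) {Ai g a₁ e₁ e₂ dt : ℝ}
    (hAi : ∀ i j, |A⁻¹ i j| ≤ Ai) (hAi0 : 0 ≤ Ai) (hg : 0 ≤ g) (Mh J : Matrix (Fin c) (Fin c) ℝ)
    (hM : ∀ r l, |Mh r l - J r l| ≤ g) (δ v : Fin c → ℝ) (k : Fin c) (hδ : ∀ l, |δ l| ≤ a₁)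
    (hv : ∀ r, |∑ l, J r l * δ l - dt * v r| ≤ e₁) (hA : ∀ r, |v r - A r k| ≤ e₂) (j : Fin c) :
    |∑ l, (A⁻¹ * Mh) j l * δ l - dt * (Pi.single k 1 : Fin c → ℝ) j| ≤
      c * (Ai * (e₁ + c * (g * a₁) + |dt| * e₂)) := by
  have e1 : ∑ l, (A⁻¹ * Mh) j l * δ l = ∑ r, A⁻¹ j r * ∑ l, Mh r l * δ l := by
    simp only [Matrix.mul_apply, Finset.sum_mul, Finset.mul_sum]
    rw [Finset.sum_comm]
    exact Finset.sum_congr rfl fun r _ => Finset.sum_congr rfl fun l _ => by ring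
  have e2 : (Pi.single k 1 : Fin c → ℝ) j = ∑ r, A⁻¹ j r * A r k := by
    have h1 : (A⁻¹ * A) j k = (1 : Matrix (Fin c) (Fin c) ℝ) j k := by
      rw [Matrix.nonsing_inv_mul A (isUnit_iff_ne_zero.mpr hdet)]
    rw [Matrix.mul_apply] at h1
    rw [h1, Matrix.one_apply, Pi.single_apply]
  have e3 : ∑ l, (A⁻¹ * Mh) j l * δ l - dt * (Pi.single k 1 : Fin c → ℝ) j =
      ∑ r, A⁻¹ j r * (∑ l, Mh r l * δ l - dt * A r k) := by
    rw [e1, e2, Finset.mul_sum, ← Finset.sum_sub_distrib]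
    exact Finset.sum_congr rfl fun r _ => by ring
  rw [e3]
  refine (Finset.abs_sum_le_sum_abs _ _).trans ?_
  refine (Finset.sum_le_card_nsmul _ _ (Ai * (e₁ + c * (g * a₁) + |dt| * e₂)) fun r _ => ?_).trans
    (le_of_eq ?_)
  · rw [abs_mul]
    refine mul_le_mul (hAi j r) ?_ (abs_nonneg _) hAi0
    have e4 : ∑ l, Mh r l * δ l - dt * A r k = (∑ l, J r l * δ l - dt * v r) +
        ∑ l, (Mh r l - J r l) * δ l + dt * (v r - A r k) := by
      simp only [sub_mul, Finset.sum_sub_distrib]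
      ring
    rw [e4]
    refine (abs_add_le _ _).trans (add_le_add ((abs_add_le _ _).trans (add_le_add (hv r) ?_)) ?_)
    · refine (Finset.abs_sum_le_sum_abs _ _).trans ?_
      refine (Finset.sum_le_card_nsmul _ _ (g * a₁) fun l _ => ?_).trans (le_of_eq ?_)
      · rw [abs_mul]
        exact mul_le_mul (hM r l) (hδ l) (abs_nonneg _) hg
      · rw [card_univ, Fintype.card_fin, nsmul_eq_mul]
    · rw [abs_mul]
      exact mul_le_mul_of_nonneg_left (hA r) (abs_nonneg _)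
  · rw [card_univ, Fintype.card_fin, nsmul_eq_mul]

/-- The entries of the product. -/
theorem mul_entry (A Mh : Matrix (Fin c) (Fin c) ℝ) {Ai b : ℝ} (hAi : ∀ i j, |A i j| ≤ Ai)
    (hAi0 : 0 ≤ Ai) (hM : ∀ r l, |Mh r l| ≤ b) (i j : Fin c) :
    |(A * Mh) i j| ≤ c * (Ai * b) := by
  rw [Matrix.mul_apply]
  refine (Finset.abs_sum_le_sum_abs _ _).trans ?_
  refine (Finset.sum_le_card_nsmul _ _ (Ai * b) fun l _ => ?_).trans (le_of_eq ?_)
  · rw [abs_mul]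
    exact mul_le_mul (hAi _ _) (hM _ _) (abs_nonneg _) hAi0
  · rw [card_univ, Fintype.card_fin, nsmul_eq_mul]

/-- The difference of two floors. -/
theorem floor_diff (x x' t : ℝ) {e : ℝ} (h : |x' - x - t| ≤ e) :
    |((⌊x'⌋ : ℝ) - ⌊x⌋) - t| ≤ e + 1 := by
  have h1 := Int.floor_le x
  have h2 := Int.lt_floor_add_one x
  have h3 := Int.floor_le x'
  have h4 := Int.lt_floor_add_one x'
  rw [abs_le] at h ⊢
  constructor <;> linarith [h.1, h.2]

/-- The displacement of the rounded position. -/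
theorem round_est {U X : ℕ} (B : Fin c → ℝ) {b r : ℝ} (hB : ∀ l, |B l| ≤ b)
    (P P' : Fin c → ℝ) (y y' : Fin c → ℤ) (hy : ∀ l, |(y l : ℝ) - 2 ^ U * P l| ≤ r)
    (hy' : ∀ l, |(y' l : ℝ) - 2 ^ U * P' l| ≤ r) {t e : ℝ}
    (hP : |∑ l, B l * (P' l - P l) - t| ≤ e) (hs : 2 ^ X * (c * (b * (2 * r))) ≤ (2 : ℝ) ^ U) :
    |((⌊(2 : ℝ) ^ X * ∑ l, B l * ((y' l : ℝ) / 2 ^ U)⌋ : ℝ) -
      ⌊(2 : ℝ) ^ X * ∑ l, B l * ((y l : ℝ) / 2 ^ U)⌋) - 2 ^ X * t| ≤ 2 ^ X * e + 1 + 1 := by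
  refine floor_diff _ _ _ ?_
  have h2U : (0 : ℝ) < 2 ^ U := by positivity
  have h2X : (0 : ℝ) < 2 ^ X := by positivity
  have e1 : (2 : ℝ) ^ X * ∑ l, B l * ((y' l : ℝ) / 2 ^ U) -
      (2 : ℝ) ^ X * ∑ l, B l * ((y l : ℝ) / 2 ^ U) - 2 ^ X * t =
      2 ^ X * (∑ l, B l * (P' l - P l) - t) +
      2 ^ X * ∑ l, B l * (((y' l : ℝ) - 2 ^ U * P' l) / 2 ^ U - ((y l : ℝ) - 2 ^ U * P l) / 2 ^ U) := by
    have e2 : ∀ l, B l * (((y' l : ℝ) - 2 ^ U * P' l) / 2 ^ U -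
        ((y l : ℝ) - 2 ^ U * P l) / 2 ^ U) = B l * ((y' l : ℝ) / 2 ^ U) -
        B l * ((y l : ℝ) / 2 ^ U) - B l * (P' l - P l) := by
      intro l
      field_simp
      ring
    rw [Finset.sum_congr rfl fun l _ => e2 l, Finset.sum_sub_distrib, Finset.sum_sub_distrib]
    ring
  rw [e1]
  refine (abs_add_le _ _).trans (add_le_add ?_ ?_)
  · rw [abs_mul, abs_of_pos h2X]
    exact mul_le_mul_of_nonneg_left hP h2X.le
  · rw [abs_mul, abs_of_pos h2X]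
    have h3 : |∑ l, B l * (((y' l : ℝ) - 2 ^ U * P' l) / 2 ^ U -
        ((y l : ℝ) - 2 ^ U * P l) / 2 ^ U)| ≤ c * (b * (2 * r)) / 2 ^ U := by
      refine (Finset.abs_sum_le_sum_abs _ _).trans ?_
      refine (Finset.sum_le_card_nsmul _ _ (b * (2 * r) / 2 ^ U) fun l _ => ?_).trans
        (le_of_eq ?_)
      · rw [abs_mul, mul_div_assoc]
        refine mul_le_mul (hB l) ?_ (abs_nonneg _) ((abs_nonneg _).trans (hB l))
        rw [← sub_div, abs_div, abs_of_pos h2U]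
        refine div_le_div_of_nonneg_right ?_ h2U.le
        refine (abs_sub _ _).trans ?_
        have := hy l
        have := hy' l
        linarith
      · rw [card_univ, Fintype.card_fin, nsmul_eq_mul]
        ring
    calc (2 : ℝ) ^ X * _ ≤ 2 ^ X * (c * (b * (2 * r)) / 2 ^ U) :=
          mul_le_mul_of_nonneg_left h3 h2X.le
      _ = 2 ^ X * (c * (b * (2 * r))) / 2 ^ U := by ring
      _ ≤ 1 := by
        rw [div_le_one h2U]
        exact hs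

end Pool.LIV
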