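import Pool.Agent.H60.KSM1.Defs
import Pool.Agent.H60.KS2.Lev

/-!
# Rows on a partition into events of the context
-/

set_option autoImplicit false

namespace Pool.LIV

open Finset Real
open Pool.Agent.H49.Ent Pool.Agent.H32.Dense Pool.STK Pool.OC.RS Pool.KSM
open Pool.KAF (Pr)
open Pool.KS2 (CH_mean)

/-- The conditional entropies of the pieces. -/
theorem CH_part {Ω S T U ι : Type} [Fintype Ω] [Fintype ι] {p : Ω → ℝ} (hp : IsLaw p)
    (F : Ω → U) (X : Ω → S) (Y : Ω → T) (Xi : ι → Ω → S) (Yi : ι → Ω → T) (Gi : ι → Set Ω)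
    (hF : ∀ i ω ω', 0 < p ω → 0 < p ω' → F ω = F ω' → ω ∈ Gi i → ω' ∈ Gi i)
    (hdis : ∀ i j ω, ω ∈ Gi i → ω ∈ Gi j → i = j)
    (hX : ∀ i ω, ω ∈ Gi i → Xi i ω = X ω) (hY : ∀ i ω, ω ∈ Gi i → Yi i ω = Y ω)
    (hX0 : ∀ i ω ω', ω ∉ Gi i → ω' ∉ Gi i → Xi i ω = Xi i ω') :
    ∑ i, CH p (Xi i) (fun ω => (Yi i ω, F ω)) ≤ CH p X (fun ω => (Y ω, F ω)) := by
  classical
  have hp0 := hp.nonneg
  rw [CH_mean hp0, Finset.sum_congr rfl fun i _ => CH_mean hp0 (Xi i) (Yi i) F, Finset.sum_comm]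
  refine Finset.sum_le_sum fun ω _ => ?_
  rcases (hp0 ω).eq_or_lt with h0 | h0
  · rw [← h0]
    simp
  rw [← Finset.mul_sum]
  refine mul_le_mul_of_nonneg_left ?_ h0.le
  have hc := cond_nonneg hp0 F (F ω)
  have hsupp : ∀ v, 0 < Pool.Agent.H49.Ent.cond p F (F ω) v → 0 < p v ∧ F v = F ω := fun v hv =>
    (cond_pos_iff hp0 F (F ω) v).1 hv
  have hnn : 0 ≤ CH (Pool.Agent.H49.Ent.cond p F (F ω)) X Y := CH_nonneg hc _ _
  have h1 : ∀ i, CH (Pool.Agent.H49.Ent.cond p F (F ω)) (Xi i) (Yi i) =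
      if ω ∈ Gi i then CH (Pool.Agent.H49.Ent.cond p F (F ω)) X Y else 0 := by
    intro i
    by_cases k : ω ∈ Gi i
    · rw [if_pos k]
      have hin : ∀ v, 0 < Pool.Agent.H49.Ent.cond p F (F ω) v → v ∈ Gi i := fun v hv =>
        hF i ω v h0 (hsupp v hv).1 (hsupp v hv).2.symm k
      refine CH_congr hc ?_ ?_ ?_ ?_
      · intro v v' hv hv' e
        have := (Prod.ext_iff.mp e).1
        simp only at this
        rw [hX i v (hin v hv), hX i v' (hin v' hv')] at this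
        exact this
      · intro v v' hv hv' e
        have := (Prod.ext_iff.mp e).1
        simp only at this
        rw [hX i v (hin v hv), hX i v' (hin v' hv')]
        exact this
      · intro v v' hv hv' e
        rw [hY i v (hin v hv), hY i v' (hin v' hv')] at e
        exact e
      · intro v v' hv hv' e
        rw [hY i v (hin v hv), hY i v' (hin v' hv')]
        exact e
    · rw [if_neg k]
      have hout : ∀ v, 0 < Pool.Agent.H49.Ent.cond p F (F ω) v → v ∉ Gi i := fun v hv hvG =>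
        k (hF i v ω (hsupp v hv).1 h0 (hsupp v hv).2 hvG)
      exact CH_eq_zero hc fun v v' hv hv' _ => hX0 i v v' (hout v hv) (hout v' hv')
  rw [Finset.sum_congr rfl fun i _ => h1 i]
  by_cases k : ∃ i, ω ∈ Gi i
  · obtain ⟨i, hi⟩ := k
    rw [Finset.sum_eq_single i]
    · rw [if_pos hi]
    · intro j _ hj
      rw [if_neg (fun e => hj (hdis j i ω e hi))]
    · intro e
      exact absurd (Finset.mem_univ i) e
  · push Not at k
    rw [Finset.sum_eq_zero fun i _ => if_neg (k i)]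
    exact hnn

open Classical in
/-- **The rows of the pieces.** -/
theorem rowSum_part {Ω U ι : Type} [Fintype Ω] [Fintype ι] {n : ℕ} {p : Ω → ℝ} (hp : IsLaw p)
    (X : ℕ) (N : Ω → Fin n → ℤ) (k : Fin n) (K : ℕ) (F : Ω → U) (A : Set Ω) (Gi : ι → Set Ω)
    (hF : ∀ i ω ω', 0 < p ω → 0 < p ω' → F ω = F ω' → ω ∈ Gi i → ω' ∈ Gi i)
    (hdis : ∀ i j ω, ω ∈ Gi i → ω ∈ Gi j → i = j) (hA : ∀ i, Gi i ⊆ A) :
    ∑ i, rowSum p X (fun ω => if ω ∈ Gi i then N ω else 0) k K F ≤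
      rowSum p X (fun ω => if ω ∈ A then N ω else 0) k K F := by
  unfold rowSum
  rw [Finset.sum_comm]
  refine Finset.sum_le_sum fun u _ => ?_
  rw [Finset.sum_comm]
  refine Finset.sum_le_sum fun ℓ _ => ?_
  refine CH_part hp F _ (fun ω => (rw X (fun ω => if ω ∈ A then N ω else 0) u ℓ ω k,
    fun j : {j : Fin n // j ≠ k} => rw X (fun ω => if ω ∈ A then N ω else 0) u (ℓ + K) ω j))
    (fun i ω => rw X (fun ω => if ω ∈ Gi i then N ω else 0) u (ℓ + K) ω k)
    (fun i ω => (rw X (fun ω => if ω ∈ Gi i then N ω else 0) u ℓ ω k,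
      fun j : {j : Fin n // j ≠ k} => rw X (fun ω => if ω ∈ Gi i then N ω else 0) u (ℓ + K) ω j))
    Gi hF hdis ?_ ?_ ?_
  · intro i ω hω
    unfold rw Pool.KS2.rr
    simp only [if_pos hω, if_pos (hA i hω)]
  · intro i ω hω
    unfold rw Pool.KS2.rr
    simp only [if_pos hω, if_pos (hA i hω)]
  · intro i ω ω' hω hω'
    unfold rw Pool.KS2.rr
    simp only [if_neg hω, if_neg hω']

/-- The rows, with an equivalent context. -/
theorem rowSum_congr {Ω U U' : Type} [Fintype Ω] {n : ℕ} {p : Ω → ℝ} (hp : IsLaw p)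
    (X : ℕ) (N : Ω → Fin n → ℤ) (k : Fin n) (K : ℕ) (F : Ω → U) (F' : Ω → U')
    (h : Det p F F') (h' : Det p F' F) :
    rowSum p X N k K F = rowSum p X N k K F' := by
  unfold rowSum
  refine Finset.sum_congr rfl fun u _ => Finset.sum_congr rfl fun ℓ _ => ?_
  refine CH_congr hp.nonneg (fun _ _ _ _ e => (Prod.ext_iff.mp e).1)
    (fun _ _ _ _ e => (Prod.ext_iff.mp e).1) ?_ ?_
  · intro ω ω' a b e
    have e1 := Prod.ext_iff.mp e
    exact Prod.ext e1.1 (h ω ω' a b e1.2)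
  · intro ω ω' a b e
    have e1 := Prod.ext_iff.mp e
    exact Prod.ext e1.1 (h' ω ω' a b e1.2)

theorem rowSum_nonneg {Ω U : Type} [Fintype Ω] {n : ℕ} {p : Ω → ℝ} (hp : IsLaw p)
    (X : ℕ) (N : Ω → Fin n → ℤ) (k : Fin n) (K : ℕ) (F : Ω → U) : 0 ≤ rowSum p X N k K F := by
  unfold rowSum
  exact Finset.sum_nonneg fun u _ => Finset.sum_nonneg fun ℓ _ => CH_nonneg hp.nonneg _ _

end Pool.LIV
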