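import Pool.Agent.H25.LIVE.Rnd

/-!
# The relations of the rounded positions
-/

set_option autoImplicit false

namespace Pool.LIV

open Finset MvPolynomial
open Pool.Agent.H49.Ent Pool.Agent.H32.Dense Pool.STK Pool.KS3
open Pool.BFL (Pl CB Pb P2 MC alt)
open Pool.STAT
open Pool.KAF (Pr)

variable {c : ℕ} {Ω G B 𝔅 𝒱 W : Type} [Fintype Ω] [Fintype W] {d : Fin c → ℕ} {j m N γ : ℕ}
  {C₀ R : ℝ} {p : Ω → ℝ} {g : Ω → G} {bk : Ω → B} {β : Ω → 𝔅} {V : Ω → 𝒱} {tm : Ω → ℤ}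
  {pT : Ω → Fin c → ℝ} {pN : Ω → ℝ}
  {ΘT : B → (Fin c → ℝ) → Fin c → ℝ} {FN : B → (Fin c → ℝ) → ℝ}
  {ξT : 𝒱 → 𝔅 → Fin c → Pl c} {ξN : 𝒱 → 𝔅 → Pl c} {q : W → ℝ} {z : ℕ → W → Ω}

/-- The frame of the differences. -/
def Ah (i₀ : Fin c) (Q : Fin (c + 1) → Fin N → ℝ) (ι : Fin c → Fin N) :
    Matrix (Fin c) (Fin c) ℝ :=
  Matrix.of fun r k => vd Q (ι k) ((Fin.castSucc i₀).succAbove r)

/-- The derivative of the coordinates, at the end point of the walk. -/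
noncomputable def Jw (i₀ : Fin c) (PΘ : B → Fin c → Pl c) (PF : B → Pl c) (bk : Ω → B)
    (pT : Ω → Fin c → ℝ) (N : ℕ) (z : ℕ → W → Ω) (w : W) : Matrix (Fin c) (Fin c) ℝ :=
  Matrix.of fun r l => Jm i₀ PΘ PF (bv bk N z 0 w) (pT (z (2 * N - 1) w)) l
    ((Fin.castSucc i₀).succAbove r)

/-- The rounded derivative. -/
noncomputable def Mh (i₀ : Fin c) (PΘ : B → Fin c → Pl c) (PF : B → Pl c) (bk : Ω → B)
    (pT : Ω → Fin c → ℝ) (N γ : ℕ) (z : ℕ → W → Ω) (w : W) (r l : Fin c) : ℤ :=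
  ⌊(2 : ℝ) ^ γ * Jw i₀ PΘ PF bk pT N z w r l⌋

/-- The rounded derivative, as a matrix. -/
noncomputable def Mr (γ : ℕ) (M : Fin c → Fin c → ℤ) : Matrix (Fin c) (Fin c) ℝ :=
  Matrix.of fun r l => (M r l : ℝ) / 2 ^ γ

theorem Mr_near (γ : ℕ) (J : Matrix (Fin c) (Fin c) ℝ) (r l : Fin c) :
    |Mr γ (fun r l => ⌊(2 : ℝ) ^ γ * J r l⌋) r l - J r l| ≤ 1 / 2 ^ γ := by
  have h2 : (0 : ℝ) < 2 ^ γ := by positivity
  have h3 := Int.floor_le ((2 : ℝ) ^ γ * J r l)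
  have h4 := Int.lt_floor_add_one ((2 : ℝ) ^ γ * J r l)
  unfold Mr
  rw [Matrix.of_apply]
  have e : ((⌊(2 : ℝ) ^ γ * J r l⌋ : ℝ)) / 2 ^ γ - J r l =
      ((⌊(2 : ℝ) ^ γ * J r l⌋ : ℝ) - 2 ^ γ * J r l) / 2 ^ γ := by
    field_simp
  rw [e, abs_div, abs_of_pos h2]
  refine div_le_div_of_nonneg_right ?_ h2.le
  rw [abs_le]
  constructor <;> linarith

/-- The rounded position, in the frame. -/
noncomputable def Nv (U X : ℕ) (A M : Matrix (Fin c) (Fin c) ℝ) (y : Fin c → ℤ) (k : Fin c) : ℤ :=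
  ⌊(2 : ℝ) ^ X * ∑ l, (A⁻¹ * M) k l * ((y l : ℝ) / 2 ^ U)⌋

/-- **The relations.** -/
theorem od_rel {K KT CJ CW DW D U X s : ℕ} {MJ MW B₂ ε εE Ai δ : ℝ} (hK : RelC d j K)
    (hp : ∀ ω, 0 ≤ p ω)
    (hG : GC d j m C₀ R p g bk β V tm ΘT FN ξT ξN) (hδ : 0 ≤ δ)
    (hT : ∀ (R δ : ℝ), 1 ≤ R →
    0 ≤ δ → δ ≤ 1 → ∀ (ξ : Fin N → Fin c → Pl c) (b : Fin N → Pl c) (s : Fin N → ℝ)
    (u : ℕ → Fin c → ℝ) (f : ℕ → ℝ) (y : ℝ), (∀ a, VF d (ξ a)) →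
    (∀ a, (b a).IsWeightedHomogeneous d (j - 1)) → (∀ a i, CB (ξ a i) R) → (∀ a, CB (b a) R) →
    (∀ a, |s a| ≤ 1) → (∀ a ≤ N, ∀ i, |u a i| ≤ R) →
    (∀ (a : Fin N) (i : Fin c), |u (a + 1) i - eval (u a) (flow d (ξ a) (-s a) i)| ≤ δ) →
    (∀ a : Fin N, |f (a + 1) - f a + eval (u a) (hfl j (ξ a) (b a) (-s a))| ≤ δ) →
    (∀ i, |u N i| ≤ δ) → |y - f N| ≤ δ →
    (∀ i, |u 0 i - eval s (wT d N ξ i)| ≤ KT * R ^ KT * δ) ∧
    |y - f 0 - eval s (wH d j N ξ b)| ≤ KT * R ^ KT * δ)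
    (hsm : (K * R ^ K) ^ N * (K * R ^ K * (K * R ^ K * (K * R ^ K * δ))) ≤ 1)
    (h : MC p (alt g bk) (2 * N - 1) q z) (i₀ : Fin c)
    (hpT : ∀ ω, 0 < p ω → ∀ i, |pT ω i| ≤ C₀) (hC₀ : 1 ≤ C₀)
    (hinv : ∀ x z z', (∀ i, |z i| ≤ C₀) → (∀ i, |z' i| ≤ C₀) → ∀ δ : ℝ,
      (∀ i, |ΘT x z i - ΘT x z' i| ≤ δ) → ∀ i, |z i - z' i| ≤ R * δ)
    (hlip : ∀ x z z', (∀ i, |z i| ≤ C₀) → (∀ i, |z' i| ≤ C₀) → ∀ δ : ℝ,
      (∀ i, |z i - z' i| ≤ δ) → |FN x z - FN x z'| ≤ R * δ)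
    (htime : ∀ x z z', ΘT x z' i₀ - ΘT x z i₀ = z' i₀ - z i₀)
    (hd1 : d i₀ = 1) (hξt : ∀ v x, ξT v x i₀ = 1)
    (hCJ : PBC c D CJ) (hCW : PBC N DW CW) (PΘ : B → Fin c → Pl c) (PF : B → Pl c)
    (hΘ : ∀ x i, (PΘ x i).totalDegree ≤ D ∧ CB (PΘ x i) R ∧ ∀ z, ΘT x z i = eval z (PΘ x i))
    (hF : ∀ x, (PF x).totalDegree ≤ D ∧ CB (PF x) R ∧ ∀ z, FN x z = eval z (PF x))
    (hMJ : MJ = CJ * (R * C₀ ^ D)) (hMW : MW = CW * (B₂ * 2 ^ DW)) (hMW1 : 1 ≤ MW)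
    (hB₂ : 0 ≤ B₂) (hγ : γ ≤ m)
    (hεd : ε = 2 * (KT * R ^ KT * (K * R ^ K * (K * R ^ K * δ))) +
      (K * R ^ K) ^ N * (K * R ^ K * (K * R ^ K * (K * R ^ K * δ)))) (hε1 : ε ≤ 1)
    (hεE : εE = (K * R ^ K) ^ N * (K * R ^ K * (K * R ^ K * δ)))
    (hAi : 0 ≤ Ai)
    (C3 : 2 ^ X * (c * ((c * (Ai * (MJ + 1))) * (2 * R))) ≤ (2 : ℝ) ^ U)
    (C4 : 2 ^ X * (c * ((c * (Ai * (MJ + 1))) * (6 * R ^ 2 * εE))) ≤ 1)
    (C5 : c * (Ai * (20 * MJ * R ^ 2 * MW ^ 2 + 9 * c * R ^ 2 * MW + 2 * MW)) * 2 ^ s ≤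
      (2 : ℝ) ^ γ)
    (C6 : 2 ^ X * (c * (Ai * ((20 * MJ * R ^ 2 * MW ^ 2 + 3 * c * R ^ 2) * ε))) ≤ 1)
    {w w' : W} (hWP : ∀ s, (WP d j N β V ξT ξN z w s).totalDegree ≤ DW ∧
      CB (WP d j N β V ξT ξN z w s) B₂)
    (hw : GG d j m N C₀ p g bk β V tm pT pN ΘT FN ξT ξN q z δ w)
    (hw' : GG d j m N C₀ p g bk β V tm pT pN ΘT FN ξT ξN q z δ w')
    (y : W → Fin c → ℤ) (hy : ∀ l, |(y w l : ℝ) - 2 ^ U * pos i₀ pT pN (z (2 * N - 1) w) l| ≤ R)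
    (hy' : ∀ l, |(y w' l : ℝ) - 2 ^ U * pos i₀ pT pN (z (2 * N - 1) w') l| ≤ R)
    (i : Fin N) (k : Fin c) (ι : Fin c → Fin N) (hι : ι k = i)
    (A : Matrix (Fin c) (Fin c) ℝ)
    (hA : A = Ah i₀ (QW d j N β V ξT ξN z (lh tm m γ N z w) w) ι) (hdet : A.det ≠ 0)
    (hAi2 : ∀ r l, |A⁻¹ r l| ≤ Ai)
    (M : Fin c → Fin c → ℤ) (hM : M = Mh i₀ PΘ PF bk pT N γ z w)
    (hc : cxv β V tm N z i w = cxv β V tm N z i w')
    (htr : tr tm m γ N z i w = tr tm m γ N z i w') :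
    (g (z (2 * i) w) = g (z (2 * i) w') → ∀ r,
      |((Nv U X A (Mr γ M) (y w') r : ℝ) - Nv U X A (Mr γ M) (y w) r)| ≤ 4) ∧
    (1 ≤ (i : ℕ) → g (z (2 * i - 1) w) = g (z (2 * i - 1) w') → ∀ r,
      |((Nv U X A (Mr γ M) (y w') r : ℝ) - Nv U X A (Mr γ M) (y w) r) -
        2 ^ X * (dti tm m N z i w w' * (Pi.single k 1 : Fin c → ℝ) r)| ≤
        4 + 2 ^ X * |dti tm m N z i w w'| / 2 ^ s) := by
  have hq := h.isLaw.nonneg
  have hR := hG.one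
  have hL := one_le_L hK hR
  have hR0 : 0 < R := by linarith
  have h2X : (0 : ℝ) < 2 ^ X := by positivity
  have h2γ : (0 : ℝ) < 2 ^ γ := by positivity
  have h2s : (0 : ℝ) < 2 ^ s := by positivity
  have hMJ1 : 1 ≤ MJ := by
    rw [hMJ]
    have k1 : (1 : ℝ) ≤ CJ := by exact_mod_cast hCJ.1
    have k2 : (1 : ℝ) ≤ C₀ ^ D := one_le_pow₀ hC₀
    have k3 : (1 : ℝ) ≤ R * C₀ ^ D := by nlinarith
    nlinarith
  have hpw := hpT _ ((h.marg (2 * N - 1) le_rfl).pos hq hw.1)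
  -- the rounded matrix
  have hJ1 : ∀ r l, |Jw i₀ PΘ PF bk pT N z w r l| ≤ MJ := by
    intro r l
    unfold Jw Jm
    rw [Matrix.of_apply]
    have kk : ∀ P : Pl c, P.totalDegree ≤ D → CB P R → |eval (pT (z (2 * N - 1) w))
        (pderiv l P)| ≤ MJ := by
      intro P h1 h2
      rw [hMJ]
      exact (hCJ.2 P R C₀ h1 h2 hC₀ _ _ hpw hpw 0 le_rfl (fun _ => by rw [sub_self, abs_zero])).2.1 l
    induction ((Fin.castSucc i₀).succAbove r) using Fin.lastCases with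
    | last =>
      rw [Fin.snoc_last]
      split_ifs
      · rw [abs_one]
        exact hMJ1
      · rw [abs_neg]
        exact kk _ (hF _).1 (hF _).2.1
    | cast r' =>
      rw [Fin.snoc_castSucc]
      split_ifs
      · rw [abs_zero]
        linarith
      · exact kk _ (hΘ _ _).1 (hΘ _ _).2.1
  have hMn : ∀ r l, |Mr γ M r l - Jw i₀ PΘ PF bk pT N z w r l| ≤ 1 / 2 ^ γ := by
    intro r l
    rw [hM]
    exact Mr_near γ (Jw i₀ PΘ PF bk pT N z w) r l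
  have h1γ : (1 : ℝ) / 2 ^ γ ≤ 1 := by
    rw [div_le_one h2γ]
    exact one_le_pow₀ (by norm_num)
  have hMb : ∀ r l, |Mr γ M r l| ≤ MJ + 1 := by
    intro r l
    have h3 := abs_sub_abs_le_abs_sub (Mr γ M r l) (Jw i₀ PΘ PF bk pT N z w r l)
    have := hMn r l
    have := hJ1 r l
    linarith
  have hBb : ∀ r l, |(A⁻¹ * Mr γ M) r l| ≤ c * (Ai * (MJ + 1)) :=
    mul_entry A⁻¹ (Mr γ M) hAi2 hAi hMb
  obtain ⟨Bb, hBbd⟩ : ∃ Bb, Bb = c * (Ai * (MJ + 1)) := ⟨_, rfl⟩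
  rw [← hBbd] at hBb C3 C4
  have hBb0 : 0 ≤ Bb := by
    rw [hBbd]
    positivity
  refine ⟨?_, ?_⟩
  · intro hg r
    have hsmE : (K * R ^ K) ^ N * (K * R ^ K * (K * R ^ K * δ)) ≤ 1 := by
      refine le_trans (mul_le_mul_of_nonneg_left ?_ (by positivity)) hsm
      refine mul_le_mul_of_nonneg_left ?_ (by linarith)
      exact le_mul_of_one_le_left (by positivity) hL
    have h1 := pair_h0 hK hp hG hδ hsmE h i₀ hpT hinv hlip hw hw' i.2 hg hc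
    rw [← hεE] at h1
    have h2 : |∑ l, (A⁻¹ * Mr γ M) r l * (pos i₀ pT pN (z (2 * N - 1) w') l -
        pos i₀ pT pN (z (2 * N - 1) w) l) - 0| ≤ c * (Bb * (6 * R ^ 2 * εE)) := by
      rw [sub_zero]
      refine (Finset.abs_sum_le_sum_abs _ _).trans ?_
      refine (Finset.sum_le_card_nsmul _ _ (Bb * (6 * R ^ 2 * εE)) fun l _ => ?_).trans
        (le_of_eq ?_)
      · rw [abs_mul]
        exact mul_le_mul (hBb r l) (h1 l) (abs_nonneg _) hBb0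
      · rw [card_univ, Fintype.card_fin, nsmul_eq_mul]
    have h3 := round_est (U := U) (X := X) (fun l => (A⁻¹ * Mr γ M) r l) (hBb r) _ _ (y w) (y w')
      hy hy' h2 (by rw [← mul_assoc (c : ℝ)] at C3; rw [← mul_assoc (c : ℝ)]; exact C3)
    rw [mul_zero, sub_zero] at h3
    unfold Nv
    refine h3.trans ?_
    linarith
  · intro hi hg r
    have hdt := dti_le (tm := tm) (z := z) hγ htr
    obtain ⟨dt, hdtd⟩ : ∃ dt, dt = dti tm m N z i w w' := ⟨_, rfl⟩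
    rw [← hdtd] at hdt ⊢
    have hdt0 := abs_nonneg dt
    have hMW' : CW * B₂ ≤ MW := by
      rw [hMW]
      refine mul_le_mul_of_nonneg_left ?_ (Nat.cast_nonneg _)
      exact le_mul_of_one_le_right hB₂ (one_le_pow₀ one_le_two)
    obtain ⟨p1, p2⟩ := pair_hv hK hp hG hδ hT hsm h i₀ hpT hC₀ hinv hlip htime hd1 hξt hCJ hCW PΘ
      PF hΘ hF hMJ hMW' hMW1 hWP hw hw' i hi hg hc (by rw [← hdtd]; exact hdt.trans h1γ) hεd hε1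
    rw [← hdtd] at p1 p2
    have hQ := QW_near hCW hMW h hG hγ hw.1 hWP
    have hMW0 : 0 ≤ MW := by linarith
    have hε0 : 0 ≤ ε := by
      rw [hεd]
      positivity
    have h5 := lin_est A hdet (g := 1 / 2 ^ γ) (a₁ := 3 * R ^ 2 * (3 * MW * |dt| + ε))
      (e₁ := 20 * MJ * R ^ 2 * MW ^ 2 * (dt ^ 2 + ε)) (e₂ := 2 * (MW * (1 / 2 ^ γ))) (dt := dt)
      hAi2 hAi (by positivity) (Mr γ M) (Jw i₀ PΘ PF bk pT N z w) hMn
      (fun l => pos i₀ pT pN (z (2 * N - 1) w') l - pos i₀ pT pN (z (2 * N - 1) w) l)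
      (fun r => vd (QW d j N β V ξT ξN z (len tm m N z w) w) i ((Fin.castSucc i₀).succAbove r)) k
      p1 (fun r => p2 _) (fun r => by
        rw [hA]
        unfold Ah
        rw [Matrix.of_apply, hι]
        exact vd_near (by positivity) (fun r a => (hQ r a).1) i _) r
    have h3 := round_est (U := U) (X := X) (fun l => (A⁻¹ * Mr γ M) r l) (hBb r) _ _ (y w) (y w')
      hy hy' h5 (by rw [← mul_assoc (c : ℝ)] at C3; rw [← mul_assoc (c : ℝ)]; exact C3)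
    unfold Nv
    refine h3.trans ?_
    -- the error
    obtain ⟨T, hTd⟩ : ∃ T, T = 20 * MJ * R ^ 2 * MW ^ 2 := ⟨_, rfl⟩
    rw [← hTd] at C5 C6 ⊢
    have hT0 : 0 ≤ T := by
      rw [hTd]
      positivity
    have hdt2 : dt ^ 2 ≤ 1 / 2 ^ γ * |dt| := by
      rw [← sq_abs, sq]
      exact mul_le_mul_of_nonneg_right hdt hdt0
    have hc0 : (0 : ℝ) ≤ c := Nat.cast_nonneg c
    have key : T * (dt ^ 2 + ε) + c * (1 / 2 ^ γ * (3 * R ^ 2 * (3 * MW * |dt| + ε))) +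
        |dt| * (2 * (MW * (1 / 2 ^ γ))) ≤
        (T + 9 * c * R ^ 2 * MW + 2 * MW) * (1 / 2 ^ γ * |dt|) + (T + 3 * c * R ^ 2) * ε := by
      have k1 : T * dt ^ 2 ≤ T * (1 / 2 ^ γ * |dt|) := mul_le_mul_of_nonneg_left hdt2 hT0
      have k2 : c * (1 / 2 ^ γ * (3 * R ^ 2 * ε)) ≤ c * (1 * (3 * R ^ 2 * ε)) := by
        refine mul_le_mul_of_nonneg_left (mul_le_mul_of_nonneg_right h1γ ?_) hc0
        positivity
      nlinarith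
    have key2 := mul_le_mul_of_nonneg_left key hAi
    have key3 := mul_le_mul_of_nonneg_left key2 hc0
    have key4 := mul_le_mul_of_nonneg_left key3 h2X.le
    have e1 : (2 : ℝ) ^ X * (c * (Ai * ((T + 9 * c * R ^ 2 * MW + 2 * MW) * (1 / 2 ^ γ * |dt|) +
        (T + 3 * c * R ^ 2) * ε))) =
        (c * (Ai * (T + 9 * c * R ^ 2 * MW + 2 * MW)) * 2 ^ s) * (1 / 2 ^ γ) *
          (2 ^ X * |dt| / 2 ^ s) + 2 ^ X * (c * (Ai * ((T + 3 * c * R ^ 2) * ε))) := by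
      field_simp
    rw [e1] at key4
    have k5 : (c * (Ai * (T + 9 * c * R ^ 2 * MW + 2 * MW)) * 2 ^ s) * (1 / 2 ^ γ) ≤ 1 := by
      rw [mul_one_div, div_le_one h2γ]
      exact C5
    have k6 : 0 ≤ 2 ^ X * |dt| / 2 ^ s := by positivity
    have k7 := mul_le_mul_of_nonneg_right k5 k6
    linarith

end Pool.LIV
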