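import Pool.Agent.H25.LIVE.Ind

/-!
# The walk: the vertices
-/

set_option autoImplicit false

namespace Pool.LIV

open Finset Real
open Pool.Agent.H49.Ent Pool.Agent.H32.Dense Pool.STK Pool.KS3 Pool.OC.RS
open Pool.BFL (Pb P2 MC alt)

variable {Ω G B W 𝔅 𝒱 : Type} [Fintype Ω] [Fintype W] {p : Ω → ℝ} {g : Ω → G} {bk : Ω → B}
  {β : Ω → 𝔅} {V : Ω → 𝒱} {tm : Ω → ℤ} {N : ℕ} {q : W → ℝ} {z : ℕ → W → Ω}

/-- The time of the vertex `a`. -/
def tv (tm : Ω → ℤ) (N : ℕ) (z : ℕ → W → Ω) (a : ℕ) (w : W) : ℤ :=
  tm (z (min (2 * a) (2 * N - 1)) w)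

/-- The context of the vertex `i`: the data of all the legs, and all the times but one. -/
def cxv (β : Ω → 𝔅) (V : Ω → 𝒱) (tm : Ω → ℤ) (N : ℕ) (z : ℕ → W → Ω) (i : ℕ) (w : W) :
    (Fin N → 𝒱) × (Fin (N + 1) → ℤ) × 𝔅 :=
  (fun a => V (z (2 * a) w), fun a => if (a : ℕ) = i then 0 else tv tm N z a w, β (z 0 w))

/-- The datum of the chain at the index `k`. -/
def dat (V : Ω → 𝒱) (tm : Ω → ℤ) (k : ℕ) (ω : Ω) : 𝒱 ⊕ ℤ :=
  if k % 2 = 0 then Sum.inl (V ω) else Sum.inr (tm ω)

omit [Fintype Ω] in
theorem dat_even {k : ℕ} (hk : k % 2 = 0) (ω : Ω) : dat V tm k ω = Sum.inl (V ω) := if_pos hk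

omit [Fintype Ω] in
theorem dat_odd {k : ℕ} (hk : k % 2 = 1) (ω : Ω) : dat V tm k ω = Sum.inr (tm ω) :=
  if_neg (by omega)

omit [Fintype Ω] in
theorem alt_even {k : ℕ} (hk : k % 2 = 0) (ω : Ω) : alt g bk k ω = Sum.inl (g ω) := if_pos hk

omit [Fintype Ω] in
theorem alt_odd {k : ℕ} (hk : k % 2 = 1) (ω : Ω) : alt g bk k ω = Sum.inr (bk ω) :=
  if_neg (by omega)

/-- The assumptions on the variables of the walk. -/
structure WI (p : Ω → ℝ) (g : Ω → G) (bk : Ω → B) (β : Ω → 𝔅) (V : Ω → 𝒱) (tm : Ω → ℤ)
    (θ : ℝ) : Prop where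
  isLaw : IsLaw p
  bk_β : Det p bk β
  g_β : Det p g β
  g_V : Det p g V
  bk_tm : Det p bk tm
  timeInd : CH p tm β - CH p tm g ≤ θ
  indep : CH p V β - CH p V bk ≤ θ

theorem WI.alt_β {θ : ℝ} (h : WI p g bk β V tm θ) (i : ℕ) : Det p (alt g bk i) β := by
  intro ω ω' a b e
  rcases Nat.mod_two_eq_zero_or_one i with k | k
  · rw [alt_even k, alt_even k] at e
    exact h.g_β ω ω' a b (Sum.inl_injective e)
  · rw [alt_odd k, alt_odd k] at e
    exact h.bk_β ω ω' a b (Sum.inr_injective e)

theorem WI.dat_le {θ : ℝ} (h : WI p g bk β V tm θ) (i : ℕ) :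
    CH p (dat V tm (i + 1)) β - CH p (dat V tm (i + 1)) (alt g bk i) ≤ θ := by
  have hp := h.isLaw.nonneg
  rcases Nat.mod_two_eq_zero_or_one i with k | k
  · have e1 : CH p (dat V tm (i + 1)) β = CH p tm β :=
      CH_congr hp (fun ω ω' _ _ e => by
          have := (Prod.ext_iff.mp e).1
          simp only [dat_odd (V := V) (tm := tm) (show (i + 1) % 2 = 1 by omega)] at this
          exact Sum.inr_injective this)
        (fun ω ω' _ _ e => by
          rw [dat_odd (show (i + 1) % 2 = 1 by omega), dat_odd (show (i + 1) % 2 = 1 by omega)]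
          exact congrArg Sum.inr (Prod.ext_iff.mp e).1)
        (fun _ _ _ _ e => e) (fun _ _ _ _ e => e)
    have e2 : CH p (dat V tm (i + 1)) (alt g bk i) = CH p tm g :=
      CH_congr hp (fun ω ω' _ _ e => by
          have := (Prod.ext_iff.mp e).1
          simp only [dat_odd (V := V) (tm := tm) (show (i + 1) % 2 = 1 by omega)] at this
          exact Sum.inr_injective this)
        (fun ω ω' _ _ e => by
          rw [dat_odd (show (i + 1) % 2 = 1 by omega), dat_odd (show (i + 1) % 2 = 1 by omega)]
          exact congrArg Sum.inr (Prod.ext_iff.mp e).1)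
        (fun ω ω' _ _ e => by
          rw [alt_even k, alt_even k] at e
          exact Sum.inl_injective e)
        (fun ω ω' _ _ e => by
          rw [alt_even k, alt_even k, e])
    rw [e1, e2]
    exact h.timeInd
  · have e1 : CH p (dat V tm (i + 1)) β = CH p V β :=
      CH_congr hp (fun ω ω' _ _ e => by
          have := (Prod.ext_iff.mp e).1
          simp only [dat_even (V := V) (tm := tm) (show (i + 1) % 2 = 0 by omega)] at this
          exact Sum.inl_injective this)
        (fun ω ω' _ _ e => by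
          rw [dat_even (show (i + 1) % 2 = 0 by omega), dat_even (show (i + 1) % 2 = 0 by omega)]
          exact congrArg Sum.inl (Prod.ext_iff.mp e).1)
        (fun _ _ _ _ e => e) (fun _ _ _ _ e => e)
    have e2 : CH p (dat V tm (i + 1)) (alt g bk i) = CH p V bk :=
      CH_congr hp (fun ω ω' _ _ e => by
          have := (Prod.ext_iff.mp e).1
          simp only [dat_even (V := V) (tm := tm) (show (i + 1) % 2 = 0 by omega)] at this
          exact Sum.inl_injective this)
        (fun ω ω' _ _ e => by
          rw [dat_even (show (i + 1) % 2 = 0 by omega), dat_even (show (i + 1) % 2 = 0 by omega)]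
          exact congrArg Sum.inl (Prod.ext_iff.mp e).1)
        (fun ω ω' _ _ e => by
          rw [alt_odd k, alt_odd k] at e
          exact Sum.inr_injective e)
        (fun ω ω' _ _ e => by
          rw [alt_odd k, alt_odd k, e])
    rw [e1, e2]
    exact h.indep

/-- Equal line blocks on a leg. -/
theorem same_g (h : MC p (alt g bk) (2 * N - 1) q z) {w : W} (hw : 0 < q w) {a : ℕ}
    (ha : a < N) : g (z (2 * a) w) = g (z (2 * a + 1) w) := by
  have := h.same w hw (2 * a) (by omega)
  rw [alt_even (by omega), alt_even (by omega)] at this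
  exact Sum.inl_injective this

/-- Equal blocks at a vertex. -/
theorem same_bk (h : MC p (alt g bk) (2 * N - 1) q z) {w : W} (hw : 0 < q w) {a : ℕ}
    (ha : a + 1 < N) : bk (z (2 * a + 1) w) = bk (z (2 * a + 2) w) := by
  have := h.same w hw (2 * a + 1) (by omega)
  rw [alt_odd (by omega), alt_odd (by omega)] at this
  exact Sum.inr_injective this

/-- **The informations of the vertex `i`.** -/
theorem vertex {θ : ℝ} (hI : WI p g bk β V tm θ) (hθ : 0 ≤ θ)
    (h : MC p (alt g bk) (2 * N - 1) q z) {i : ℕ} (hi : 1 ≤ i) (hiN : i < N) :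
    mi q (fun w => g (z (2 * i) w)) (tv tm N z i) (cxv β V tm N z i) ≤ 2 * N * θ ∧
    mi q (fun w => g (z (2 * i - 1) w)) (tv tm N z i) (cxv β V tm N z i) ≤ 2 * N * θ ∧
    mi q (tv tm N z i) (cxv β V tm N z i) (fun w => (g (z (2 * i) w), β (z 0 w))) ≤
      2 * N * θ := by
  have hq := h.isLaw.nonneg
  have hM : ∀ k, k ≤ 2 * N - 1 → ∀ w, 0 < q w → 0 < p (z k w) := fun k hk w hw =>
    (h.marg k hk).pos hq hw
  have hV : ∀ w, 0 < q w → ∀ a < N, V (z (2 * a) w) = V (z (2 * a + 1) w) := fun w hw a ha =>
    hI.g_V _ _ (hM _ (by omega) w hw) (hM _ (by omega) w hw) (same_g h hw ha)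
  have hT : ∀ w, 0 < q w → ∀ a, a + 1 < N → tm (z (2 * a + 1) w) = tm (z (2 * a + 2) w) :=
    fun w hw a ha => hI.bk_tm _ _ (hM _ (by omega) w hw) (hM _ (by omega) w hw) (same_bk h hw ha)
  have hc := chain_const h β (fun i _ => hI.alt_β i)
  -- forward data
  have fw := fwd_mi h β (fun i _ => hI.alt_β i) (dat V tm) (fun i _ => hI.dat_le i)
  -- backward data
  have hr := rev_chain h (c' := alt g bk) (by
    intro j hj
    funext ω
    rcases Nat.mod_two_eq_zero_or_one j with k | k
    · rw [alt_even k, alt_even (by omega)]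
    · rw [alt_odd k, alt_odd (by omega)])
  have bw := fwd_mi hr β (fun i _ => hI.alt_β i) (dat V tm) (fun i _ => hI.dat_le i)
  simp only [Nat.sub_zero] at bw
  have hβM : ∀ k ≤ 2 * N - 1, Det q (fun w => β (z k w)) (fun w => β (z 0 w)) := by
    intro k hk w w' a b e
    show β (z 0 w) = β (z 0 w')
    rw [← hc w a k hk, ← hc w' b k hk]
    exact e
  have hβM' : ∀ k ≤ 2 * N - 1, Det q (fun w => β (z 0 w)) (fun w => β (z k w)) := by
    intro k hk w w' a b e
    show β (z k w) = β (z k w')
    rw [hc w a k hk, hc w' b k hk]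
    exact e
  have hti : ∀ w, tv tm N z i w = tm (z (2 * i) w) := by
    intro w
    unfold tv
    rw [min_eq_left (by omega)]
  have hti' : ∀ w, 0 < q w → tv tm N z i w = tm (z (2 * i - 1) w) := by
    intro w hw
    rw [hti w]
    have := hT w hw (i - 1) (by omega)
    rw [show 2 * (i - 1) + 1 = 2 * i - 1 by omega, show 2 * (i - 1) + 2 = 2 * i by omega] at this
    exact this.symm
  have htl : ∀ a < i, ∀ w, tv tm N z a w = tm (z (2 * a) w) := by
    intro a ha w
    unfold tv
    rw [min_eq_left (by omega)]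
  have htr : ∀ a, i < a → a ≤ N → ∀ w, 0 < q w → tv tm N z a w = tm (z (2 * a - 1) w) := by
    intro a ha haN w hw
    unfold tv
    rcases Nat.lt_or_ge a N with h1 | h1
    · rw [min_eq_left (by omega)]
      have := hT w hw (a - 1) (by omega)
      rw [show 2 * (a - 1) + 1 = 2 * a - 1 by omega, show 2 * (a - 1) + 2 = 2 * a by omega] at this
      exact this.symm
    · rw [show a = N by omega, min_eq_right (by omega)]
  -- the information of the time of a sample with its line block
  have hGt : ∀ k ≤ 2 * N - 1, ∀ t : W → ℤ, (∀ w, 0 < q w → t w = tm (z k w)) →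
      mi q (fun w => g (z k w)) t (fun w => β (z 0 w)) ≤ θ := by
    intro k hk t ht
    rw [mi_eq' hq]
    have h1 : CH q t (fun w => β (z 0 w)) = CH p tm β := by
      rw [← (h.marg k hk).CH tm β]
      exact CH_congr hq (fun w w' a b e => by
          have := (Prod.ext_iff.mp e).1
          show tm (z k w) = tm (z k w')
          rw [← ht w a, ← ht w' b]
          exact this)
        (fun w w' a b e => by
          rw [ht w a, ht w' b]
          exact (Prod.ext_iff.mp e).1) (hβM' k hk) (hβM k hk)
    have h2 : CH q t (fun w => (g (z k w), β (z 0 w))) = CH p tm g := by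
      rw [← (h.marg k hk).CH tm g]
      exact CH_congr hq (fun w w' a b e => by
          have := (Prod.ext_iff.mp e).1
          show tm (z k w) = tm (z k w')
          rw [← ht w a, ← ht w' b]
          exact this)
        (fun w w' a b e => by
          rw [ht w a, ht w' b]
          exact (Prod.ext_iff.mp e).1) (fun _ _ _ _ e => (Prod.ext_iff.mp e).1)
        (fun w w' a b e => by
          refine Prod.ext e ?_
          show β (z 0 w) = β (z 0 w')
          rw [← hc w a k hk, ← hc w' b k hk]
          exact hI.g_β _ _ (hM k hk w a) (hM k hk w' b) e)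
    rw [h1, h2]
    exact hI.timeInd
  -- first case
  have A : mi q (fun w => g (z (2 * i) w)) (tv tm N z i) (cxv β V tm N z i) ≤
        θ + (2 * i : ℕ) * θ ∧
      mi q (tv tm N z i) (cxv β V tm N z i) (fun w => (g (z (2 * i) w), β (z 0 w))) ≤
        (2 * i : ℕ) * θ := by
    obtain ⟨n, hn⟩ : ∃ n, n = 2 * N - 1 - 2 * i := ⟨_, rfl⟩
    have b1 := bw n (2 * i) (by omega)
    obtain ⟨P, hP⟩ : ∃ P : W → Fin (2 * i) → 𝒱 ⊕ ℤ, P = fun w (k : Fin (2 * i)) =>
      dat V tm (n + 1 + k) (z (2 * N - 1 - (n + 1 + k)) w) := ⟨_, rfl⟩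
    obtain ⟨F, hF⟩ : ∃ F : W → Fin (2 * N - 1 - 2 * i) → 𝒱 ⊕ ℤ,
        F = fun w (k : Fin (2 * N - 1 - 2 * i)) => dat V tm (2 * i + 1 + k) (z (2 * i + 1 + k) w) := ⟨_, rfl⟩
    have mk := h.markov (2 * i) (by omega)
    have c1 := mk.mono_left hq (A' := F) (by
      intro w w' _ _ e
      have e1 := (Prod.ext_iff.mp e).1
      rw [hF]
      funext k
      have := congrFun e1 k
      simp only at this ⊢
      rw [this])
    have c2 := c1.mono_right hq (B' := tv tm N z i) (by
      intro w w' _ _ e
      have e1 := congrFun (Prod.ext_iff.mp e).1 ⟨2 * i, by omega⟩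
      simp only at e1
      rw [hti, hti, e1])
    refine vertex_mi hq (fun w => g (z (2 * i) w)) P F (tv tm N z i) (fun w => β (z 0 w))
      (cxv β V tm N z i) (hGt _ (by omega) _ (fun w _ => hti w)) ?_ ?_ ?_ ?_
    · rw [mi_eq hq]
      have c3 := c2.congr hq (Z' := fun w => (g (z (2 * i) w), β (z 0 w)))
        (fun w w' a b e => by
          simp only [alt_even (g := g) (bk := bk) (show (2 * i) % 2 = 0 by omega)] at e
          have e' := Sum.inl_injective e
          refine Prod.ext e' ?_
          show β (z 0 w) = β (z 0 w')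
          rw [← hc w a (2 * i) (by omega), ← hc w' b (2 * i) (by omega)]
          exact hI.g_β _ _ (hM _ (by omega) w a) (hM _ (by omega) w' b) e')
        (fun w w' _ _ e => by
          simp only [alt_even (g := g) (bk := bk) (show (2 * i) % 2 = 0 by omega)]
          exact congrArg Sum.inl (Prod.ext_iff.mp e).1)
      unfold CI at c3
      rw [c3, sub_self]
    · rw [mi_comm hq]
      have b2 : mi q (fun w (k : Fin (n + 1)) => z (2 * N - 1 - k) w) P (fun w => β (z 0 w)) ≤
          (2 * i : ℕ) * θ := by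
        refine le_trans (le_of_eq ?_) b1
        rw [mi_eq' hq, mi_eq' hq, hP]
        have k1 := CH_congr hq (X := fun w (k : Fin (2 * i)) =>
          dat V tm (n + 1 + k) (z (2 * N - 1 - (n + 1 + k)) w)) (X' := fun w (k : Fin (2 * i)) =>
          dat V tm (n + 1 + k) (z (2 * N - 1 - (n + 1 + k)) w))
          (fun _ _ _ _ e => (Prod.ext_iff.mp e).1) (fun _ _ _ _ e => (Prod.ext_iff.mp e).1)
          (hβM' (2 * N - 1) le_rfl) (hβM (2 * N - 1) le_rfl)
        have k2 := CH_congr hq (X := fun w (k : Fin (2 * i)) =>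
          dat V tm (n + 1 + k) (z (2 * N - 1 - (n + 1 + k)) w)) (X' := fun w (k : Fin (2 * i)) =>
          dat V tm (n + 1 + k) (z (2 * N - 1 - (n + 1 + k)) w))
          (W := fun w => ((fun k : Fin (n + 1) => z (2 * N - 1 - k) w), β (z 0 w)))
          (W' := fun w => ((fun k : Fin (n + 1) => z (2 * N - 1 - k) w), β (z (2 * N - 1) w)))
          (fun _ _ _ _ e => (Prod.ext_iff.mp e).1) (fun _ _ _ _ e => (Prod.ext_iff.mp e).1)
          (fun w w' a b e => Prod.ext (Prod.ext_iff.mp e).1
            (hβM' (2 * N - 1) le_rfl w w' a b (Prod.ext_iff.mp e).2))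
          (fun w w' a b e => Prod.ext (Prod.ext_iff.mp e).1
            (hβM (2 * N - 1) le_rfl w w' a b (Prod.ext_iff.mp e).2))
        rw [k1, k2]
      refine le_trans (mi_mono_left hq _ _ P _ ?_) b2
      intro w w' _ _ e
      have e1 : ∀ k, 2 * i ≤ k → k ≤ 2 * N - 1 → z k w = z k w' := by
        intro k k1 k2
        have := congrFun (Prod.ext_iff.mp e).1 ⟨2 * N - 1 - k, by omega⟩
        simp only at this
        rw [show 2 * N - 1 - (2 * N - 1 - k) = k by omega] at this
        exact this
      have e2 : F w = F w' := by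
        rw [hF]
        funext k
        simp only
        rw [e1 (2 * i + 1 + k) (by omega) (by
          have := k.2
          omega)]
      simp only
      rw [hti, hti, e1 (2 * i) le_rfl (by omega), e2]
    · intro w w' a b e
      simp only [Prod.mk.injEq] at e
      obtain ⟨⟨eG, eP, eF⟩, eβ⟩ := e
      have pd : ∀ k, k < 2 * i → dat V tm (n + 1 + k) (z (2 * N - 1 - (n + 1 + k)) w) =
          dat V tm (n + 1 + k) (z (2 * N - 1 - (n + 1 + k)) w') := by
        intro k hk
        rw [hP] at eP
        exact congrFun eP ⟨k, hk⟩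
      have fd : ∀ k, k < 2 * N - 1 - 2 * i → dat V tm (2 * i + 1 + k) (z (2 * i + 1 + k) w) =
          dat V tm (2 * i + 1 + k) (z (2 * i + 1 + k) w') := by
        intro k hk
        rw [hF] at eF
        exact congrFun eF ⟨k, hk⟩
      unfold cxv
      refine Prod.ext (funext fun k => ?_) (Prod.ext (funext fun k => ?_) eβ)
      · show V (z (2 * k) w) = V (z (2 * k) w')
        have kN := k.2
        rcases lt_trichotomy (k : ℕ) i with hk | hk | hk
        · rw [hV w a k kN, hV w' b k kN]
          have := pd (2 * i - 2 - 2 * k) (by omega)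
          rw [dat_even (by omega), dat_even (by omega),
            show 2 * N - 1 - (n + 1 + (2 * i - 2 - 2 * (k : ℕ))) = 2 * k + 1 by omega] at this
          exact Sum.inl_injective this
        · rw [hk]
          exact hI.g_V _ _ (hM _ (by omega) w a) (hM _ (by omega) w' b) eG
        · have := fd (2 * k - 2 * i - 1) (by omega)
          rw [dat_even (by omega), dat_even (by omega),
            show 2 * i + 1 + (2 * (k : ℕ) - 2 * i - 1) = 2 * k by omega] at this
          exact Sum.inl_injective this
      · show (if (k : ℕ) = i then 0 else tv tm N z k w) = if (k : ℕ) = i then 0 else tv tm N z k w'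
        have kN := k.2
        by_cases hk0 : (k : ℕ) = i
        · rw [if_pos hk0, if_pos hk0]
        rw [if_neg hk0, if_neg hk0]
        rcases Nat.lt_or_ge (k : ℕ) i with hk | hk
        · rw [htl k hk, htl k hk]
          have := pd (2 * i - 1 - 2 * k) (by omega)
          rw [dat_odd (by omega), dat_odd (by omega),
            show 2 * N - 1 - (n + 1 + (2 * i - 1 - 2 * (k : ℕ))) = 2 * k by omega] at this
          exact Sum.inr_injective this
        · rw [htr k (by omega) (by omega) w a, htr k (by omega) (by omega) w' b]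
          have := fd (2 * k - 2 * i - 2) (by omega)
          rw [dat_odd (by omega), dat_odd (by omega),
            show 2 * i + 1 + (2 * (k : ℕ) - 2 * i - 2) = 2 * k - 1 by omega] at this
          exact Sum.inr_injective this
    · intro w w' _ _ e
      exact (Prod.ext_iff.mp (Prod.ext_iff.mp e).2).2
  have B : mi q (fun w => g (z (2 * i - 1) w)) (tv tm N z i) (cxv β V tm N z i) ≤
      θ + (2 * N - 2 * i : ℕ) * θ := by
    obtain ⟨n, hn⟩ : ∃ n, n = 2 * N - 2 * i := ⟨_, rfl⟩
    have b1 := fw (2 * i - 1) (2 * N - 2 * i) (by omega)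
    obtain ⟨P, hP⟩ : ∃ P : W → Fin (2 * N - 2 * i) → 𝒱 ⊕ ℤ,
        P = fun w (k : Fin (2 * N - 2 * i)) => dat V tm (2 * i - 1 + 1 + k) (z (2 * i - 1 + 1 + k) w) := ⟨_, rfl⟩
    obtain ⟨F, hF⟩ : ∃ F : W → Fin (2 * i - 1) → 𝒱 ⊕ ℤ, F = fun w (k : Fin (2 * i - 1)) =>
      dat V tm (n + 1 + k) (z (2 * N - 1 - (n + 1 + k)) w) := ⟨_, rfl⟩
    have mk := (h.markov (2 * i - 2) (by omega)).symm hq
    have c1 := mk.mono_left hq (A' := F) (by
      intro w w' _ _ e
      have e1 := (Prod.ext_iff.mp e).1
      rw [hF]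
      funext k
      have := congrFun e1 ⟨2 * N - 1 - (n + 1 + k), by omega⟩
      simp only at this ⊢
      rw [this])
    have c2 := c1.mono_right hq (B' := tv tm N z i) (by
      intro w w' a b e
      have e1 := congrFun (Prod.ext_iff.mp e).1 ⟨0, by omega⟩
      simp only at e1
      rw [hti' w a, hti' w' b]
      rw [show 2 * i - 2 + 1 + 0 = 2 * i - 1 by omega] at e1
      rw [e1])
    have hG1 : ∀ w, 0 < q w → g (z (2 * i - 2) w) = g (z (2 * i - 1) w) := by
      intro w hw
      have := same_g h hw (a := i - 1) (by omega)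
      rw [show 2 * (i - 1) = 2 * i - 2 by omega, show 2 * i - 2 + 1 = 2 * i - 1 by omega] at this
      exact this
    refine (vertex_mi hq (fun w => g (z (2 * i - 1) w)) P F (tv tm N z i) (fun w => β (z 0 w))
      (cxv β V tm N z i) (hGt _ (by omega) _ hti') ?_ ?_ ?_ ?_).1
    · rw [mi_eq hq]
      have c3 := c2.congr hq (Z' := fun w => (g (z (2 * i - 1) w), β (z 0 w)))
        (fun w w' a b e => by
          simp only [alt_even (g := g) (bk := bk) (show (2 * i - 2) % 2 = 0 by omega)] at e
          have e' := Sum.inl_injective e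
          rw [hG1 w a, hG1 w' b] at e'
          refine Prod.ext e' ?_
          show β (z 0 w) = β (z 0 w')
          rw [← hc w a (2 * i - 1) (by omega), ← hc w' b (2 * i - 1) (by omega)]
          exact hI.g_β _ _ (hM _ (by omega) w a) (hM _ (by omega) w' b) e')
        (fun w w' a b e => by
          simp only [alt_even (g := g) (bk := bk) (show (2 * i - 2) % 2 = 0 by omega)]
          rw [hG1 w a, hG1 w' b]
          exact congrArg Sum.inl (Prod.ext_iff.mp e).1)
      unfold CI at c3
      rw [c3, sub_self]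
    · rw [mi_comm hq]
      refine le_trans (mi_mono_left hq _ _ P _ ?_) (by rw [hP]; exact b1)
      intro w w' a b e
      have e1 : ∀ k, k ≤ 2 * i - 1 → z k w = z k w' := by
        intro k k1
        have := congrFun (Prod.ext_iff.mp e).1 ⟨k, by omega⟩
        simp only at this
        exact this
      have e2 : F w = F w' := by
        rw [hF]
        funext k
        simp only
        rw [e1 (2 * N - 1 - (n + 1 + k)) (by omega)]
      simp only
      rw [hti' w a, hti' w' b, e1 (2 * i - 1) le_rfl, e2]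
    · intro w w' a b e
      simp only [Prod.mk.injEq] at e
      obtain ⟨⟨eG, eP, eF⟩, eβ⟩ := e
      have fd : ∀ k, k < 2 * N - 2 * i → dat V tm (2 * i - 1 + 1 + k) (z (2 * i - 1 + 1 + k) w) =
          dat V tm (2 * i - 1 + 1 + k) (z (2 * i - 1 + 1 + k) w') := by
        intro k hk
        rw [hP] at eP
        exact congrFun eP ⟨k, hk⟩
      have pd : ∀ k, k < 2 * i - 1 → dat V tm (n + 1 + k) (z (2 * N - 1 - (n + 1 + k)) w) =
          dat V tm (n + 1 + k) (z (2 * N - 1 - (n + 1 + k)) w') := by
        intro k hk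
        rw [hF] at eF
        exact congrFun eF ⟨k, hk⟩
      unfold cxv
      refine Prod.ext (funext fun k => ?_) (Prod.ext (funext fun k => ?_) eβ)
      · show V (z (2 * k) w) = V (z (2 * k) w')
        have kN := k.2
        rcases Nat.lt_or_ge (k : ℕ) i with hk | hk
        · rw [hV w a k kN, hV w' b k kN]
          by_cases hk1 : (k : ℕ) = i - 1
          · rw [hk1, show 2 * (i - 1) + 1 = 2 * i - 1 by omega]
            exact hI.g_V _ _ (hM _ (by omega) w a) (hM _ (by omega) w' b) eG
          · have := pd (2 * i - 3 - 2 * k) (by omega)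
            rw [dat_even (by omega), dat_even (by omega),
              show 2 * N - 1 - (n + 1 + (2 * i - 3 - 2 * (k : ℕ))) = 2 * k + 1 by omega] at this
            exact Sum.inl_injective this
        · have := fd (2 * k - 2 * i) (by omega)
          rw [dat_even (by omega), dat_even (by omega),
            show 2 * i - 1 + 1 + (2 * (k : ℕ) - 2 * i) = 2 * k by omega] at this
          exact Sum.inl_injective this
      · show (if (k : ℕ) = i then 0 else tv tm N z k w) = if (k : ℕ) = i then 0 else tv tm N z k w'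
        have kN := k.2
        by_cases hk0 : (k : ℕ) = i
        · rw [if_pos hk0, if_pos hk0]
        rw [if_neg hk0, if_neg hk0]
        rcases Nat.lt_or_ge (k : ℕ) i with hk | hk
        · rw [htl k hk, htl k hk]
          have := pd (2 * i - 2 - 2 * k) (by omega)
          rw [dat_odd (by omega), dat_odd (by omega),
            show 2 * N - 1 - (n + 1 + (2 * i - 2 - 2 * (k : ℕ))) = 2 * k by omega] at this
          exact Sum.inr_injective this
        · rw [htr k (by omega) (by omega) w a, htr k (by omega) (by omega) w' b]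
          have := fd (2 * k - 2 * i - 1) (by omega)
          rw [dat_odd (by omega), dat_odd (by omega),
            show 2 * i - 1 + 1 + (2 * (k : ℕ) - 2 * i - 1) = 2 * k - 1 by omega] at this
          exact Sum.inr_injective this
    · intro w w' _ _ e
      exact (Prod.ext_iff.mp (Prod.ext_iff.mp e).2).2
  have r1 : ((2 * i : ℕ) : ℝ) + 1 ≤ 2 * N := by
    have : 2 * i + 1 ≤ 2 * N := by omega
    exact_mod_cast this
  have r2 : ((2 * N - 2 * i : ℕ) : ℝ) + 1 ≤ 2 * N := by
    have : 2 * N - 2 * i + 1 ≤ 2 * N := by omega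
    exact_mod_cast this
  refine ⟨A.1.trans ?_, B.trans ?_, A.2.trans ?_⟩
  · nlinarith [mul_le_mul_of_nonneg_right r1 hθ]
  · nlinarith [mul_le_mul_of_nonneg_right r2 hθ]
  · nlinarith [mul_le_mul_of_nonneg_right r1 hθ]

end Pool.LIV
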