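import Pool.Agent.H25.LIVE.Geo
import Pool.Agent.H25.LIVE.Ver
import Pool.Agent.H31.STAT.Trw

/-!
# Pairs of walks
-/

set_option autoImplicit false

namespace Pool.LIV

open Finset MvPolynomial
open Pool.Agent.H49.Ent Pool.Agent.H32.Dense Pool.STK Pool.KS3
open Pool.BFL (Pl CB Pb P2 MC alt)
open Pool.STAT
open Pool.KAF (Pr)

theorem Rel.mono {c : ℕ} {d : Fin c → ℕ} {j : ℕ} {ξ : Fin c → Pl c} {b : Pl c} {s : ℝ}
    {a a' : Fin c → ℝ} {f f' δ δ' : ℝ} (h : Rel d j ξ b s a a' f f' δ) (hδ : δ ≤ δ') :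
    Rel d j ξ b s a a' f f' δ' := ⟨fun i => (h.1 i).trans hδ, h.2.trans hδ⟩

/-- The constant of `rel_all`. -/
def RelC {c : ℕ} (d : Fin c → ℕ) (j K : ℕ) : Prop :=
  1 ≤ K ∧ ∀ (R δ : ℝ), 1 ≤ R → 0 ≤ δ → δ ≤ 1 → ∀ (ξ : Fin c → Pl c) (b : Pl c), VF d ξ →
      b.IsWeightedHomogeneous d (j - 1) → (∀ i, CB (ξ i) R) → CB b R →
      (∀ (s : ℝ) (a a' : Fin c → ℝ) (f f' : ℝ), |s| ≤ 1 → (∀ i, |a i| ≤ R) → (∀ i, |a' i| ≤ R) →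
        Rel d j ξ b s a a' f f' δ → Rel d j ξ b (-s) a' a f' f (K * R ^ K * δ)) ∧
      (∀ (s s' : ℝ) (a a' a'' : Fin c → ℝ) (f f' f'' : ℝ), |s| ≤ 1 → |s'| ≤ 1 →
        (∀ i, |a i| ≤ R) → (∀ i, |a' i| ≤ R) → Rel d j ξ b s a a' f f' δ →
        Rel d j ξ b s' a' a'' f' f'' δ → Rel d j ξ b (s + s') a a'' f f'' (K * R ^ K * δ)) ∧
      (∀ (s : ℝ) (a a' u u' : Fin c → ℝ) (f f' g g' : ℝ), |s| ≤ 1 → (∀ i, |a i| ≤ R) →
        (∀ i, |u i| ≤ R) → Rel d j ξ b s a a' f f' δ → Rel d j ξ b s u u' g g' δ →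
        (∀ i, |a i - u i| ≤ δ) → |f - g| ≤ δ →
        (∀ i, |a' i - u' i| ≤ K * R ^ K * δ) ∧ |f' - g'| ≤ K * R ^ K * δ)

theorem exists_relC (c j : ℕ) (d : Fin c → ℕ) (hd : ∀ i, 1 ≤ d i) (hj : 1 ≤ j) :
    ∃ K : ℕ, RelC d j K := by
  obtain ⟨K, hK⟩ := rel_all c j d hd hj
  refine ⟨K + 1, by omega, ?_⟩
  intro R δ hR hδ hδ1 ξ b h1 h2 h3 h4
  obtain ⟨k1, k2, k3⟩ := hK R δ hR hδ hδ1 ξ b h1 h2 h3 h4
  have e : (K : ℝ) * R ^ K * δ ≤ ((K + 1 : ℕ) : ℝ) * R ^ (K + 1) * δ := by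
    refine mul_le_mul_of_nonneg_right ?_ hδ
    push_cast
    refine mul_le_mul (by linarith) (pow_le_pow_right₀ hR (by omega)) (by positivity)
      (by positivity)
  exact ⟨fun s a a' f f' u1 u2 u3 u4 => (k1 s a a' f f' u1 u2 u3 u4).mono e,
    fun s s' a a' a'' f f' f'' u1 u2 u3 u4 u5 u6 =>
      (k2 s s' a a' a'' f f' f'' u1 u2 u3 u4 u5 u6).mono e,
    fun s a a' u u' f f' g g' u1 u2 u3 u4 u5 u6 u7 =>
      ⟨fun i => ((k3 s a a' u u' f f' g g' u1 u2 u3 u4 u5 u6 u7).1 i).trans e,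
        ((k3 s a a' u u' f f' g g' u1 u2 u3 u4 u5 u6 u7).2).trans e⟩⟩

/-- Iteration of the comparison. -/
theorem iter {c j K : ℕ} {d : Fin c → ℕ} (hK : RelC d j K) {R δ : ℝ} (hR : 1 ≤ R) (hδ : 0 ≤ δ)
    {n : ℕ} (hsm : (K * R ^ K) ^ n * δ ≤ 1) (ξ : ℕ → Fin c → Pl c) (b : ℕ → Pl c)
    (s : ℕ → ℝ) (A B : ℕ → Fin c → ℝ) (f h : ℕ → ℝ) (hξ : ∀ a < n, VF d (ξ a))
    (hb : ∀ a < n, (b a).IsWeightedHomogeneous d (j - 1)) (hξR : ∀ a < n, ∀ i, CB (ξ a i) R)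
    (hbR : ∀ a < n, CB (b a) R) (hs : ∀ a < n, |s a| ≤ 1) (hA : ∀ a ≤ n, ∀ i, |A a i| ≤ R)
    (hB : ∀ a ≤ n, ∀ i, |B a i| ≤ R)
    (h1 : ∀ a < n, Rel d j (ξ a) (b a) (s a) (A a) (A (a + 1)) (f a) (f (a + 1)) δ)
    (h2 : ∀ a < n, Rel d j (ξ a) (b a) (s a) (B a) (B (a + 1)) (h a) (h (a + 1)) δ)
    (h3 : ∀ i, |A 0 i - B 0 i| ≤ δ) (h4 : |f 0 - h 0| ≤ δ) :
    (∀ i, |A n i - B n i| ≤ (K * R ^ K) ^ n * δ) ∧ |f n - h n| ≤ (K * R ^ K) ^ n * δ := by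
  have hL : (1 : ℝ) ≤ K * R ^ K := by
    have k1 : (1 : ℝ) ≤ K := by exact_mod_cast hK.1
    have k2 : (1 : ℝ) ≤ R ^ K := one_le_pow₀ hR
    nlinarith
  have key : ∀ a ≤ n, (∀ i, |A a i - B a i| ≤ (K * R ^ K) ^ a * δ) ∧
      |f a - h a| ≤ (K * R ^ K) ^ a * δ := by
    intro a
    induction a with
    | zero =>
      intro _
      simp only [pow_zero, one_mul]
      exact ⟨h3, h4⟩
    | succ a ih =>
      intro ha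
      obtain ⟨i1, i2⟩ := ih (by omega)
      have p1 : (1 : ℝ) ≤ (K * R ^ K) ^ a := one_le_pow₀ hL
      have p2 : (K * R ^ K : ℝ) ^ a ≤ (K * R ^ K) ^ n := pow_le_pow_right₀ hL (by omega)
      have hδ' : δ ≤ (K * R ^ K) ^ a * δ := by nlinarith
      have hδ1 : (K * R ^ K) ^ a * δ ≤ 1 := (mul_le_mul_of_nonneg_right p2 hδ).trans hsm
      have := (hK.2 R ((K * R ^ K) ^ a * δ) hR (by positivity) hδ1 (ξ a) (b a) (hξ a (by omega))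
        (hb a (by omega)) (hξR a (by omega)) (hbR a (by omega))).2.2 (s a) (A a) (A (a + 1)) (B a)
        (B (a + 1)) (f a) (f (a + 1)) (h a) (h (a + 1)) (hs a (by omega)) (hA a (by omega))
        (hB a (by omega)) ((h1 a (by omega)).mono hδ') ((h2 a (by omega)).mono hδ') i1 i2
      have e : (K * R ^ K : ℝ) ^ (a + 1) * δ = K * R ^ K * ((K * R ^ K) ^ a * δ) := by
        rw [pow_succ]
        ring
      rw [e]
      exact this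
  exact key n le_rfl

section data

variable {c : ℕ} {Ω G B 𝔅 𝒱 : Type} [Fintype Ω] {d : Fin c → ℕ} {i₀ : Fin c} {j D U m : ℕ}
  {C₀ θ η : ℝ} {p : Ω → ℝ} {g : Ω → G} {bk : Ω → B} {β : Ω → 𝔅} {V : Ω → 𝒱} {tm : Ω → ℤ}
  {pT : Ω → Fin c → ℝ} {pN : Ω → ℝ} {ΘT : B → (Fin c → ℝ) → Fin c → ℝ}
  {FN : B → (Fin c → ℝ) → ℝ} {ξT : 𝒱 → 𝔅 → Fin c → Pl c} {ξN : 𝒱 → 𝔅 → Pl c}

/-- Difference of two times, in units of the window. -/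
noncomputable def dt {Ω : Type} (tm : Ω → ℤ) (m : ℕ) (ω ω' : Ω) : ℝ :=
  ((tm ω' - tm ω : ℤ) : ℝ) / 2 ^ m

/-- The states of two samples are on one line, up to `δ`. -/
def Tr (d : Fin c → ℕ) (j m : ℕ) (C₀ : ℝ) (bk : Ω → B) (β : Ω → 𝔅) (V : Ω → 𝒱) (tm : Ω → ℤ)
    (ΘT : B → (Fin c → ℝ) → Fin c → ℝ) (FN : B → (Fin c → ℝ) → ℝ)
    (ξT : 𝒱 → 𝔅 → Fin c → Pl c) (ξN : 𝒱 → 𝔅 → Pl c) (δ : ℝ) (ω ω' : Ω) : Prop :=
  ∀ z : Fin c → ℝ, (∀ i, |z i| ≤ C₀) → Rel d j (ξT (V ω) (β ω)) (ξN (V ω) (β ω)) (dt tm m ω ω')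
    (ΘT (bk ω) z) (ΘT (bk ω') z) (FN (bk ω) z) (FN (bk ω') z) δ

/-- The good samples. -/
def Gd (d : Fin c → ℕ) (j m : ℕ) (C₀ : ℝ) (p : Ω → ℝ) (g : Ω → G) (bk : Ω → B) (β : Ω → 𝔅)
    (V : Ω → 𝒱) (tm : Ω → ℤ) (ΘT : B → (Fin c → ℝ) → Fin c → ℝ) (FN : B → (Fin c → ℝ) → ℝ)
    (ξT : 𝒱 → 𝔅 → Fin c → Pl c) (ξN : 𝒱 → 𝔅 → Pl c) (δ : ℝ) (ω : Ω) : Prop :=
  Pb p (fun ω' => g ω' = g ω ∧ ¬ Tr d j m C₀ bk β V tm ΘT FN ξT ξN δ ω ω') ≤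
    law p g (g ω) / 4

theorem P2_as_sum (A : Ω → Ω → Prop) : P2 p g A =
    ∑ ω, p ω / law p g (g ω) * Pb p (fun ω' => g ω' = g ω ∧ A ω ω') := by
  unfold P2 Pb
  refine Finset.sum_congr rfl fun ω _ => ?_
  rw [Finset.mul_sum]
  refine Finset.sum_congr rfl fun ω' _ => ?_
  by_cases k : g ω' = g ω ∧ A ω ω'
  · rw [if_pos k, if_pos ⟨k.1.symm, k.2⟩]
    ring
  · rw [if_neg k, if_neg (fun k' => k ⟨k'.1.symm, k'.2⟩), mul_zero]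

theorem Pb_le_sum (A : Ω → Prop) (f : Ω → ℝ) (h0 : ∀ ω, 0 ≤ f ω) (h : ∀ ω, A ω → p ω ≤ f ω) :
    Pb p A ≤ ∑ ω, f ω := by
  unfold Pb
  refine Finset.sum_le_sum fun ω _ => ?_
  by_cases k : A ω
  · rw [if_pos k]
    exact h ω k
  · rw [if_neg k]
    exact h0 ω

theorem Pb_nn (hp : ∀ ω, 0 ≤ p ω) (A : Ω → Prop) : 0 ≤ Pb p A := by
  unfold Pb
  refine Finset.sum_nonneg fun ω _ => ?_
  split_ifs
  · exact hp ω
  · exact le_rfl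

theorem not_gd_le (hp : ∀ ω, 0 ≤ p ω) (δ : ℝ) :
    Pb p (fun ω => ¬ Gd d j m C₀ p g bk β V tm ΘT FN ξT ξN δ ω) ≤
      4 * P2 p g (fun ω ω' => ¬ Tr d j m C₀ bk β V tm ΘT FN ξT ξN δ ω ω') := by
  rw [P2_as_sum, Finset.mul_sum]
  refine Pb_le_sum _ _ (fun ω => ?_) fun ω h => ?_
  · have := Pb_nn hp (fun ω' => g ω' = g ω ∧ ¬ Tr d j m C₀ bk β V tm ΘT FN ξT ξN δ ω ω')
    have := div_nonneg (hp ω) (law_nonneg hp g (g ω))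
    positivity
  · unfold Gd at h
    rw [not_le] at h
    rcases (hp ω).eq_or_lt with h1 | h1
    · rw [← h1]
      simp
    have hl : 0 < law p g (g ω) := law_pos hp g h1
    have h2 := mul_le_mul_of_nonneg_left h.le (div_nonneg h1.le hl.le)
    have h3 : p ω / law p g (g ω) * (law p g (g ω) / 4) = p ω / 4 := by
      field_simp
    rw [h3] at h2
    linarith

/-- Two good samples with the same line block have a common good partner. -/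
theorem exists_mid (hp : ∀ ω, 0 ≤ p ω) {δ : ℝ} {ω ω' : Ω} (h0 : 0 < p ω)
    (hg : g ω = g ω') (h : Gd d j m C₀ p g bk β V tm ΘT FN ξT ξN δ ω)
    (h' : Gd d j m C₀ p g bk β V tm ΘT FN ξT ξN δ ω') :
    ∃ v, 0 < p v ∧ g v = g ω ∧ Tr d j m C₀ bk β V tm ΘT FN ξT ξN δ ω v ∧
      Tr d j m C₀ bk β V tm ΘT FN ξT ξN δ ω' v := by
  classical
  by_contra hn
  push Not at hn
  have hl : 0 < law p g (g ω) := law_pos hp g h0
  unfold Gd at h h'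
  rw [← hg] at h'
  have h1 : law p g (g ω) ≤
      Pb p (fun v => g v = g ω ∧ ¬ Tr d j m C₀ bk β V tm ΘT FN ξT ξN δ ω v) +
      Pb p (fun v => g v = g ω ∧ ¬ Tr d j m C₀ bk β V tm ΘT FN ξT ξN δ ω' v) := by
    unfold law Pb
    rw [← Finset.sum_add_distrib]
    refine Finset.sum_le_sum fun v _ => ?_
    by_cases k : g v = g ω
    · rw [if_pos k]
      rcases (hp v).eq_or_lt with hv | hv
      · rw [← hv]
        simp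
      by_cases k1 : Tr d j m C₀ bk β V tm ΘT FN ξT ξN δ ω v
      · have k2 := hn v hv k k1
        rw [if_pos (⟨k, k2⟩ : g v = g ω ∧ ¬ Tr d j m C₀ bk β V tm ΘT FN ξT ξN δ ω' v)]
        split_ifs <;> linarith
      · rw [if_pos (⟨k, k1⟩ : g v = g ω ∧ ¬ Tr d j m C₀ bk β V tm ΘT FN ξT ξN δ ω v)]
        split_ifs <;> linarith
    · rw [if_neg k, if_neg (fun e => k e.1), if_neg (fun e => k e.1), add_zero]
  linarith

/-- The constant of a relation between two good samples of a line block. -/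
theorem tr_of_gd {K : ℕ} (hK : RelC d j K) (hp : ∀ ω, 0 ≤ p ω) {R δ : ℝ} (hR : 1 ≤ R) (hδ : 0 ≤ δ)
    (hsm : K * R ^ K * (K * R ^ K * δ) ≤ 1) (hgβ : Det p g β) (hgV : Det p g V)
    (htm : ∀ ω ω', g ω = g ω' → |tm ω' - tm ω| ≤ 2 ^ m) (hvf : ∀ v x, VF d (ξT v x))
    (hvR : ∀ v x i, CB (ξT v x i) R) (hhom : ∀ v x, (ξN v x).IsWeightedHomogeneous d (j - 1))
    (hhR : ∀ v x, CB (ξN v x) R) (hΘ : ∀ x z, (∀ i, |z i| ≤ C₀) → ∀ i, |ΘT x z i| ≤ R)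
    {ω ω' : Ω} (h0 : 0 < p ω) (h0' : 0 < p ω') (hg : g ω = g ω')
    (h : Gd d j m C₀ p g bk β V tm ΘT FN ξT ξN δ ω)
    (h' : Gd d j m C₀ p g bk β V tm ΘT FN ξT ξN δ ω') :
    Tr d j m C₀ bk β V tm ΘT FN ξT ξN (K * R ^ K * (K * R ^ K * δ)) ω ω' := by
  obtain ⟨v, hv0, hvg, hv1, hv2⟩ := exists_mid hp h0 hg h h'
  have hL : (1 : ℝ) ≤ K * R ^ K := by
    have k1 : (1 : ℝ) ≤ K := by exact_mod_cast hK.1
    have k2 : (1 : ℝ) ≤ R ^ K := one_le_pow₀ hR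
    nlinarith
  obtain ⟨L, hLd⟩ : ∃ L : ℝ, L = K * R ^ K := ⟨_, rfl⟩
  have hK2 := hK.2
  rw [← hLd] at hL hsm ⊢
  have h1 : δ ≤ L * δ := by nlinarith
  have h2 : L * δ ≤ L * (L * δ) := by nlinarith [mul_nonneg (by linarith : (0 : ℝ) ≤ L) hδ]
  have eβ : β ω' = β ω := hgβ ω' ω h0' h0 hg.symm
  have eV : V ω' = V ω := hgV ω' ω h0' h0 hg.symm
  have hab : ∀ x y : Ω, g x = g y → |dt tm m x y| ≤ 1 := by
    intro x y hxy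
    unfold dt
    rw [abs_div, abs_of_pos (by positivity : (0 : ℝ) < 2 ^ m), div_le_one (by positivity)]
    have := htm x y hxy
    have h3 : ((|tm y - tm x| : ℤ) : ℝ) ≤ ((2 ^ m : ℤ) : ℝ) := by exact_mod_cast this
    rw [Int.cast_abs] at h3
    push_cast at h3 ⊢
    exact h3
  intro z hz
  obtain ⟨a1, a2, a3⟩ := hK2 R δ hR hδ (by linarith) (ξT (V ω) (β ω)) (ξN (V ω) (β ω))
    (hvf _ _) (hhom _ _) (hvR _ _) (hhR _ _)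
  obtain ⟨b1, b2, b3⟩ := hK2 R (L * δ) hR (by positivity) (by linarith) (ξT (V ω) (β ω))
    (ξN (V ω) (β ω)) (hvf _ _) (hhom _ _) (hvR _ _) (hhR _ _)
  rw [← hLd] at a1 b2
  have r1 := hv1 z hz
  have r2 := hv2 z hz
  rw [eβ, eV] at r2
  have r3 := a1 (dt tm m ω' v) _ _ _ _ (hab ω' v (by rw [hvg, hg])) (hΘ _ z hz) (hΘ _ z hz) r2
  have r4 := b2 (dt tm m ω v) (-(dt tm m ω' v)) _ _ _ _ _ _ (hab ω v hvg.symm)
    (by rw [abs_neg]; exact hab ω' v (by rw [hvg, hg])) (hΘ _ z hz) (hΘ _ z hz) (r1.mono h1) r3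
  have e : dt tm m ω v + -(dt tm m ω' v) = dt tm m ω ω' := by
    unfold dt
    push_cast
    ring
  rw [e] at r4
  exact r4

end data

end Pool.LIV
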