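import Mathlib

/-!
# Functions which are bounded by a power
-/

set_option autoImplicit false

namespace Pool.LIV

/-- A nonnegative function of `R ≥ 1`, bounded by a power of `R`. -/
def PBd (f : ℝ → ℝ) : Prop := ∃ n : ℕ, ∀ R : ℝ, 1 ≤ R → 0 ≤ f R ∧ f R ≤ n * R ^ n

theorem PBd.const {a : ℝ} (ha : 0 ≤ a) : PBd fun _ => a := by
  refine ⟨⌈a⌉₊, fun R hR => ⟨ha, ?_⟩⟩
  have h1 : a ≤ (⌈a⌉₊ : ℝ) := Nat.le_ceil a
  have h2 : (1 : ℝ) ≤ R ^ ⌈a⌉₊ := one_le_pow₀ hR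
  have h3 : (0 : ℝ) ≤ (⌈a⌉₊ : ℝ) := Nat.cast_nonneg _
  nlinarith

theorem PBd.nat (a : ℕ) : PBd fun _ => (a : ℝ) := PBd.const (Nat.cast_nonneg a)

theorem PBd.id : PBd fun R => R :=
  ⟨1, fun R hR => ⟨by linarith, by simp⟩⟩

theorem PBd.add {f g : ℝ → ℝ} (hf : PBd f) (hg : PBd g) : PBd fun R => f R + g R := by
  obtain ⟨n, hn⟩ := hf
  obtain ⟨n', hn'⟩ := hg
  refine ⟨n + n', fun R hR => ⟨add_nonneg (hn R hR).1 (hn' R hR).1, ?_⟩⟩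
  have h1 : R ^ n ≤ R ^ (n + n') := pow_le_pow_right₀ hR (by omega)
  have h2 : R ^ n' ≤ R ^ (n + n') := pow_le_pow_right₀ hR (by omega)
  have h3 : (n : ℝ) * R ^ n ≤ n * R ^ (n + n') := mul_le_mul_of_nonneg_left h1 (Nat.cast_nonneg _)
  have h4 : (n' : ℝ) * R ^ n' ≤ n' * R ^ (n + n') :=
    mul_le_mul_of_nonneg_left h2 (Nat.cast_nonneg _)
  have h5 := (hn R hR).2
  have h6 := (hn' R hR).2
  push_cast
  linarith

theorem PBd.mul {f g : ℝ → ℝ} (hf : PBd f) (hg : PBd g) : PBd fun R => f R * g R := by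
  obtain ⟨n, hn⟩ := hf
  obtain ⟨n', hn'⟩ := hg
  refine ⟨n * n' + n + n', fun R hR => ⟨mul_nonneg (hn R hR).1 (hn' R hR).1, ?_⟩⟩
  have hR0 : 0 ≤ R := by linarith
  have h0 : f R * g R ≤ (n * R ^ n) * (n' * R ^ n') :=
    mul_le_mul (hn R hR).2 (hn' R hR).2 (hn' R hR).1 (by positivity)
  have h1 : R ^ (n + n') ≤ R ^ (n * n' + n + n') := pow_le_pow_right₀ hR (by omega)
  have h2 : (n : ℝ) * R ^ n * (n' * R ^ n') = n * n' * R ^ (n + n') := by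
    rw [pow_add]
    ring
  rw [h2] at h0
  refine h0.trans (mul_le_mul ?_ h1 (by positivity) (by positivity))
  push_cast
  have : (0 : ℝ) ≤ n := Nat.cast_nonneg _
  have : (0 : ℝ) ≤ n' := Nat.cast_nonneg _
  linarith

theorem PBd.pow {f : ℝ → ℝ} (hf : PBd f) : ∀ n : ℕ, PBd fun R => f R ^ n
  | 0 => by
    simp only [pow_zero]
    exact PBd.const zero_le_one
  | n + 1 => by
    simp only [pow_succ]
    exact (PBd.pow hf n).mul hf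

theorem PBd.le {f : ℝ → ℝ} (hf : PBd f) : ∃ n : ℕ, 1 ≤ n ∧ ∀ R : ℝ, 1 ≤ R → f R ≤ n * R ^ n := by
  obtain ⟨n, hn⟩ := hf
  refine ⟨n + 1, by omega, fun R hR => (hn R hR).2.trans ?_⟩
  push_cast
  exact mul_le_mul (by linarith) (pow_le_pow_right₀ hR (by omega)) (by positivity) (by positivity)

theorem PBd.nonneg {f : ℝ → ℝ} (hf : PBd f) {R : ℝ} (hR : 1 ≤ R) : 0 ≤ f R := by
  obtain ⟨n, hn⟩ := hf
  exact (hn R hR).1

end Pool.LIV
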