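import Pool.Agent.H25.LIVE.Walk
import Pool.Agent.H89.GEN.PolyA
import Pool.Agent.H87.STAT.Flw2
import Pool.Agent.H6.STAT.Flw

/-!
# The positions of two walks
-/

set_option autoImplicit false

namespace Pool.LIV

open Finset MvPolynomial
open Pool.Agent.H49.Ent Pool.Agent.H32.Dense Pool.STK Pool.KS3
open Pool.BFL (Pl CB Pb P2 MC alt)
open Pool.STAT
open Pool.KAF (Pr)

/-- Bounds for a polynomial, first and second order. -/
theorem poly_bounds (n K : ℕ) : ∃ C : ℕ, 1 ≤ C ∧ ∀ (P : Pl n) (B a : ℝ), P.totalDegree ≤ K →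
    CB P B → 1 ≤ a → ∀ x y : Fin n → ℝ, (∀ i, |x i| ≤ a) → (∀ i, |y i| ≤ a) → ∀ v : ℝ,
    0 ≤ v → (∀ i, |y i - x i| ≤ v) → |eval x P| ≤ C * (B * a ^ K) ∧
      (∀ i, |eval x (pderiv i P)| ≤ C * (B * a ^ K)) ∧
      |eval y P - eval x P| ≤ C * (B * a ^ K) * v ∧
      (∀ i, |eval y (pderiv i P) - eval x (pderiv i P)| ≤ C * (B * a ^ K) * v) ∧
      |eval y P - eval x P - ∑ i, (y i - x i) * eval x (pderiv i P)| ≤
        C * (B * a ^ K) * v ^ 2 := by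
  refine ⟨(n ^ 2 + n + 1) * (K + 1) ^ (n + 2) + 1, by omega, ?_⟩
  intro P B a hP hB ha x y hx hy v hv0 hv
  have hB0 : 0 ≤ B := (abs_nonneg _).trans (hB 0)
  have hX : 0 ≤ B * a ^ K := by positivity
  have hp1 : (1 : ℝ) ≤ (K + 1 : ℝ) ^ (n + 2) :=
    one_le_pow₀ (by
      have : (0 : ℝ) ≤ K := Nat.cast_nonneg K
      linarith)
  have hp2 : (K + 1 : ℝ) ^ n ≤ (K + 1 : ℝ) ^ (n + 2) :=
    pow_le_pow_right₀ (by
      have : (0 : ℝ) ≤ K := Nat.cast_nonneg K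
      linarith) (by omega)
  have hp3 : (K + 1 : ℝ) ^ (n + 1) ≤ (K + 1 : ℝ) ^ (n + 2) :=
    pow_le_pow_right₀ (by
      have : (0 : ℝ) ≤ K := Nat.cast_nonneg K
      linarith) (by omega)
  have hK0 : (0 : ℝ) ≤ K := Nat.cast_nonneg K
  have hn0 : (0 : ℝ) ≤ n := Nat.cast_nonneg n
  have eC : (((n ^ 2 + n + 1) * (K + 1) ^ (n + 2) + 1 : ℕ) : ℝ) =
      ((n : ℝ) ^ 2 + n + 1) * (K + 1) ^ (n + 2) + 1 := by
    push_cast
    ring
  rw [eC]
  have hxv : ∀ i, |x i + (y i - x i)| ≤ a := fun i => by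
    rw [add_sub_cancel]
    exact hy i
  have ey : (fun i => x i + (y i - x i)) = y := by
    funext i
    ring
  have ey1 : (fun i => x i + (1 : ℝ) * (y i - x i)) = y := by
    funext i
    ring
  have hdeg := fun i => POLY.totalDegree_pderiv P i hP
  have hcf := fun i => POLY.coeff_pderiv_le P hP hB i
  have q1 := POLY.abs_eval_le P hP hB ha x hx
  have q2 := fun i => POLY.abs_eval_le (pderiv i P) (hdeg i) (hcf i) ha x hx
  have q3 := POLY.seg_le P hP hB ha x (fun i => y i - x i) hx hxv hv 1 (by simp)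
  have q4 := fun i => POLY.seg_le (pderiv i P) (hdeg i) (hcf i) ha x (fun i => y i - x i) hx hxv hv
    1 (by simp)
  have q5 := POLY.taylor_le P hP hB ha x (fun i => y i - x i) hx hxv hv
  simp only [ey1] at q3 q4
  simp only [ey] at q5
  refine ⟨?_, fun i => ?_, ?_, fun i => ?_, ?_⟩
  · refine q1.trans (mul_le_mul_of_nonneg_right ?_ hX)
    nlinarith [sq_nonneg (n : ℝ), mul_nonneg (sq_nonneg (n : ℝ)) (by positivity :
      (0 : ℝ) ≤ (K + 1 : ℝ) ^ (n + 2)), mul_nonneg hn0 (by positivity :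
      (0 : ℝ) ≤ (K + 1 : ℝ) ^ (n + 2))]
  · refine (q2 i).trans ?_
    have e : (K + 1 : ℝ) ^ n * ((K + 1) * B * a ^ K) = (K + 1) ^ (n + 1) * (B * a ^ K) := by
      rw [pow_succ]
      ring
    rw [e]
    refine mul_le_mul_of_nonneg_right ?_ hX
    nlinarith [sq_nonneg (n : ℝ), mul_nonneg (sq_nonneg (n : ℝ)) (by positivity :
      (0 : ℝ) ≤ (K + 1 : ℝ) ^ (n + 2)), mul_nonneg hn0 (by positivity :
      (0 : ℝ) ≤ (K + 1 : ℝ) ^ (n + 2))]
  · refine q3.trans ?_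
    have e : n * ((K + 1 : ℝ) ^ (n + 1) * (B * a ^ K)) * v =
      (n * (K + 1 : ℝ) ^ (n + 1)) * (B * a ^ K) * v := by ring
    rw [e]
    refine mul_le_mul_of_nonneg_right (mul_le_mul_of_nonneg_right ?_ hX) hv0
    nlinarith [mul_nonneg (sq_nonneg (n : ℝ)) (by positivity :
      (0 : ℝ) ≤ (K + 1 : ℝ) ^ (n + 2)), mul_le_mul_of_nonneg_left hp3 hn0]
  · refine (q4 i).trans ?_
    have e : n * ((K + 1 : ℝ) ^ (n + 1) * ((K + 1) * B * a ^ K)) * v =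
      (n * (K + 1 : ℝ) ^ (n + 2)) * (B * a ^ K) * v := by
      rw [pow_succ (K + 1 : ℝ) (n + 1)]
      ring
    rw [e]
    refine mul_le_mul_of_nonneg_right (mul_le_mul_of_nonneg_right ?_ hX) hv0
    nlinarith [mul_nonneg (sq_nonneg (n : ℝ)) (by positivity :
      (0 : ℝ) ≤ (K + 1 : ℝ) ^ (n + 2))]
  · have e0 : eval y P - eval x P - ∑ i, (y i - x i) * eval x (pderiv i P) =
      eval y P - eval x P - ∑ i, (fun i => y i - x i) i * eval x (pderiv i P) := rfl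
    rw [e0]
    refine q5.trans ?_
    have e : n ^ 2 * ((K + 1 : ℝ) ^ (n + 2) * (B * a ^ K)) * v ^ 2 =
      (n ^ 2 * (K + 1 : ℝ) ^ (n + 2)) * (B * a ^ K) * v ^ 2 := by ring
    rw [e]
    refine mul_le_mul_of_nonneg_right (mul_le_mul_of_nonneg_right ?_ hX) (sq_nonneg v)
    nlinarith [mul_nonneg hn0 (by positivity :
      (0 : ℝ) ≤ (K + 1 : ℝ) ^ (n + 2))]

/-- The time coordinate of a walk is the sum of the lengths. -/
theorem wT_time {c : ℕ} {d : Fin c → ℕ} {i₀ : Fin c} (hd : d i₀ = 1) :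
    ∀ (N : ℕ) (ξ : Fin N → Fin c → Pl c), (∀ a, ξ a i₀ = 1) →
      wT d N ξ i₀ = ∑ a, (X a : Pl N)
  | 0, _, _ => by simp [wT]
  | N + 1, ξ, h => by
    have ih := wT_time hd N (fun a => ξ a.succ) (fun a => h a.succ)
    rw [wT, hd, Finset.sum_range_succ, Finset.sum_range_one, Fin.sum_univ_succ]
    simp only [Function.iterate_zero, id, Nat.factorial, Nat.cast_one, div_one, C_1, one_mul,
      pow_zero, pow_one, bind₁_X_right, Function.iterate_one]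
    rw [ih]
    unfold lie
    rw [mkDerivation_X, h 0, map_one, mul_one, map_sum]
    simp only [rename_X, mul_one, Nat.cast_one, div_one, C_1, one_mul]
    exact add_comm _ _

theorem eval_wT_time {c : ℕ} {d : Fin c → ℕ} {i₀ : Fin c} (hd : d i₀ = 1)
    {N : ℕ} {ξ : Fin N → Fin c → Pl c} (h : ∀ a, ξ a i₀ = 1) (s : Fin N → ℝ) :
    eval s (wT d N ξ i₀) = ∑ a, s a := by
  rw [wT_time hd N ξ h, map_sum]
  simp

theorem eval_pderiv_wT_time {c : ℕ} {d : Fin c → ℕ} {i₀ : Fin c} (hd : d i₀ = 1)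
    {N : ℕ} {ξ : Fin N → Fin c → Pl c} (h : ∀ a, ξ a i₀ = 1) (s : Fin N → ℝ) (b : Fin N) :
    eval s (pderiv b (wT d N ξ i₀)) = 1 := by
  classical
  rw [wT_time hd N ξ h, map_sum, map_sum, Finset.sum_eq_single b]
  · rw [pderiv_X_self, map_one]
  · intro a _ hab
    rw [pderiv_X_of_ne hab, map_zero]
  · intro hb
    exact absurd (Finset.mem_univ b) hb

section walk

variable {c : ℕ} {Ω G B 𝔅 𝒱 W : Type} [Fintype Ω] [Fintype W] {d : Fin c → ℕ} {j m N : ℕ}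
  {C₀ R : ℝ} {p : Ω → ℝ} {g : Ω → G} {bk : Ω → B} {β : Ω → 𝔅} {V : Ω → 𝒱} {tm : Ω → ℤ}
  {pT : Ω → Fin c → ℝ} {pN : Ω → ℝ}
  {ΘT : B → (Fin c → ℝ) → Fin c → ℝ} {FN : B → (Fin c → ℝ) → ℝ}
  {ξT : 𝒱 → 𝔅 → Fin c → Pl c} {ξN : 𝒱 → 𝔅 → Pl c} {q : W → ℝ} {z : ℕ → W → Ω}

/-- The polynomials of the walk: coordinates and height. -/
noncomputable def WP (d : Fin c → ℕ) (j N : ℕ) (β : Ω → 𝔅) (V : Ω → 𝒱)
    (ξT : 𝒱 → 𝔅 → Fin c → Pl c) (ξN : 𝒱 → 𝔅 → Pl c) (z : ℕ → W → Ω) (w : W) :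
    Fin (c + 1) → Pl N :=
  Fin.snoc (wT d N (lgT β V ξT N z w)) (wH d j N (lgT β V ξT N z w) (lgN β V ξN N z w))

/-- The coordinates of a point, and its height over the sheet. -/
def Ps (ΘT : B → (Fin c → ℝ) → Fin c → ℝ) (FN : B → (Fin c → ℝ) → ℝ) (x : B) (u : Fin c → ℝ)
    (y : ℝ) : Fin (c + 1) → ℝ := Fin.snoc (ΘT x u) (y - FN x u)

/-- The end point lies on its own block. -/
def Own (ΘT : B → (Fin c → ℝ) → Fin c → ℝ) (FN : B → (Fin c → ℝ) → ℝ) (bk : Ω → B)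
    (pT : Ω → Fin c → ℝ) (pN : Ω → ℝ) (δ : ℝ) (ω : Ω) : Prop :=
  (∀ i, |ΘT (bk ω) (pT ω) i| ≤ δ) ∧ |pN ω - FN (bk ω) (pT ω)| ≤ δ

omit [Fintype Ω] [Fintype W] in
theorem bv_last {w : W} : bv bk N z N w = bk (z (2 * N - 1) w) := by
  unfold bv
  rw [min_eq_right (by omega)]

/-- The walk, from its end point. -/
theorem walk_end {K KT : ℕ} (hK : RelC d j K) (hp : ∀ ω, 0 ≤ p ω)
    (hG : GC d j m C₀ R p g bk β V tm ΘT FN ξT ξN) {δ : ℝ} (hδ : 0 ≤ δ)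
    (hT : ∀ (R δ : ℝ), 1 ≤ R →
    0 ≤ δ → δ ≤ 1 → ∀ (ξ : Fin N → Fin c → Pl c) (b : Fin N → Pl c) (s : Fin N → ℝ)
    (u : ℕ → Fin c → ℝ) (f : ℕ → ℝ) (y : ℝ), (∀ a, VF d (ξ a)) →
    (∀ a, (b a).IsWeightedHomogeneous d (j - 1)) → (∀ a i, CB (ξ a i) R) → (∀ a, CB (b a) R) →
    (∀ a, |s a| ≤ 1) → (∀ a ≤ N, ∀ i, |u a i| ≤ R) →
    (∀ (a : Fin N) (i : Fin c), |u (a + 1) i - eval (u a) (flow d (ξ a) (-s a) i)| ≤ δ) →
    (∀ a : Fin N, |f (a + 1) - f a + eval (u a) (hfl j (ξ a) (b a) (-s a))| ≤ δ) →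
    (∀ i, |u N i| ≤ δ) → |y - f N| ≤ δ →
    (∀ i, |u 0 i - eval s (wT d N ξ i)| ≤ KT * R ^ KT * δ) ∧
    |y - f 0 - eval s (wH d j N ξ b)| ≤ KT * R ^ KT * δ)
    (hsm : K * R ^ K * (K * R ^ K * δ) ≤ 1) (h : MC p (alt g bk) (2 * N - 1) q z)
    (hpT : ∀ ω, 0 < p ω → ∀ i, |pT ω i| ≤ C₀)
    {w : W} (hw : 0 < q w) (hgw : GW d j m N C₀ p g bk β V tm ΘT FN ξT ξN z δ w)
    (hown : Own ΘT FN bk pT pN δ (z (2 * N - 1) w)) (s : Fin (c + 1)) :
    |Ps ΘT FN (bv bk N z 0 w) (pT (z (2 * N - 1) w)) (pN (z (2 * N - 1) w)) s -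
      eval (len tm m N z w) (WP d j N β V ξT ξN z w s)| ≤
      KT * R ^ KT * (K * R ^ K * (K * R ^ K * δ)) := by
  have hq := h.isLaw.nonneg
  have hL := one_le_L hK hG.one
  have hδ2 : δ ≤ K * R ^ K * (K * R ^ K * δ) := by
    have : δ ≤ K * R ^ K * δ := by nlinarith
    nlinarith
  have hE : ∀ i, |pT (z (2 * N - 1) w) i| ≤ C₀ :=
    hpT _ ((h.marg (2 * N - 1) le_rfl).pos hq hw)
  have hleg := fun (a : ℕ) (ha : a < N) => legR hK hp hG hδ hsm h hw hgw ha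
  have eT : ∀ a : Fin N, lgT β V ξT N z w a = ξT (V (z (2 * a) w)) (β (z 0 w)) := fun a => by
    unfold lgT
    rw [hG.β_const h hw (by omega)]
  have eN : ∀ a : Fin N, lgN β V ξN N z w a = ξN (V (z (2 * a) w)) (β (z 0 w)) := fun a => by
    unfold lgN
    rw [hG.β_const h hw (by omega)]
  have key := hT R (K * R ^ K * (K * R ^ K * δ)) hG.one (hδ.trans hδ2) hsm
    (lgT β V ξT N z w) (lgN β V ξN N z w) (len tm m N z w)
    (fun a => ΘT (bv bk N z a w) (pT (z (2 * N - 1) w)))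
    (fun a => FN (bv bk N z a w) (pT (z (2 * N - 1) w))) (pN (z (2 * N - 1) w))
    (fun a => hG.vf _ _) (fun a => hG.hom _ _) (fun a i => hG.vR _ _ _) (fun a => hG.hR _ _)
    (fun a => by
      rw [len_eq h hG.bk_tm hw]
      exact ln_le h hG hw a.2) (fun a _ => hG.Θ_le _ _ hE)
    (fun a i => by
      have := (hleg a a.2 _ hE).1 i
      rw [eT, len_eq h hG.bk_tm hw]
      exact this)
    (fun a => by
      have := (hleg a a.2 _ hE).2
      rw [eT, eN, len_eq h hG.bk_tm hw]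
      exact this)
    (fun i => by
      rw [bv_last]
      exact (hown.1 i).trans hδ2)
    (by
      rw [bv_last]
      exact hown.2.trans hδ2)
  unfold Ps WP
  induction s using Fin.lastCases with
  | last =>
    simp only [Fin.snoc_last]
    exact key.2
  | cast r =>
    simp only [Fin.snoc_castSucc]
    exact key.1 r

end walk

end Pool.LIV
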