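import Pool.Agent.H25.LIVE.Two
import Pool.Agent.H25.LIVE.Lin
import Pool.Agent.H84.STAT.AsmC

/-!
# Rounded times
-/

set_option autoImplicit false

namespace Pool.LIV

open Finset MvPolynomial
open Pool.Agent.H49.Ent Pool.Agent.H32.Dense Pool.STK Pool.KS3
open Pool.BFL (Pl CB Pb P2 MC alt)
open Pool.STAT
open Pool.KAF (Pr)

variable {c : ℕ} {Ω G B 𝔅 𝒱 W : Type} [Fintype Ω] [Fintype W] {d : Fin c → ℕ} {j m N γ : ℕ}
  {C₀ R : ℝ} {p : Ω → ℝ} {g : Ω → G} {bk : Ω → B} {β : Ω → 𝔅} {V : Ω → 𝒱} {tm : Ω → ℤ}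
  {pT : Ω → Fin c → ℝ} {pN : Ω → ℝ}
  {ΘT : B → (Fin c → ℝ) → Fin c → ℝ} {FN : B → (Fin c → ℝ) → ℝ}
  {ξT : 𝒱 → 𝔅 → Fin c → Pl c} {ξN : 𝒱 → 𝔅 → Pl c} {q : W → ℝ} {z : ℕ → W → Ω}

/-- The time of the vertex `a`, rounded to `γ` digits. -/
def tr (tm : Ω → ℤ) (m γ N : ℕ) (z : ℕ → W → Ω) (a : ℕ) (w : W) : ℤ :=
  tv tm N z a w / ((2 ^ (m - γ) : ℕ) : ℤ)

/-- The rounded lengths of the legs. -/
noncomputable def lh (tm : Ω → ℤ) (m γ N : ℕ) (z : ℕ → W → Ω) (w : W) (a : Fin N) : ℝ :=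
  ((tr tm m γ N z (a + 1) w - tr tm m γ N z a w : ℤ) : ℝ) / 2 ^ γ

theorem pow_split (h : γ ≤ m) : ((2 ^ (m - γ) : ℕ) : ℝ) * 2 ^ γ = 2 ^ m := by
  push_cast
  rw [← pow_add]
  congr 1
  omega

omit [Fintype Ω] [Fintype W] in
theorem tr_bd (a : ℕ) (w : W) :
    (0 : ℝ) ≤ (tv tm N z a w : ℝ) - ((2 ^ (m - γ) : ℕ) : ℝ) * tr tm m γ N z a w ∧
      (tv tm N z a w : ℝ) - ((2 ^ (m - γ) : ℕ) : ℝ) * tr tm m γ N z a w <
        ((2 ^ (m - γ) : ℕ) : ℝ) := by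
  have hD : (0 : ℤ) < ((2 ^ (m - γ) : ℕ) : ℤ) := by positivity
  have h1 := Int.emod_add_mul_ediv (tv tm N z a w) ((2 ^ (m - γ) : ℕ) : ℤ)
  have h2 := Int.emod_nonneg (tv tm N z a w) hD.ne'
  have h3 := Int.emod_lt_of_pos (tv tm N z a w) hD
  have h4 : (tv tm N z a w : ℤ) - ((2 ^ (m - γ) : ℕ) : ℤ) * tr tm m γ N z a w =
      tv tm N z a w % ((2 ^ (m - γ) : ℕ) : ℤ) := by
    unfold tr
    linarith
  have h5 : (tv tm N z a w : ℝ) - ((2 ^ (m - γ) : ℕ) : ℝ) * tr tm m γ N z a w =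
      ((tv tm N z a w % ((2 ^ (m - γ) : ℕ) : ℤ) : ℤ) : ℝ) := by
    rw [← h4]
    push_cast
    ring
  rw [h5]
  refine ⟨by exact_mod_cast h2, ?_⟩
  have : ((tv tm N z a w % ((2 ^ (m - γ) : ℕ) : ℤ) : ℤ) : ℝ) < (((2 ^ (m - γ) : ℕ) : ℤ) : ℝ) := by
    exact_mod_cast h3
  exact_mod_cast this

omit [Fintype Ω] [Fintype W] in
theorem ln_lh (hγ : γ ≤ m) (a : Fin N) (w : W) :
    |ln tm m N z a w - lh tm m γ N z w a| ≤ 1 / 2 ^ γ := by
  obtain ⟨a1, a2⟩ := tr_bd (m := m) (γ := γ) (N := N) (z := z) (tm := tm) a w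
  obtain ⟨b1, b2⟩ := tr_bd (m := m) (γ := γ) (N := N) (z := z) (tm := tm) (a + 1) w
  have h2γ : (0 : ℝ) < 2 ^ γ := by positivity
  have h2D : (0 : ℝ) < ((2 ^ (m - γ) : ℕ) : ℝ) := by positivity
  have e := pow_split hγ
  unfold ln lh
  have e2 : ((tv tm N z (a + 1) w - tv tm N z a w : ℤ) : ℝ) / 2 ^ m -
      ((tr tm m γ N z (a + 1) w - tr tm m γ N z a w : ℤ) : ℝ) / 2 ^ γ =
      (((tv tm N z (a + 1) w : ℝ) - ((2 ^ (m - γ) : ℕ) : ℝ) * tr tm m γ N z (a + 1) w) -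
        ((tv tm N z a w : ℝ) - ((2 ^ (m - γ) : ℕ) : ℝ) * tr tm m γ N z a w)) /
        (((2 ^ (m - γ) : ℕ) : ℝ) * 2 ^ γ) := by
    rw [← e]
    push_cast
    field_simp
    ring
  rw [e2, abs_div, abs_of_pos (by positivity : (0 : ℝ) < ((2 ^ (m - γ) : ℕ) : ℝ) * 2 ^ γ),
    div_le_div_iff₀ (by positivity) h2γ]
  have h3 : |((tv tm N z (a + 1) w : ℝ) - ((2 ^ (m - γ) : ℕ) : ℝ) * tr tm m γ N z (a + 1) w) -
        ((tv tm N z a w : ℝ) - ((2 ^ (m - γ) : ℕ) : ℝ) * tr tm m γ N z a w)| ≤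
      ((2 ^ (m - γ) : ℕ) : ℝ) := by
    rw [abs_le]
    constructor <;> linarith
  rw [one_mul]
  exact mul_le_mul_of_nonneg_right h3 h2γ.le

theorem lh_le (h : MC p (alt g bk) (2 * N - 1) q z)
    (hG : GC d j m C₀ R p g bk β V tm ΘT FN ξT ξN) (hγ : γ ≤ m) {w : W} (hw : 0 < q w)
    (a : Fin N) : |lh tm m γ N z w a| ≤ 2 := by
  have h1 := ln_lh (tm := tm) (z := z) hγ a w
  have h2 := ln_le h hG hw a.2
  have h3 : (1 : ℝ) / 2 ^ γ ≤ 1 := by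
    rw [div_le_one (by positivity)]
    exact one_le_pow₀ (by norm_num)
  have h4 := abs_sub (ln tm m N z a w) (ln tm m N z a w - lh tm m γ N z w a)
  rw [sub_sub_cancel] at h4
  linarith

omit [Fintype Ω] [Fintype W] in
/-- The displacement of a time with the same rounding. -/
theorem dti_le (hγ : γ ≤ m) {i : ℕ} {w w' : W} (h : tr tm m γ N z i w = tr tm m γ N z i w') :
    |dti tm m N z i w w'| ≤ 1 / 2 ^ γ := by
  obtain ⟨a1, a2⟩ := tr_bd (m := m) (γ := γ) (N := N) (z := z) (tm := tm) i w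
  obtain ⟨b1, b2⟩ := tr_bd (m := m) (γ := γ) (N := N) (z := z) (tm := tm) i w'
  rw [← h] at b1 b2
  have h2γ : (0 : ℝ) < 2 ^ γ := by positivity
  have h2D : (0 : ℝ) < ((2 ^ (m - γ) : ℕ) : ℝ) := by positivity
  unfold dti
  rw [← pow_split hγ, abs_div, abs_of_pos (by positivity :
    (0 : ℝ) < ((2 ^ (m - γ) : ℕ) : ℝ) * 2 ^ γ), div_le_div_iff₀ (by positivity) h2γ, one_mul]
  refine mul_le_mul_of_nonneg_right ?_ h2γ.le
  rw [Int.cast_sub, abs_le]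
  constructor <;> linarith

/-- The gradients at the rounded lengths. -/
theorem QW_near {CW DW : ℕ} {MW B₂ : ℝ} (hCW : PBC N DW CW) (hMW : MW = CW * (B₂ * 2 ^ DW))
    (h : MC p (alt g bk) (2 * N - 1) q z)
    (hG : GC d j m C₀ R p g bk β V tm ΘT FN ξT ξN) (hγ : γ ≤ m) {w : W} (hw : 0 < q w)
    (hWP : ∀ s, (WP d j N β V ξT ξN z w s).totalDegree ≤ DW ∧
      CB (WP d j N β V ξT ξN z w s) B₂) (r : Fin (c + 1)) (a : Fin N) :
    |QW d j N β V ξT ξN z (len tm m N z w) w r a - QW d j N β V ξT ξN z (lh tm m γ N z w) w r a| ≤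
      MW * (1 / 2 ^ γ) ∧ |QW d j N β V ξT ξN z (lh tm m γ N z w) w r a| ≤ MW := by
  have h1 : ∀ a, |len tm m N z w a| ≤ 2 := fun a => by
    rw [len_eq h hG.bk_tm hw]
    exact (ln_le h hG hw a.2).trans one_le_two
  have h2 : ∀ a, |lh tm m γ N z w a| ≤ 2 := lh_le h hG hγ hw
  have h3 : ∀ a, |len tm m N z w a - lh tm m γ N z w a| ≤ 1 / 2 ^ γ := fun a => by
    rw [len_eq h hG.bk_tm hw]
    exact ln_lh hγ a w
  have key := hCW.2 _ B₂ 2 (hWP r).1 (hWP r).2 one_le_two (lh tm m γ N z w) (len tm m N z w) h2 h1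
    (1 / 2 ^ γ) (by positivity) h3
  rw [← hMW] at key
  exact ⟨key.2.2.2.1 a, key.2.1 a⟩

omit [Fintype Ω] [Fintype W] in
theorem vd_near {Q Q' : Fin (c + 1) → Fin N → ℝ} {e : ℝ} (he : 0 ≤ e)
    (h : ∀ r a, |Q r a - Q' r a| ≤ e) (a : Fin N) (s : Fin (c + 1)) :
    |vd Q a s - vd Q' a s| ≤ 2 * e := by
  unfold vd
  split_ifs with h1
  · have e1 : Q s ⟨a - 1, by omega⟩ - Q s a - (Q' s ⟨a - 1, by omega⟩ - Q' s a) =
      (Q s ⟨a - 1, by omega⟩ - Q' s ⟨a - 1, by omega⟩) - (Q s a - Q' s a) := by ring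
    rw [e1]
    refine (abs_sub _ _).trans ?_
    have := h s ⟨a - 1, by omega⟩
    have := h s a
    linarith
  · rw [sub_self, abs_zero]
    positivity

theorem vd_le {Q : Fin (c + 1) → Fin N → ℝ} {M : ℝ} (hM : 0 ≤ M)
    (h : ∀ r a, |Q r a| ≤ M) (a : Fin N) (s : Fin (c + 1)) : |vd Q a s| ≤ 2 * M := by
  unfold vd
  split_ifs with h1
  · refine (abs_sub _ _).trans ?_
    have := h s ⟨a - 1, by omega⟩
    have := h s a
    linarith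
  · rw [abs_zero]
    positivity

omit [Fintype Ω] [Fintype W] in
/-- The minors are the determinants of the gradients. -/
theorem minA_eq (s : Fin N → ℝ) (w : W) (e : Fin (c + 1) → Fin N) :
    eval s (minA d j (lgT β V ξT N z w) (lgN β V ξN N z w) e) =
      Matrix.det (Matrix.of fun r k => QW d j N β V ξT ξN z s w r (e k)) := by
  unfold minA
  rw [RingHom.map_det]
  rfl

end Pool.LIV
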