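import Pool.Agent.H25.LIVE.Core
import Pool.Agent.H25.LIVE.Pbd
import Pool.Agent.H31.STAT.Trw
import Pool.Agent.H63.STAT.Flw4
import Pool.Agent.H87.STAT.Flw2
import Pool.Agent.H65.STAT.Flw3
import Pool.Agent.H6.STAT.Flw
import Pool.Agent.H84.STAT.AsmC

/-!
# The live core (A): the theorem
-/

set_option autoImplicit false

namespace Pool.LIV

open Finset MvPolynomial
open Pool.Agent.H49.Ent Pool.Agent.H32.Dense Pool.STK Pool.KS3 Pool.OC.RS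
open Pool.BFL (Pl CB Pb P2 MC alt)
open Pool.STAT
open Pool.KAF (Pr Pr_eq)

/-- The numbers: all the functions of `R = exp (τ U)` are bounded by one power. -/
theorem nums (c D N s K KT K2 CJ CW CM DW DM KM₂ : ℕ) (C₀ KM₁ : ℝ) (hC₀ : 0 ≤ C₀) (hKM : 0 ≤ KM₁) :
    ∃ n : ℕ, 1 ≤ n ∧ ∀ R : ℝ, 1 ≤ R → ∀ L MJ MW Ai eE e T : ℝ, L = K * R ^ K →
      MJ = CJ * (R * C₀ ^ D) → MW = CW * ((K2 * R ^ K2 + 1) * 2 ^ DW) →
      Ai = c.factorial * (2 * MW) ^ c * (2 * (N : ℝ) ^ c) → eE = L ^ N * (L * (L * R)) →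
      e = 2 * (KT * R ^ KT * (L * (L * R))) + L ^ N * (L * (L * (L * R))) →
      T = 20 * MJ * R ^ 2 * MW ^ 2 →
      c * (c * (Ai * (MJ + 1)) * (2 * R)) ≤ n * R ^ n ∧
      c * (c * (Ai * (MJ + 1)) * (6 * R ^ 2 * eE)) ≤ n * R ^ n ∧
      c * (Ai * (T + 9 * c * R ^ 2 * MW + 2 * MW)) * 2 ^ s ≤ n * R ^ n ∧
      c * (Ai * ((T + 3 * c * R ^ 2) * e)) ≤ n * R ^ n ∧
      e ≤ n * R ^ n ∧ 2 * (CM * (KM₁ * R ^ KM₂ * 2 ^ DM)) ≤ n * R ^ n ∧ 9 * MJ ≤ n * R ^ n := by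
  have pL : PBd fun R => K * R ^ K := (PBd.nat K).mul (PBd.id.pow K)
  have pMJ : PBd fun R => CJ * (R * C₀ ^ D) :=
    (PBd.nat CJ).mul (PBd.id.mul (PBd.const (by positivity)))
  have pMW : PBd fun R => CW * ((K2 * R ^ K2 + 1) * 2 ^ DW) :=
    (PBd.nat CW).mul ((((PBd.nat K2).mul (PBd.id.pow K2)).add (PBd.const zero_le_one)).mul
      (PBd.const (by positivity)))
  have pAi : PBd fun R => c.factorial * (2 * (CW * ((K2 * R ^ K2 + 1) * 2 ^ DW))) ^ c *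
      (2 * (N : ℝ) ^ c) :=
    ((PBd.nat c.factorial).mul (((PBd.const (by norm_num : (0 : ℝ) ≤ 2)).mul pMW).pow c)).mul
      (PBd.const (by positivity))
  have peE : PBd fun R => (K * R ^ K) ^ N * (K * R ^ K * (K * R ^ K * R)) :=
    (pL.pow N).mul (pL.mul (pL.mul PBd.id))
  have pe : PBd fun R => 2 * (KT * R ^ KT * (K * R ^ K * (K * R ^ K * R))) +
      (K * R ^ K) ^ N * (K * R ^ K * (K * R ^ K * (K * R ^ K * R))) :=
    ((PBd.const (by norm_num : (0 : ℝ) ≤ 2)).mul (((PBd.nat KT).mul (PBd.id.pow KT)).mul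
      (pL.mul (pL.mul PBd.id)))).add ((pL.pow N).mul (pL.mul (pL.mul (pL.mul PBd.id))))
  have pT : PBd fun R => 20 * (CJ * (R * C₀ ^ D)) * R ^ 2 *
      (CW * ((K2 * R ^ K2 + 1) * 2 ^ DW)) ^ 2 :=
    (((PBd.const (by norm_num : (0 : ℝ) ≤ 20)).mul pMJ).mul (PBd.id.pow 2)).mul (pMW.pow 2)
  have p1 := (PBd.nat c).mul (((PBd.nat c).mul (pAi.mul (pMJ.add (PBd.const zero_le_one)))).mul
    ((PBd.const (by norm_num : (0 : ℝ) ≤ 2)).mul PBd.id))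
  have p2 := (PBd.nat c).mul (((PBd.nat c).mul (pAi.mul (pMJ.add (PBd.const zero_le_one)))).mul
    (((PBd.const (by norm_num : (0 : ℝ) ≤ 6)).mul (PBd.id.pow 2)).mul peE))
  have p3 := ((PBd.nat c).mul (pAi.mul ((pT.add (((PBd.const (by positivity :
    (0 : ℝ) ≤ 9 * (c : ℝ))).mul (PBd.id.pow 2)).mul pMW)).add
      ((PBd.const (by norm_num : (0 : ℝ) ≤ 2)).mul pMW)))).mul
    (PBd.const (by positivity : (0 : ℝ) ≤ 2 ^ s))
  have p4 := (PBd.nat c).mul (pAi.mul ((pT.add ((PBd.const (by positivity :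
    (0 : ℝ) ≤ 3 * (c : ℝ))).mul (PBd.id.pow 2))).mul pe))
  have p6 := (PBd.const (by norm_num : (0 : ℝ) ≤ 2)).mul ((PBd.nat CM).mul
    (((PBd.const hKM).mul (PBd.id.pow KM₂)).mul (PBd.const (by positivity : (0 : ℝ) ≤ 2 ^ DM))))
  have p7 := (PBd.const (by norm_num : (0 : ℝ) ≤ 9)).mul pMJ
  obtain ⟨n, hn1, hn⟩ := (p1.add (p2.add (p3.add (p4.add (pe.add (p6.add p7)))))).le
  refine ⟨n, hn1, ?_⟩
  intro R hR L MJ MW Ai eE e T hL hMJ hMW hAi heE he hT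
  have key := hn R hR
  have k1 := p1.nonneg hR
  have k2 := p2.nonneg hR
  have k3 := p3.nonneg hR
  have k4 := p4.nonneg hR
  have k5 := pe.nonneg hR
  have k6 := p6.nonneg hR
  have k7 := p7.nonneg hR
  subst hL hMJ hMW hAi heE he hT
  refine ⟨?_, ?_, ?_, ?_, ?_, ?_, ?_⟩ <;> linarith

/-- The parameters. -/
theorem pars (c N n X₀ : ℕ) (δ ε : ℝ) (hδ : 0 < δ) (hε : 0 < ε) (hn : 1 ≤ n) :
    ∃ (κ τ : ℝ), 0 < κ ∧ 0 < τ ∧ (8 * N + 2) * τ ≤ δ ∧ ∃ U₀ : ℕ, ∀ U : ℕ, U₀ ≤ U →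
      ∃ γ X : ℕ, γ + X = U ∧ X₀ ≤ X ∧ (γ : ℝ) ≤ ε * U ∧
        n * Real.exp (τ * U) ^ n * Real.exp (κ * U) ≤ 2 ^ γ ∧
        ∀ MJ : ℝ, 1 ≤ MJ → 9 * MJ ≤ n * Real.exp (τ * U) ^ n →
          2 * N * (τ * U) + (((c * c : ℕ) : ℝ) + 1) * Real.log (9 * MJ * 2 ^ γ) ≤ δ * X := by
  have hl2 : 0 < Real.log 2 := Real.log_pos (by norm_num)
  have hl21 : Real.log 2 ≤ 1 := by
    have := Real.log_two_lt_d9
    linarith
  have hn0 : (1 : ℝ) ≤ n := by exact_mod_cast hn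
  have hln : 0 ≤ Real.log n := Real.log_nonneg hn0
  have hcc : (0 : ℝ) ≤ ((c * c : ℕ) : ℝ) := Nat.cast_nonneg _
  have hNn : (0 : ℝ) ≤ N := Nat.cast_nonneg _
  obtain ⟨C, hC⟩ : ∃ C : ℝ, C = ((c * c : ℕ) : ℝ) + 1 := ⟨_, rfl⟩
  have hC1 : 1 ≤ C := by
    rw [hC]
    linarith
  obtain ⟨ρ, hρ⟩ : ∃ ρ : ℝ, ρ = min (1 / 4) (min (ε / 2) (δ / (16 * C))) := ⟨_, rfl⟩
  have hρ0 : 0 < ρ := by
    rw [hρ]
    exact lt_min (by norm_num) (lt_min (by positivity) (by positivity))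
  have hρ1 : ρ ≤ 1 / 4 := by
    rw [hρ]
    exact min_le_left _ _
  have hρ2 : ρ ≤ ε / 2 := by
    rw [hρ]
    exact (min_le_right _ _).trans (min_le_left _ _)
  have hρ3 : 16 * (C * ρ) ≤ δ := by
    have h : ρ ≤ δ / (16 * C) := by
      rw [hρ]
      exact (min_le_right _ _).trans (min_le_right _ _)
    rw [le_div_iff₀ (by positivity)] at h
    linarith
  obtain ⟨τ, hτ⟩ : ∃ τ : ℝ, τ = min (ρ * Real.log 2 / (4 * n))
      (min (δ / (8 * (2 * N + C * n))) (δ / (8 * N + 2))) := ⟨_, rfl⟩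
  have hτ0 : 0 < τ := by
    rw [hτ]
    exact lt_min (by positivity) (lt_min (by positivity) (by positivity))
  have hτ1 : 4 * (n * τ) ≤ ρ * Real.log 2 := by
    have h : τ ≤ ρ * Real.log 2 / (4 * n) := by
      rw [hτ]
      exact min_le_left _ _
    rw [le_div_iff₀ (by positivity)] at h
    linarith
  have hτ2 : 8 * ((2 * N + C * n) * τ) ≤ δ := by
    have h : τ ≤ δ / (8 * (2 * N + C * n)) := by
      rw [hτ]
      exact (min_le_right _ _).trans (min_le_left _ _)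
    rw [le_div_iff₀ (by positivity)] at h
    linarith
  have hτ3 : (8 * N + 2) * τ ≤ δ := by
    have h : τ ≤ δ / (8 * N + 2) := by
      rw [hτ]
      exact (min_le_right _ _).trans (min_le_right _ _)
    rw [le_div_iff₀ (by positivity)] at h
    linarith
  refine ⟨ρ * Real.log 2 / 4, τ, by positivity, hτ0, hτ3,
    ⌈1 / ρ⌉₊ + 2 * X₀ + ⌈2 * Real.log n / (ρ * Real.log 2)⌉₊ + ⌈8 * C * Real.log n / δ⌉₊, ?_⟩
  intro U hU
  have u1 : 1 ≤ ρ * U := by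
    have h1 : 1 / ρ ≤ (⌈1 / ρ⌉₊ : ℝ) := Nat.le_ceil _
    have h2 : (⌈1 / ρ⌉₊ : ℝ) ≤ U := by exact_mod_cast (by omega : ⌈1 / ρ⌉₊ ≤ U)
    have h3 := h1.trans h2
    rw [div_le_iff₀ hρ0] at h3
    linarith
  have u2 : 2 * (X₀ : ℝ) ≤ U := by exact_mod_cast (by omega : 2 * X₀ ≤ U)
  have u3 : 2 * Real.log n ≤ ρ * Real.log 2 * U := by
    have h1 := Nat.le_ceil (2 * Real.log n / (ρ * Real.log 2))
    have h2 : (⌈2 * Real.log n / (ρ * Real.log 2)⌉₊ : ℝ) ≤ U := by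
      exact_mod_cast (by omega : ⌈2 * Real.log n / (ρ * Real.log 2)⌉₊ ≤ U)
    have h3 := h1.trans h2
    rw [div_le_iff₀ (by positivity)] at h3
    linarith
  have u4 : 8 * (C * Real.log n) ≤ δ * U := by
    have h1 := Nat.le_ceil (8 * C * Real.log n / δ)
    have h2 : (⌈8 * C * Real.log n / δ⌉₊ : ℝ) ≤ U := by
      exact_mod_cast (by omega : ⌈8 * C * Real.log n / δ⌉₊ ≤ U)
    have h3 := h1.trans h2
    rw [div_le_iff₀ hδ] at h3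
    linarith
  have hU0 : (0 : ℝ) ≤ U := Nat.cast_nonneg _
  have g1 : ρ * U ≤ (⌈ρ * U⌉₊ : ℝ) := Nat.le_ceil _
  have g2 : (⌈ρ * U⌉₊ : ℝ) ≤ 2 * (ρ * U) := by
    have := (Nat.ceil_lt_add_one (show 0 ≤ ρ * U by positivity)).le
    linarith
  have g3 : (⌈ρ * U⌉₊ : ℝ) ≤ U / 2 := by
    have := mul_le_mul_of_nonneg_right hρ1 hU0
    linarith only [this, g2]
  have g4 : ⌈ρ * U⌉₊ ≤ U := by
    have : (⌈ρ * U⌉₊ : ℝ) ≤ U := by linarith
    exact_mod_cast this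
  have g5 : ((U - ⌈ρ * U⌉₊ : ℕ) : ℝ) = U - ⌈ρ * U⌉₊ := by
    rw [Nat.cast_sub g4]
  have key : n * Real.exp (τ * U) ^ n * Real.exp (ρ * Real.log 2 / 4 * U) ≤
      (2 : ℝ) ^ ⌈ρ * U⌉₊ := by
    have e1 : (n : ℝ) * Real.exp (τ * U) ^ n * Real.exp (ρ * Real.log 2 / 4 * U) =
        Real.exp (Real.log n + n * (τ * U) + ρ * Real.log 2 / 4 * U) := by
      rw [Real.exp_add, Real.exp_add, Real.exp_log (by linarith), ← Real.exp_nat_mul]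
    have e2 : (2 : ℝ) ^ ⌈ρ * U⌉₊ = Real.exp (⌈ρ * U⌉₊ * Real.log 2) := by
      rw [Real.exp_nat_mul, Real.exp_log (by norm_num)]
    rw [e1, e2]
    refine Real.exp_le_exp.mpr ?_
    have h1 : 4 * (n * τ) * U ≤ ρ * Real.log 2 * U := mul_le_mul_of_nonneg_right hτ1 hU0
    have h2 : ρ * U * Real.log 2 ≤ ⌈ρ * U⌉₊ * Real.log 2 := mul_le_mul_of_nonneg_right g1 hl2.le
    linarith
  refine ⟨⌈ρ * U⌉₊, U - ⌈ρ * U⌉₊, by omega, ?_, ?_, key, ?_⟩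
  · have : (X₀ : ℝ) ≤ ((U - ⌈ρ * U⌉₊ : ℕ) : ℝ) := by
      rw [g5]
      linarith
    exact_mod_cast this
  · have : 2 * (ρ * U) ≤ ε * U := by
      have := mul_le_mul_of_nonneg_right hρ2 hU0
      linarith
    linarith
  · intro MJ hMJ1 hMJ
    rw [← hC, g5]
    have e1 : Real.log (9 * MJ * 2 ^ ⌈ρ * U⌉₊) = Real.log (9 * MJ) + ⌈ρ * U⌉₊ * Real.log 2 := by
      rw [Real.log_mul (by positivity) (by positivity), Real.log_pow]
    have e2 : Real.log (9 * MJ) ≤ Real.log n + n * (τ * U) := by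
      refine (Real.log_le_log (by positivity) hMJ).trans (le_of_eq ?_)
      rw [Real.log_mul (by positivity) (by positivity), Real.log_pow, Real.log_exp]
    have e3 : (⌈ρ * U⌉₊ : ℝ) * Real.log 2 ≤ 2 * (ρ * U) := by
      have : (⌈ρ * U⌉₊ : ℝ) * Real.log 2 ≤ ⌈ρ * U⌉₊ * 1 :=
        mul_le_mul_of_nonneg_left hl21 (Nat.cast_nonneg _)
      linarith
    have e4 : C * Real.log (9 * MJ * 2 ^ ⌈ρ * U⌉₊) ≤
        C * (Real.log n + n * (τ * U) + 2 * (ρ * U)) := by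
      refine mul_le_mul_of_nonneg_left ?_ (by linarith)
      rw [e1]
      linarith
    have e5 : 16 * (C * ρ) * U ≤ δ * U := mul_le_mul_of_nonneg_right hρ3 hU0
    have e6 : 8 * ((2 * N + C * n) * τ) * U ≤ δ * U := mul_le_mul_of_nonneg_right hτ2 hU0
    have e7 : δ * ⌈ρ * U⌉₊ ≤ δ * (U / 2) := mul_le_mul_of_nonneg_left g3 hδ.le
    have e8 : 0 ≤ δ * U := mul_nonneg hδ.le hU0
    linarith only [e4, e5, e6, e7, e8, u4]

/-- **(A) FULL.** -/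
theorem lful_thm : LFulEStmt := by
  classical
  intro c j D N k d i₀ C₀ a ε hN hC₀ ha hε
  by_cases hdj : (∀ i, 1 ≤ d i) ∧ 1 ≤ j
  swap
  · refine ⟨1, 1, one_pos, one_pos, 0, ?_⟩
    intro U m _ _ Ω G B 𝔅 𝒱 _ p g bk β V tm pT pN ΘT FN ξT ξN Dd hLC
    exact absurd ⟨hLC.d_pos, hLC.j_pos⟩ hdj
  obtain ⟨hd, hj⟩ := hdj
  obtain ⟨K, hK⟩ := exists_relC c j d hd hj
  obtain ⟨KT, hKT⟩ := trw_of flw3_thm flw4_thm flw5_thm c j N d hd hj
  obtain ⟨K2, hK2⟩ := flw2_thm c j N d hd hj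
  obtain ⟨CJ, hCJ1, hCJ⟩ := poly_bounds c D
  obtain ⟨DW, hDW⟩ : ∃ DW : ℕ, DW = (∑ i, d i) + j := ⟨_, rfl⟩
  obtain ⟨CW, hCW1, hCW⟩ := poly_bounds N DW
  obtain ⟨DM, KM₁, KM₂, hKM₁, hM⟩ := minA_bound flw1_thm flw2_thm c j N d hd hj
  obtain ⟨CM, hCM1, hCM⟩ := poly_bounds N DM
  obtain ⟨δ, s, X₀, hδ, hMV⟩ := mv_thm c N k a (ε / 4) ha (by positivity)
  obtain ⟨n, hn1, hn⟩ := nums c D N s K KT K2 CJ CW CM DW DM KM₂ C₀ KM₁ (by linarith)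
    (by linarith)
  obtain ⟨κ, τ, hκ, hτ, hτN, U₀, hU₀⟩ := pars c N n X₀ δ (ε / 2) hδ (by positivity) hn1
  refine ⟨κ, τ, hκ, hτ, U₀, ?_⟩
  intro U m hU hm Ω G B 𝔅 𝒱 _ p g bk β V tm pT pN ΘT FN ξT ξN Dd hLC hDd W _ q z h
  obtain ⟨γ, X, hγX, hX₀, hγε, hkey, hN4⟩ := hU₀ U hU
  have hθ : 0 ≤ τ * U := by positivity
  obtain ⟨R, hR⟩ : ∃ R : ℝ, R = Real.exp (τ * U) := ⟨_, rfl⟩
  have hR1 : 1 ≤ R := by
    rw [hR]
    exact Real.one_le_exp hθ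
  obtain ⟨E, hE⟩ : ∃ E : ℝ, E = Real.exp (κ * U) := ⟨_, rfl⟩
  have hE1 : 1 ≤ E := by
    rw [hE]
    exact Real.one_le_exp (by positivity)
  have hEi : Real.exp (-(κ * U)) * E = 1 := by
    rw [hE, ← Real.exp_add]
    simp
  obtain ⟨MJ, hMJ⟩ : ∃ MJ : ℝ, MJ = CJ * (R * C₀ ^ D) := ⟨_, rfl⟩
  obtain ⟨MW, hMW⟩ : ∃ MW : ℝ, MW = CW * ((K2 * R ^ K2 + 1) * 2 ^ DW) := ⟨_, rfl⟩
  obtain ⟨Ai, hAi⟩ : ∃ Ai : ℝ, Ai = c.factorial * (2 * MW) ^ c * (2 * (N : ℝ) ^ c) := ⟨_, rfl⟩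
  obtain ⟨L, hL⟩ : ∃ L : ℝ, L = K * R ^ K := ⟨_, rfl⟩
  obtain ⟨eE, heE⟩ : ∃ eE : ℝ, eE = L ^ N * (L * (L * R)) := ⟨_, rfl⟩
  obtain ⟨e, he⟩ : ∃ e : ℝ, e = 2 * (KT * R ^ KT * (L * (L * R))) +
    L ^ N * (L * (L * (L * R))) := ⟨_, rfl⟩
  obtain ⟨T, hT⟩ : ∃ T : ℝ, T = 20 * MJ * R ^ 2 * MW ^ 2 := ⟨_, rfl⟩
  obtain ⟨n1, n2, n3, n4, n5, n6, n7⟩ := hn R hR1 L MJ MW Ai eE e T hL hMJ hMW hAi heE he hT
  have hN0 : (0 : ℝ) < N := by exact_mod_cast (by omega : 0 < N)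
  have hNc : (0 : ℝ) < (N : ℝ) ^ c := by positivity
  have hMW1 : 1 ≤ MW := by
    rw [hMW]
    have k1 : (1 : ℝ) ≤ CW := by exact_mod_cast hCW1
    have k2 : (0 : ℝ) ≤ K2 * R ^ K2 := by positivity
    have k3 : (1 : ℝ) ≤ 2 ^ DW := one_le_pow₀ one_le_two
    exact one_le_mul_of_one_le_of_one_le k1
      (one_le_mul_of_one_le_of_one_le (by linarith only [k2]) k3)
  have hMJ1 : 1 ≤ MJ := by
    rw [hMJ]
    have k1 : (1 : ℝ) ≤ CJ := by exact_mod_cast hCJ1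
    have k2 : (1 : ℝ) ≤ C₀ ^ D := one_le_pow₀ hC₀
    exact one_le_mul_of_one_le_of_one_le k1 (one_le_mul_of_one_le_of_one_le hR1 k2)
  rw [← hR, ← hE] at hkey
  have hU2 : (2 : ℝ) ^ X * 2 ^ γ = 2 ^ U := by
    rw [← pow_add, add_comm, hγX]
  have h2U : (0 : ℝ) < 2 ^ U := by positivity
  have h2γ : (0 : ℝ) < 2 ^ γ := by positivity
  have h2X : (0 : ℝ) < 2 ^ X := by positivity
  have hnR : 0 ≤ (n : ℝ) * R ^ n := by positivity
  have hfull : ∀ x : ℝ, x ≤ n * R ^ n → x * E ≤ 2 ^ γ := fun x hx =>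
    (mul_le_mul_of_nonneg_right hx (by linarith)).trans hkey
  have hnE : (n : ℝ) * R ^ n ≤ 2 ^ γ := (le_mul_of_one_le_right hnR hE1).trans hkey
  have hsmall : ∀ x : ℝ, x ≤ n * R ^ n → 2 ^ X * (x * E / 2 ^ U) ≤ 1 := by
    intro x hx
    rw [← mul_div_assoc, div_le_one h2U, ← hU2]
    exact mul_le_mul_of_nonneg_left (hfull x hx) h2X.le
  have hAiE : c.factorial * (2 * MW) ^ c / (Real.exp (-(κ * U)) / (2 * (N : ℝ) ^ c)) =
      Ai * E := by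
    rw [hAi, div_div_eq_mul_div, div_eq_iff (Real.exp_pos _).ne']
    have : c.factorial * (2 * MW) ^ c * (2 * (N : ℝ) ^ c) * E * Real.exp (-(κ * U)) =
        c.factorial * (2 * MW) ^ c * (2 * (N : ℝ) ^ c) * (Real.exp (-(κ * U)) * E) := by ring
    rw [this, hEi, mul_one]
  obtain ⟨A, hA1, hA2, hA3⟩ := ful_core (c := c) (d := d) (j := j) (m := m) (N := N) (γ := γ)
    (C₀ := C₀) (p := p) (g := g) (bk := bk) (β := β) (V := V) (tm := tm) (pT := pT) (pN := pN)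
    (ΘT := ΘT) (FN := FN) (ξT := ξT) (ξN := ξN) (q := q) (z := z)
    (K := K) (KT := KT) (CJ := CJ) (CW := CW) (DW := DW) (D := D) (CM := CM) (DM := DM) (U := U)
    (X := X) (s := s) (k' := k) (MJ := MJ) (MW := MW) (B₂ := K2 * R ^ K2 + 1)
    (B₃ := KM₁ * R ^ KM₂) (ε := e / 2 ^ U) (εE := eE / 2 ^ U) (Ai := Ai * E)
    (κE := Real.exp (-(κ * U))) (κ₂ := Real.exp (-(κ * U)) / (2 * (N : ℝ) ^ c)) (θ := τ * U)
    (η := τ) (a := a) (ε' := ε / 4) (i₀ := i₀) hN hθ hC₀ hLC hK hKT ⟨hCJ1, hCJ⟩ ⟨hCW1, hCW⟩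
    ⟨hCM1, hCM⟩
    (fun dm hOK hG hXd hI D' hD' S hS0 hS => by
      have hX' : ((dm.X : ℕ) : ℝ) = X := by rw [hXd]
      exact hMV dm hOK (by rw [hXd]; exact hX₀) (hG.trans hτN) (fun i hi => by
        rw [hX']
        have hb := hN4 MJ hMJ1 (by rw [← hR]; exact n7)
        obtain ⟨i1, i2, i3⟩ := hI i hi
        exact ⟨i1.trans hb, i2.trans hb, i3.trans hb⟩) D' hD' S hS0 hS)
    (fun ξ b hξ hb hξR hbR s => by
      rw [← hR] at hξR hbR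
      obtain ⟨a1, a2⟩ := flw1_thm c j N d ξ b hd hj hξ hb
      obtain ⟨b1, b2⟩ := hK2 R hR1 ξ b hξ hb hξR hbR
      have hle : (K2 : ℝ) * R ^ K2 ≤ K2 * R ^ K2 + 1 := by linarith
      refine Fin.lastCases ?_ (fun i => ?_) s
      · rw [Fin.snoc_last]
        exact ⟨(a2.totalDegree_le).trans (by omega), Pool.STAT84.CB.mono84 b2 hle⟩
      · rw [Fin.snoc_castSucc]
        refine ⟨((a1 i).totalDegree_le).trans ?_, Pool.STAT84.CB.mono84 (b1 i) hle⟩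
        have := single_le_sum (f := d) (fun _ _ => Nat.zero_le _) (mem_univ i)
        omega)
    (fun ξ b hξ hb hξR hbR e => by
      rw [← hR] at hξR hbR
      exact hM R hR1 ξ b hξ hb hξR hbR e)
    (by rw [← hR]; exact hMJ) hMW hMW1 (by positivity)
    (by
      have := hLC.m_ge
      omega) (by omega)
    (by
      rw [← hR, ← hL, he]
      field_simp)
    (by
      rw [div_le_one h2U, ← hU2]
      have : (1 : ℝ) ≤ 2 ^ X := one_le_pow₀ one_le_two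
      exact (n5.trans hnE).trans (le_mul_of_one_le_left h2γ.le this))
    (by
      rw [← hR, ← hL, heE]
      field_simp)
    hAiE.symm (by positivity)
    (by
      rw [mul_div_cancel₀ _ (by positivity)])
    (by
      rw [← hR, ← hU2]
      refine mul_le_mul_of_nonneg_left ?_ h2X.le
      refine le_trans (le_of_eq ?_) (hfull _ n1)
      ring)
    (by
      rw [← hR]
      refine le_trans (le_of_eq ?_) (hsmall _ n2)
      ring)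
    (by
      rw [← hR, ← hT]
      refine le_trans (le_of_eq ?_) (hfull _ n3)
      ring)
    (by
      rw [← hR, ← hT]
      refine le_trans (le_of_eq ?_) (hsmall _ n4)
      ring)
    (by
      have h1 := hfull _ n6
      rw [mul_one_div, div_le_div_iff₀ h2γ two_pos]
      have h3 : 2 * (CM * (KM₁ * R ^ KM₂ * 2 ^ DM)) * E * Real.exp (-(κ * U)) ≤
          2 ^ γ * Real.exp (-(κ * U)) := mul_le_mul_of_nonneg_right h1 (Real.exp_pos _).le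
      have h4 : 2 * (CM * (KM₁ * R ^ KM₂ * 2 ^ DM)) * E * Real.exp (-(κ * U)) =
          2 * (CM * (KM₁ * R ^ KM₂ * 2 ^ DM)) * (Real.exp (-(κ * U)) * E) := by ring
      rw [h4, hEi, mul_one] at h3
      linarith)
    Dd hDd h
  refine ⟨A, hA1, hA2, ?_⟩
  intro y hy
  refine le_trans ?_ (hA3 y hy)
  have hPr : Pr q A ≤ 1 := Pool.KAF.Pr_le_one h.isLaw A
  have hXc : (X : ℝ) = U - γ := by
    have : ((γ + X : ℕ) : ℝ) = U := by rw [hγX]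
    push_cast at this
    linarith
  have hl2 : 0 < Real.log 2 := Real.log_pos (by norm_num)
  have hγ0 : (0 : ℝ) ≤ γ := Nat.cast_nonneg _
  have hU0 : (0 : ℝ) ≤ U := Nat.cast_nonneg _
  have h1 : (Pr q A - ε) * U ≤ (Pr q A - ε / 4) * X := by
    rw [hXc]
    have h2 : (Pr q A - ε / 4) * γ ≤ 1 * γ :=
      mul_le_mul_of_nonneg_right (by linarith only [hPr, hε]) hγ0
    have h3 : 0 ≤ ε * U := mul_nonneg hε.le hU0
    linarith only [h2, h3, hγε]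
  have h3 : (c : ℝ) * Real.log 2 * ((Pr q A - ε) * U) ≤
      c * Real.log 2 * ((Pr q A - ε / 4) * X) := mul_le_mul_of_nonneg_left h1 (by positivity)
  linarith only [h3]

end Pool.LIV
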