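import Pool.Agent.H25.LIVE.Est
import Pool.Agent.H25.LIVE.Frame

/-!
# Two walks: the displacement of the position
-/

set_option autoImplicit false

namespace Pool.LIV

open Finset MvPolynomial
open Pool.Agent.H49.Ent Pool.Agent.H32.Dense Pool.STK Pool.KS3
open Pool.BFL (Pl CB Pb P2 MC alt)
open Pool.STAT
open Pool.KAF (Pr)

/-- The bounds of `poly_bounds`. -/
def PBC (n K C : ℕ) : Prop := 1 ≤ C ∧ ∀ (P : Pl n) (B a : ℝ), P.totalDegree ≤ K →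
    CB P B → 1 ≤ a → ∀ x y : Fin n → ℝ, (∀ i, |x i| ≤ a) → (∀ i, |y i| ≤ a) → ∀ v : ℝ,
    0 ≤ v → (∀ i, |y i - x i| ≤ v) → |eval x P| ≤ C * (B * a ^ K) ∧
      (∀ i, |eval x (pderiv i P)| ≤ C * (B * a ^ K)) ∧
      |eval y P - eval x P| ≤ C * (B * a ^ K) * v ∧
      (∀ i, |eval y (pderiv i P) - eval x (pderiv i P)| ≤ C * (B * a ^ K) * v) ∧
      |eval y P - eval x P - ∑ i, (y i - x i) * eval x (pderiv i P)| ≤
        C * (B * a ^ K) * v ^ 2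

/-- The displacement of a polynomial of the lengths if one time moves. -/
theorem leg_tay {N K C : ℕ} (hC : PBC N K C) {P : Pl N} {B : ℝ} (hP : P.totalDegree ≤ K)
    (hPB : CB P B) {s s' : Fin N → ℝ} (hs : ∀ a, |s a| ≤ 1) (hs' : ∀ a, |s' a| ≤ 1) (i : Fin N)
    (hi : 1 ≤ (i : ℕ)) (dt : ℝ) (h : ∀ a, s' a - s a =
      dt * ((if a = ⟨i - 1, by omega⟩ then 1 else 0) - (if a = i then 1 else 0))) :
    |eval s' P - eval s P - dt * (eval s (pderiv ⟨i - 1, by omega⟩ P) - eval s (pderiv i P))| ≤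
      C * B * dt ^ 2 := by
  have h1 := (hC.2 P B 1 hP hPB le_rfl s s' hs hs' |dt| (abs_nonneg _) (fun a => by
    rw [h a, abs_mul]
    have : |(if a = ⟨i - 1, by omega⟩ then (1 : ℝ) else 0) - (if a = i then 1 else 0)| ≤ 1 := by
      split_ifs <;> norm_num
    calc |dt| * _ ≤ |dt| * 1 := mul_le_mul_of_nonneg_left this (abs_nonneg _)
      _ = |dt| := mul_one _)).2.2.2.2
  rw [one_pow, mul_one, sq_abs] at h1
  have e : ∑ a, (s' a - s a) * eval s (pderiv a P) =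
      dt * (eval s (pderiv ⟨i - 1, by omega⟩ P) - eval s (pderiv i P)) := by
    have e1 : ∀ a, (s' a - s a) * eval s (pderiv a P) =
        dt * ((if a = ⟨i - 1, by omega⟩ then eval s (pderiv a P) else 0) -
          (if a = i then eval s (pderiv a P) else 0)) := by
      intro a
      rw [h a]
      split_ifs <;> ring
    rw [Finset.sum_congr rfl fun a _ => e1 a, ← Finset.mul_sum, Finset.sum_sub_distrib,
      Finset.sum_ite_eq', Finset.sum_ite_eq']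
    simp
  rw [e] at h1
  exact h1

variable {c : ℕ} {Ω G B 𝔅 𝒱 W : Type} [Fintype Ω] [Fintype W] {d : Fin c → ℕ} {j m N : ℕ}
  {C₀ R : ℝ} {p : Ω → ℝ} {g : Ω → G} {bk : Ω → B} {β : Ω → 𝔅} {V : Ω → 𝒱} {tm : Ω → ℤ}
  {pT : Ω → Fin c → ℝ} {pN : Ω → ℝ}
  {ΘT : B → (Fin c → ℝ) → Fin c → ℝ} {FN : B → (Fin c → ℝ) → ℝ}
  {ξT : 𝒱 → 𝔅 → Fin c → Pl c} {ξN : 𝒱 → 𝔅 → Pl c} {q : W → ℝ} {z : ℕ → W → Ω}

/-- The displacement of the time of the vertex `i`. -/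
noncomputable def dti (tm : Ω → ℤ) (m N : ℕ) (z : ℕ → W → Ω) (i : ℕ) (w w' : W) : ℝ :=
  ((tv tm N z i w' - tv tm N z i w : ℤ) : ℝ) / 2 ^ m

/-- The gradients of the walk. -/
noncomputable def QW (d : Fin c → ℕ) (j N : ℕ) (β : Ω → 𝔅) (V : Ω → 𝒱)
    (ξT : 𝒱 → 𝔅 → Fin c → Pl c) (ξN : 𝒱 → 𝔅 → Pl c) (z : ℕ → W → Ω) (s : Fin N → ℝ) (w : W)
    (r : Fin (c + 1)) (a : Fin N) : ℝ :=
  eval s (pderiv a (WP d j N β V ξT ξN z w r))

/-- The lengths of two walks with the same context of the vertex `i`. -/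
theorem len_diff (h : MC p (alt g bk) (2 * N - 1) q z) (hbt : Det p bk tm) {w w' : W}
    (hw : 0 < q w) (hw' : 0 < q w') (i : Fin N) (hi : 1 ≤ (i : ℕ))
    (hc : cxv β V tm N z i w = cxv β V tm N z i w') (a : Fin N) :
    len tm m N z w' a - len tm m N z w a =
      dti tm m N z i w w' * ((if a = ⟨i - 1, by omega⟩ then 1 else 0) - (if a = i then 1 else 0)) := by
  obtain ⟨-, ct, -⟩ := cxv_data hc
  rw [len_eq h hbt hw, len_eq h hbt hw']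
  unfold ln dti
  have ha := a.2
  by_cases h1 : a = ⟨i - 1, by omega⟩
  · have h1' : (a : ℕ) = i - 1 := by rw [h1]
    have h2 : a ≠ i := by
      intro e
      rw [e] at h1'
      omega
    rw [if_pos h1, if_neg h2, h1', show (i : ℕ) - 1 + 1 = i by omega,
      ct (i - 1) (by omega) (by omega)]
    push_cast
    ring
  · by_cases h2 : a = i
    · rw [if_neg h1, if_pos h2, h2, ct (i + 1) (by omega) (by omega)]
      push_cast
      ring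
    · have h1' : (a : ℕ) ≠ i - 1 := fun e => h1 (Fin.ext e)
      have h2' : (a : ℕ) ≠ i := fun e => h2 (Fin.ext e)
      rw [if_neg h1, if_neg h2, ct a (by omega) h2', ct (a + 1) (by omega) (by omega)]
      ring

/-- The polynomials of two walks with the same context. -/
theorem WP_eq (h : MC p (alt g bk) (2 * N - 1) q z)
    (hG : GC d j m C₀ R p g bk β V tm ΘT FN ξT ξN) {w w' : W}
    (hw : 0 < q w) (hw' : 0 < q w') (eV : ∀ a < N, V (z (2 * a) w) = V (z (2 * a) w'))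
    (eβ : β (z 0 w) = β (z 0 w')) :
    WP d j N β V ξT ξN z w' = WP d j N β V ξT ξN z w := by
  have e1 : lgT β V ξT N z w' = lgT β V ξT N z w := by
    funext a
    unfold lgT
    rw [hG.β_const h hw (by omega), hG.β_const h hw' (by omega), eV a a.2, eβ]
  have e2 : lgN β V ξN N z w' = lgN β V ξN N z w := by
    funext a
    unfold lgN
    rw [hG.β_const h hw (by omega), hG.β_const h hw' (by omega), eV a a.2, eβ]
  unfold WP
  rw [e1, e2]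

/-- A good walk. -/
def GG (d : Fin c → ℕ) (j m N : ℕ) (C₀ : ℝ) (p : Ω → ℝ) (g : Ω → G) (bk : Ω → B) (β : Ω → 𝔅)
    (V : Ω → 𝒱) (tm : Ω → ℤ) (pT : Ω → Fin c → ℝ) (pN : Ω → ℝ)
    (ΘT : B → (Fin c → ℝ) → Fin c → ℝ) (FN : B → (Fin c → ℝ) → ℝ)
    (ξT : 𝒱 → 𝔅 → Fin c → Pl c) (ξN : 𝒱 → 𝔅 → Pl c) (q : W → ℝ) (z : ℕ → W → Ω) (δ : ℝ)
    (w : W) : Prop :=
  0 < q w ∧ GW d j m N C₀ p g bk β V tm ΘT FN ξT ξN z δ w ∧
    Own ΘT FN bk pT pN δ (z (2 * N - 1) w)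

omit [Fintype Ω] [Fintype W] in
theorem pos_eq (i₀ : Fin c) (ω : Ω) : pos i₀ pT pN ω = upd i₀ (pT ω) (pN ω) := rfl

/-- **First case**: the same line block after the vertex. -/
theorem pair_h0 {K : ℕ} (hK : RelC d j K) (hp : ∀ ω, 0 ≤ p ω)
    (hG : GC d j m C₀ R p g bk β V tm ΘT FN ξT ξN) {δ : ℝ} (hδ : 0 ≤ δ)
    (hsm : (K * R ^ K) ^ N * (K * R ^ K * (K * R ^ K * δ)) ≤ 1)
    (h : MC p (alt g bk) (2 * N - 1) q z) (i₀ : Fin c)
    (hpT : ∀ ω, 0 < p ω → ∀ i, |pT ω i| ≤ C₀)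
    (hinv : ∀ x z z', (∀ i, |z i| ≤ C₀) → (∀ i, |z' i| ≤ C₀) → ∀ δ : ℝ,
      (∀ i, |ΘT x z i - ΘT x z' i| ≤ δ) → ∀ i, |z i - z' i| ≤ R * δ)
    (hlip : ∀ x z z', (∀ i, |z i| ≤ C₀) → (∀ i, |z' i| ≤ C₀) → ∀ δ : ℝ,
      (∀ i, |z i - z' i| ≤ δ) → |FN x z - FN x z'| ≤ R * δ)
    {w w' : W} (hw : GG d j m N C₀ p g bk β V tm pT pN ΘT FN ξT ξN q z δ w)
    (hw' : GG d j m N C₀ p g bk β V tm pT pN ΘT FN ξT ξN q z δ w') {i : ℕ} (hi : i < N)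
    (hg : g (z (2 * i) w) = g (z (2 * i) w'))
    (hc : cxv β V tm N z i w = cxv β V tm N z i w') (l : Fin c) :
    |pos i₀ pT pN (z (2 * N - 1) w') l - pos i₀ pT pN (z (2 * N - 1) w) l| ≤
      6 * R ^ 2 * ((K * R ^ K) ^ N * (K * R ^ K * (K * R ^ K * δ))) := by
  have hq := h.isLaw.nonneg
  have hL := one_le_L hK hG.one
  have hLN : (1 : ℝ) ≤ (K * R ^ K) ^ N := one_le_pow₀ hL
  have hδ1 : δ ≤ K * R ^ K * (K * R ^ K * δ) := by
    have : δ ≤ K * R ^ K * δ := by nlinarith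
    nlinarith
  have hδ2 : δ ≤ (K * R ^ K) ^ N * (K * R ^ K * (K * R ^ K * δ)) := by nlinarith
  have hvc := close_E hK hp hG hδ hsm h hw.1 hw'.1 hw.2.1 hw'.2.1 hi hg hc
  have hpos : ∀ v, 0 < q v → 0 < p (z (2 * N - 1) v) := fun v hv =>
    (h.marg (2 * N - 1) le_rfl).pos hq hv
  rw [pos_eq, pos_eq]
  refine pos_h0 hG.one (hδ.trans hδ2) i₀ (bv bk N z N w) (bv bk N z N w') _ _ _ _
    (hpT _ (hpos w hw.1)) (hpT _ (hpos w' hw'.1)) hinv hlip hvc ?_ ?_ ?_ ?_ l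
  · rw [bv_last]
    exact fun i => (hw.2.2.1 i).trans hδ2
  · rw [bv_last]
    exact hw.2.2.2.trans hδ2
  · rw [bv_last]
    exact fun i => (hw'.2.2.1 i).trans hδ2
  · rw [bv_last]
    exact hw'.2.2.2.trans hδ2

/-- **Second case**: the same line block before the vertex. -/
theorem pair_hv {K KT CJ CW DW D : ℕ} {MJ MW B₂ ε : ℝ} (hK : RelC d j K) (hp : ∀ ω, 0 ≤ p ω)
    (hG : GC d j m C₀ R p g bk β V tm ΘT FN ξT ξN) {δ : ℝ} (hδ : 0 ≤ δ)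
    (hT : ∀ (R δ : ℝ), 1 ≤ R →
    0 ≤ δ → δ ≤ 1 → ∀ (ξ : Fin N → Fin c → Pl c) (b : Fin N → Pl c) (s : Fin N → ℝ)
    (u : ℕ → Fin c → ℝ) (f : ℕ → ℝ) (y : ℝ), (∀ a, VF d (ξ a)) →
    (∀ a, (b a).IsWeightedHomogeneous d (j - 1)) → (∀ a i, CB (ξ a i) R) → (∀ a, CB (b a) R) →
    (∀ a, |s a| ≤ 1) → (∀ a ≤ N, ∀ i, |u a i| ≤ R) →
    (∀ (a : Fin N) (i : Fin c), |u (a + 1) i - eval (u a) (flow d (ξ a) (-s a) i)| ≤ δ) →
    (∀ a : Fin N, |f (a + 1) - f a + eval (u a) (hfl j (ξ a) (b a) (-s a))| ≤ δ) →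
    (∀ i, |u N i| ≤ δ) → |y - f N| ≤ δ →
    (∀ i, |u 0 i - eval s (wT d N ξ i)| ≤ KT * R ^ KT * δ) ∧
    |y - f 0 - eval s (wH d j N ξ b)| ≤ KT * R ^ KT * δ)
    (hsm : (K * R ^ K) ^ N * (K * R ^ K * (K * R ^ K * (K * R ^ K * δ))) ≤ 1)
    (h : MC p (alt g bk) (2 * N - 1) q z) (i₀ : Fin c)
    (hpT : ∀ ω, 0 < p ω → ∀ i, |pT ω i| ≤ C₀) (hC₀ : 1 ≤ C₀)
    (hinv : ∀ x z z', (∀ i, |z i| ≤ C₀) → (∀ i, |z' i| ≤ C₀) → ∀ δ : ℝ,
      (∀ i, |ΘT x z i - ΘT x z' i| ≤ δ) → ∀ i, |z i - z' i| ≤ R * δ)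
    (hlip : ∀ x z z', (∀ i, |z i| ≤ C₀) → (∀ i, |z' i| ≤ C₀) → ∀ δ : ℝ,
      (∀ i, |z i - z' i| ≤ δ) → |FN x z - FN x z'| ≤ R * δ)
    (htime : ∀ x z z', ΘT x z' i₀ - ΘT x z i₀ = z' i₀ - z i₀)
    (hd1 : d i₀ = 1) (hξt : ∀ v x, ξT v x i₀ = 1)
    (hCJ : PBC c D CJ) (hCW : PBC N DW CW) (PΘ : B → Fin c → Pl c) (PF : B → Pl c)
    (hΘ : ∀ x i, (PΘ x i).totalDegree ≤ D ∧ CB (PΘ x i) R ∧ ∀ z, ΘT x z i = eval z (PΘ x i))
    (hF : ∀ x, (PF x).totalDegree ≤ D ∧ CB (PF x) R ∧ ∀ z, FN x z = eval z (PF x))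
    (hMJ : MJ = CJ * (R * C₀ ^ D)) (hMW : CW * B₂ ≤ MW) (hMW1 : 1 ≤ MW)
    {w w' : W} (hWP : ∀ s, (WP d j N β V ξT ξN z w s).totalDegree ≤ DW ∧
      CB (WP d j N β V ξT ξN z w s) B₂)
    (hw : GG d j m N C₀ p g bk β V tm pT pN ΘT FN ξT ξN q z δ w)
    (hw' : GG d j m N C₀ p g bk β V tm pT pN ΘT FN ξT ξN q z δ w') (i : Fin N)
    (hi : 1 ≤ (i : ℕ)) (hg : g (z (2 * i - 1) w) = g (z (2 * i - 1) w'))
    (hc : cxv β V tm N z i w = cxv β V tm N z i w') (hdt : |dti tm m N z i w w'| ≤ 1)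
    (hεd : ε = 2 * (KT * R ^ KT * (K * R ^ K * (K * R ^ K * δ))) +
      (K * R ^ K) ^ N * (K * R ^ K * (K * R ^ K * (K * R ^ K * δ)))) (hε1 : ε ≤ 1) :
    (∀ l, |pos i₀ pT pN (z (2 * N - 1) w') l - pos i₀ pT pN (z (2 * N - 1) w) l| ≤
      3 * R ^ 2 * (3 * MW * |dti tm m N z i w w'| + ε)) ∧
    ∀ s, |∑ l, Jm i₀ PΘ PF (bv bk N z 0 w) (pT (z (2 * N - 1) w)) l s *
        (pos i₀ pT pN (z (2 * N - 1) w') l - pos i₀ pT pN (z (2 * N - 1) w) l) -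
        dti tm m N z i w w' * vd (QW d j N β V ξT ξN z (len tm m N z w) w) i s| ≤
      20 * MJ * R ^ 2 * MW ^ 2 * (dti tm m N z i w w' ^ 2 + ε) := by
  have hq := h.isLaw.nonneg
  have hR := hG.one
  have hL := one_le_L hK hR
  have hLN : (1 : ℝ) ≤ (K * R ^ K) ^ N := one_le_pow₀ hL
  have hL0 : (0 : ℝ) ≤ K * R ^ K := by linarith
  have hδ1 : 0 ≤ K * R ^ K * (K * R ^ K * δ) := by positivity
  have hsm1 : K * R ^ K * (K * R ^ K * δ) ≤ 1 := by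
    have h2 : K * R ^ K * (K * R ^ K * δ) ≤ K * R ^ K * (K * R ^ K * (K * R ^ K * δ)) := by
      nlinarith
    nlinarith
  obtain ⟨cV, ct, cβ⟩ := cxv_data hc
  have hpos : ∀ v, 0 < q v → 0 < p (z (2 * N - 1) v) := fun v hv =>
    (h.marg (2 * N - 1) le_rfl).pos hq hv
  have hu := hpT _ (hpos w hw.1)
  have hu' := hpT _ (hpos w' hw'.1)
  have e1 := walk_end hK hp hG hδ hT hsm1 h hpT hw.1 hw.2.1 hw.2.2
  have e2 := walk_end hK hp hG hδ hT hsm1 h hpT hw'.1 hw'.2.1 hw'.2.2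
  rw [WP_eq h hG hw.1 hw'.1 cV cβ] at e2
  have hvc := close_0 hK hp hG hδ hsm h hw.1 hw'.1 hw.2.1 hw'.2.1 hi i.2.le hg hc
  have hlen : ∀ v, 0 < q v → ∀ a, |len tm m N z v a| ≤ 1 := fun v hv a => by
    rw [len_eq h hG.bk_tm hv]
    exact ln_le h hG hv a.2
  have hKT0 : 0 ≤ KT * R ^ KT * (K * R ^ K * (K * R ^ K * δ)) := by positivity
  have hε0 : 0 ≤ ε := by
    rw [hεd]
    positivity
  have hR0 : 0 < R := by linarith
  have hMJ1 : 1 ≤ MJ := by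
    rw [hMJ]
    have k1 : (1 : ℝ) ≤ CJ := by exact_mod_cast hCJ.1
    have k2 : (1 : ℝ) ≤ C₀ ^ D := one_le_pow₀ hC₀
    have k3 : (1 : ℝ) ≤ R * C₀ ^ D := by nlinarith
    nlinarith
  -- the bound of the gradients
  have hgrad : ∀ s (a : Fin N), |eval (len tm m N z w) (pderiv a (WP d j N β V ξT ξN z w s))| ≤
      MW := by
    intro s a
    have := (hCW.2 _ B₂ 1 (hWP s).1 (hWP s).2 le_rfl (len tm m N z w) (len tm m N z w)
      (hlen w hw.1) (hlen w hw.1) 0 le_rfl (fun _ => by rw [sub_self, abs_zero])).2.1 a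
    rw [one_pow, mul_one] at this
    exact this.trans hMW
  rw [pos_eq, pos_eq]
  refine pos_hv (ΘT := ΘT) (FN := FN) (C := CJ) (MJ := MJ) hC₀ hR hMJ1 hMW1 hε0 hε1 hdt D hCJ.2
    hMJ i₀ PΘ PF hΘ hF htime hinv hlip (bv bk N z 0 w) _ _ _ _ hu hu'
    (vd (QW d j N β V ξT ξN z (len tm m N z w) w) i) ?_ ?_ ?_
  · intro s
    unfold vd
    rw [dif_pos hi]
    unfold QW
    have := hgrad s ⟨i - 1, by omega⟩
    have := hgrad s i
    exact (abs_sub _ _).trans (by linarith)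
  · unfold vd
    rw [dif_pos hi]
    unfold QW WP
    simp only [Fin.snoc_castSucc]
    have ht : ∀ a, lgT β V ξT N z w a i₀ = 1 := fun a => hξt _ _
    rw [eval_pderiv_wT_time hd1 ht, eval_pderiv_wT_time hd1 ht, sub_self]
  · intro s
    have k1 := e1 s
    have k2 := e2 s
    have k3 := leg_tay hCW (hWP s).1 (hWP s).2 (hlen w hw.1) (hlen w' hw'.1) i hi
      (dti tm m N z i w w') (len_diff h hG.bk_tm hw.1 hw'.1 i hi hc)
    replace k3 := k3.trans (mul_le_mul_of_nonneg_right hMW (sq_nonneg _))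
    have k4 : |Ps ΘT FN (bv bk N z 0 w) (pT (z (2 * N - 1) w')) (pN (z (2 * N - 1) w')) s -
        Ps ΘT FN (bv bk N z 0 w') (pT (z (2 * N - 1) w')) (pN (z (2 * N - 1) w')) s| ≤
        (K * R ^ K) ^ N * (K * R ^ K * (K * R ^ K * (K * R ^ K * δ))) := by
      have v1 := hvc _ hu'
      unfold Ps
      induction s using Fin.lastCases with
      | last =>
        simp only [Fin.snoc_last]
        have e : pN (z (2 * N - 1) w') - FN (bv bk N z 0 w) (pT (z (2 * N - 1) w')) -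
          (pN (z (2 * N - 1) w') - FN (bv bk N z 0 w') (pT (z (2 * N - 1) w'))) =
          -(FN (bv bk N z 0 w) (pT (z (2 * N - 1) w')) -
            FN (bv bk N z 0 w') (pT (z (2 * N - 1) w'))) := by ring
        rw [e, abs_neg]
        exact v1.2
      | cast r =>
        simp only [Fin.snoc_castSucc]
        exact v1.1 r
    have e3 : vd (QW d j N β V ξT ξN z (len tm m N z w) w) i s =
        eval (len tm m N z w) (pderiv ⟨i - 1, by omega⟩ (WP d j N β V ξT ξN z w s)) -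
          eval (len tm m N z w) (pderiv i (WP d j N β V ξT ξN z w s)) := by
      unfold vd
      rw [dif_pos hi]
      rfl
    rw [e3]
    obtain ⟨X, hX⟩ : ∃ X, X = Ps ΘT FN (bv bk N z 0 w) (pT (z (2 * N - 1) w'))
      (pN (z (2 * N - 1) w')) s := ⟨_, rfl⟩
    obtain ⟨X', hX'⟩ : ∃ X', X' = Ps ΘT FN (bv bk N z 0 w') (pT (z (2 * N - 1) w'))
      (pN (z (2 * N - 1) w')) s := ⟨_, rfl⟩
    obtain ⟨Y, hY⟩ : ∃ Y, Y = Ps ΘT FN (bv bk N z 0 w) (pT (z (2 * N - 1) w))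
      (pN (z (2 * N - 1) w)) s := ⟨_, rfl⟩
    rw [← hX, ← hX'] at k4
    rw [← hX'] at k2
    rw [← hY] at k1
    rw [← hX, ← hY]
    obtain ⟨E1, hE1⟩ : ∃ E1, E1 = eval (len tm m N z w) (WP d j N β V ξT ξN z w s) := ⟨_, rfl⟩
    obtain ⟨E2, hE2⟩ : ∃ E2, E2 = eval (len tm m N z w') (WP d j N β V ξT ξN z w s) := ⟨_, rfl⟩
    rw [← hE1] at k1 k3
    rw [← hE2] at k2 k3
    obtain ⟨T, hT'⟩ : ∃ T, T = dti tm m N z i w w' * (eval (len tm m N z w)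
      (pderiv ⟨i - 1, by omega⟩ (WP d j N β V ξT ξN z w s)) -
          eval (len tm m N z w) (pderiv i (WP d j N β V ξT ξN z w s))) := ⟨_, rfl⟩
    rw [← hT'] at k3 ⊢
    have e4 : X - Y - T = (X - X') + (X' - E2) - (Y - E1) + (E2 - E1 - T) := by ring
    rw [e4, hεd]
    rw [abs_le] at k1 k2 k3 k4 ⊢
    constructor <;> linarith [k1.1, k1.2, k2.1, k2.2, k3.1, k3.2, k4.1, k4.2]

end Pool.LIV
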