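import Pool.Agent.H25.LIVE.Pair

/-!
# Two walks with the same data but one time
-/

set_option autoImplicit false

namespace Pool.LIV

open Finset MvPolynomial
open Pool.Agent.H49.Ent Pool.Agent.H32.Dense Pool.STK Pool.KS3
open Pool.BFL (Pl CB Pb P2 MC alt)
open Pool.STAT
open Pool.KAF (Pr)

/-- The data which are used for the geometry of the walk. -/
structure GC {c : ℕ} {Ω G B 𝔅 𝒱 : Type} (d : Fin c → ℕ) (j m : ℕ)
    (C₀ R : ℝ) (p : Ω → ℝ) (g : Ω → G) (bk : Ω → B) (β : Ω → 𝔅) (V : Ω → 𝒱) (tm : Ω → ℤ)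
    (ΘT : B → (Fin c → ℝ) → Fin c → ℝ)
    (FN : B → (Fin c → ℝ) → ℝ) (ξT : 𝒱 → 𝔅 → Fin c → Pl c) (ξN : 𝒱 → 𝔅 → Pl c) : Prop where
  one : 1 ≤ R
  bk_β : Det p bk β
  g_β : Det p g β
  g_V : Det p g V
  bk_tm : Det p bk tm
  tm_g : ∀ ω ω', g ω = g ω' → |tm ω' - tm ω| ≤ 2 ^ m
  vf : ∀ v x, VF d (ξT v x)
  vR : ∀ v x i, CB (ξT v x i) R
  hom : ∀ v x, (ξN v x).IsWeightedHomogeneous d (j - 1)
  hR : ∀ v x, CB (ξN v x) R
  Θ_le : ∀ x z, (∀ i, |z i| ≤ C₀) → ∀ i, |ΘT x z i| ≤ R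

variable {c : ℕ} {Ω G B 𝔅 𝒱 W : Type} [Fintype Ω] [Fintype W] {d : Fin c → ℕ} {j m N : ℕ}
  {C₀ R : ℝ} {p : Ω → ℝ} {g : Ω → G} {bk : Ω → B} {β : Ω → 𝔅} {V : Ω → 𝒱} {tm : Ω → ℤ}
  {ΘT : B → (Fin c → ℝ) → Fin c → ℝ} {FN : B → (Fin c → ℝ) → ℝ}
  {ξT : 𝒱 → 𝔅 → Fin c → Pl c} {ξN : 𝒱 → 𝔅 → Pl c} {q : W → ℝ} {z : ℕ → W → Ω}

/-- The block of the vertex `a`. -/
def bv (bk : Ω → B) (N : ℕ) (z : ℕ → W → Ω) (a : ℕ) (w : W) : B :=
  bk (z (min (2 * a) (2 * N - 1)) w)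

/-- The length of the leg `a`. -/
noncomputable def ln (tm : Ω → ℤ) (m N : ℕ) (z : ℕ → W → Ω) (a : ℕ) (w : W) : ℝ :=
  ((tv tm N z (a + 1) w - tv tm N z a w : ℤ) : ℝ) / 2 ^ m

/-- The relation between the blocks of the vertices `a` and `a + 1`. -/
def LegR (d : Fin c → ℕ) (j m N : ℕ) (C₀ : ℝ) (bk : Ω → B) (β : Ω → 𝔅) (V : Ω → 𝒱) (tm : Ω → ℤ)
    (ΘT : B → (Fin c → ℝ) → Fin c → ℝ) (FN : B → (Fin c → ℝ) → ℝ)
    (ξT : 𝒱 → 𝔅 → Fin c → Pl c) (ξN : 𝒱 → 𝔅 → Pl c) (z : ℕ → W → Ω) (δ : ℝ) (a : ℕ) (w : W) :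
    Prop :=
  ∀ x : Fin c → ℝ, (∀ i, |x i| ≤ C₀) → Rel d j (ξT (V (z (2 * a) w)) (β (z 0 w)))
    (ξN (V (z (2 * a) w)) (β (z 0 w))) (ln tm m N z a w) (ΘT (bv bk N z a w) x)
    (ΘT (bv bk N z (a + 1) w) x) (FN (bv bk N z a w) x) (FN (bv bk N z (a + 1) w) x) δ

/-- The blocks of the vertex `a` of two walks are close. -/
def VC (N : ℕ) (C₀ : ℝ) (bk : Ω → B) (ΘT : B → (Fin c → ℝ) → Fin c → ℝ)
    (FN : B → (Fin c → ℝ) → ℝ) (z : ℕ → W → Ω) (δ : ℝ) (a : ℕ) (w w' : W) : Prop :=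
  ∀ x : Fin c → ℝ, (∀ i, |x i| ≤ C₀) →
    (∀ i, |ΘT (bv bk N z a w) x i - ΘT (bv bk N z a w') x i| ≤ δ) ∧
    |FN (bv bk N z a w) x - FN (bv bk N z a w') x| ≤ δ

/-- All samples of the walk are good. -/
def GW (d : Fin c → ℕ) (j m N : ℕ) (C₀ : ℝ) (p : Ω → ℝ) (g : Ω → G) (bk : Ω → B) (β : Ω → 𝔅)
    (V : Ω → 𝒱) (tm : Ω → ℤ) (ΘT : B → (Fin c → ℝ) → Fin c → ℝ) (FN : B → (Fin c → ℝ) → ℝ)
    (ξT : 𝒱 → 𝔅 → Fin c → Pl c) (ξN : 𝒱 → 𝔅 → Pl c) (z : ℕ → W → Ω) (δ : ℝ) (w : W) : Prop :=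
  ∀ k ≤ 2 * N - 1, Gd d j m C₀ p g bk β V tm ΘT FN ξT ξN δ (z k w)

theorem tv_odd (h : MC p (alt g bk) (2 * N - 1) q z) (hbt : Det p bk tm) {w : W} (hw : 0 < q w)
    {a : ℕ} (ha : a < N) : tm (z (2 * a + 1) w) = tv tm N z (a + 1) w := by
  have hq := h.isLaw.nonneg
  unfold tv
  rcases Nat.lt_or_ge (a + 1) N with h1 | h1
  · rw [min_eq_left (by omega), show 2 * (a + 1) = 2 * a + 2 by ring]
    exact hbt _ _ ((h.marg (2 * a + 1) (by omega)).pos hq hw)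
      ((h.marg (2 * a + 2) (by omega)).pos hq hw) (same_bk h hw h1)
  · rw [min_eq_right (by omega), show 2 * N - 1 = 2 * a + 1 by omega]

theorem bv_odd (h : MC p (alt g bk) (2 * N - 1) q z) {w : W} (hw : 0 < q w)
    {a : ℕ} (ha : a < N) : bk (z (2 * a + 1) w) = bv bk N z (a + 1) w := by
  unfold bv
  rcases Nat.lt_or_ge (a + 1) N with h1 | h1
  · rw [min_eq_left (by omega), show 2 * (a + 1) = 2 * a + 2 by ring]
    exact same_bk h hw h1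
  · rw [min_eq_right (by omega), show 2 * N - 1 = 2 * a + 1 by omega]

omit [Fintype Ω] [Fintype W] in
theorem tv_even {w : W} {a : ℕ} (ha : a < N) : tm (z (2 * a) w) = tv tm N z a w := by
  unfold tv
  rw [min_eq_left (by omega)]

omit [Fintype Ω] [Fintype W] in
theorem bv_even {w : W} {a : ℕ} (ha : a < N) : bk (z (2 * a) w) = bv bk N z a w := by
  unfold bv
  rw [min_eq_left (by omega)]

theorem len_eq (h : MC p (alt g bk) (2 * N - 1) q z) (hbt : Det p bk tm) {w : W} (hw : 0 < q w)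
    (a : Fin N) : len tm m N z w a = ln tm m N z a w := by
  unfold len ln
  rw [tv_odd h hbt hw a.2, tv_even (tm := tm) (z := z) (w := w) a.2]

theorem GC.β_const (hG : GC d j m C₀ R p g bk β V tm ΘT FN ξT ξN)
    (h : MC p (alt g bk) (2 * N - 1) q z) {w : W} (hw : 0 < q w) {k : ℕ} (hk : k ≤ 2 * N - 1) :
    β (z k w) = β (z 0 w) :=
  chain_const h β (fun i _ => by
    intro ω ω' a1 a2 e
    rcases Nat.mod_two_eq_zero_or_one i with k | k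
    · rw [alt_even k, alt_even k] at e
      exact hG.g_β ω ω' a1 a2 (Sum.inl_injective e)
    · rw [alt_odd k, alt_odd k] at e
      exact hG.bk_β ω ω' a1 a2 (Sum.inr_injective e)) w hw k hk

/-- The length of a leg is at most `1`. -/
theorem ln_le (h : MC p (alt g bk) (2 * N - 1) q z)
    (hG : GC d j m C₀ R p g bk β V tm ΘT FN ξT ξN) {w : W} (hw : 0 < q w) {a : ℕ} (ha : a < N) :
    |ln tm m N z a w| ≤ 1 := by
  unfold ln
  rw [← tv_odd h hG.bk_tm hw ha, ← tv_even (tm := tm) (z := z) (w := w) ha]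
  rw [abs_div, abs_of_pos (by positivity : (0 : ℝ) < 2 ^ m), div_le_one (by positivity)]
  have h3 : ((|tm (z (2 * a + 1) w) - tm (z (2 * a) w)| : ℤ) : ℝ) ≤ ((2 ^ m : ℤ) : ℝ) := by
    exact_mod_cast hG.tm_g _ _ (same_g h hw ha)
  rw [Int.cast_abs] at h3
  push_cast at h3 ⊢
  exact h3

/-- The relations of the legs of a good walk. -/
theorem legR {K : ℕ} (hK : RelC d j K) (hp : ∀ ω, 0 ≤ p ω)
    (hG : GC d j m C₀ R p g bk β V tm ΘT FN ξT ξN) {δ : ℝ} (hδ : 0 ≤ δ)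
    (hsm : K * R ^ K * (K * R ^ K * δ) ≤ 1) (h : MC p (alt g bk) (2 * N - 1) q z)
    {w : W} (hw : 0 < q w) (hgw : GW d j m N C₀ p g bk β V tm ΘT FN ξT ξN z δ w) {a : ℕ}
    (ha : a < N) :
    LegR d j m N C₀ bk β V tm ΘT FN ξT ξN z (K * R ^ K * (K * R ^ K * δ)) a w := by
  have hq := h.isLaw.nonneg
  have hpos : ∀ k, k ≤ 2 * N - 1 → 0 < p (z k w) := fun k hk => (h.marg k hk).pos hq hw
  have h1 := tr_of_gd hK hp hG.one hδ hsm hG.g_β hG.g_V hG.tm_g hG.vf hG.vR hG.hom hG.hR hG.Θ_le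
    (hpos (2 * a) (by omega)) (hpos (2 * a + 1) (by omega)) (same_g h hw ha)
    (hgw _ (by omega)) (hgw _ (by omega))
  intro x hx
  have h2 := h1 x hx
  have e1 : dt tm m (z (2 * a) w) (z (2 * a + 1) w) = ln tm m N z a w := by
    unfold dt ln
    rw [tv_odd h hG.bk_tm hw ha, tv_even (tm := tm) (z := z) (w := w) ha]
  have e2 : β (z (2 * a) w) = β (z 0 w) := hG.β_const h hw (by omega)
  rw [e1, e2, bv_even (bk := bk) (z := z) (w := w) ha, bv_odd h hw ha] at h2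
  exact h2

omit [Fintype Ω] [Fintype W] in
theorem VC.mono {δ δ' : ℝ} {a : ℕ} {w w' : W} (h : VC N C₀ bk ΘT FN z δ a w w') (hδ : δ ≤ δ') :
    VC N C₀ bk ΘT FN z δ' a w w' := fun x hx =>
  ⟨fun i => ((h x hx).1 i).trans hδ, (h x hx).2.trans hδ⟩

omit [Fintype Ω] [Fintype W] in
theorem LegR.mono {δ δ' : ℝ} {a : ℕ} {w : W}
    (h : LegR d j m N C₀ bk β V tm ΘT FN ξT ξN z δ a w) (hδ : δ ≤ δ') :
    LegR d j m N C₀ bk β V tm ΘT FN ξT ξN z δ' a w := fun x hx => (h x hx).mono hδ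

theorem one_le_L {K : ℕ} (hK : RelC d j K) (hR : 1 ≤ R) : (1 : ℝ) ≤ K * R ^ K := by
  have k1 : (1 : ℝ) ≤ K := by exact_mod_cast hK.1
  have k2 : (1 : ℝ) ≤ R ^ K := one_le_pow₀ hR
  nlinarith

omit [Fintype Ω] [Fintype W] in
/-- From a vertex to the end point. -/
theorem vc_fwd [Fintype Ω] [Fintype W] {K : ℕ} (hK : RelC d j K)
    (hG : GC d j m C₀ R p g bk β V tm ΘT FN ξT ξN) {δ : ℝ}
    (hδ : 0 ≤ δ) (hsm : (K * R ^ K) ^ N * δ ≤ 1) (h : MC p (alt g bk) (2 * N - 1) q z)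
    {w w' : W} (hw : 0 < q w) {a₀ : ℕ} (ha₀ : a₀ ≤ N) (h0 : VC N C₀ bk ΘT FN z δ a₀ w w')
    (hl : ∀ a, a₀ ≤ a → a < N → LegR d j m N C₀ bk β V tm ΘT FN ξT ξN z δ a w)
    (hl' : ∀ a, a₀ ≤ a → a < N → LegR d j m N C₀ bk β V tm ΘT FN ξT ξN z δ a w')
    (eV : ∀ a, a₀ ≤ a → a < N → V (z (2 * a) w') = V (z (2 * a) w))
    (eβ : β (z 0 w') = β (z 0 w))
    (el : ∀ a, a₀ ≤ a → a < N → ln tm m N z a w' = ln tm m N z a w) :
    VC N C₀ bk ΘT FN z ((K * R ^ K) ^ N * δ) N w w' := by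
  have hL := one_le_L hK hG.one
  have hpow : (K * R ^ K : ℝ) ^ (N - a₀) * δ ≤ (K * R ^ K) ^ N * δ :=
    mul_le_mul_of_nonneg_right (pow_le_pow_right₀ hL (by omega)) hδ
  intro x hx
  have key := iter hK hG.one hδ (n := N - a₀) (hpow.trans hsm)
    (fun a => ξT (V (z (2 * (a₀ + a)) w)) (β (z 0 w)))
    (fun a => ξN (V (z (2 * (a₀ + a)) w)) (β (z 0 w))) (fun a => ln tm m N z (a₀ + a) w)
    (fun a => ΘT (bv bk N z (a₀ + a) w) x) (fun a => ΘT (bv bk N z (a₀ + a) w') x)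
    (fun a => FN (bv bk N z (a₀ + a) w) x) (fun a => FN (bv bk N z (a₀ + a) w') x)
    (fun _ _ => hG.vf _ _) (fun _ _ => hG.hom _ _) (fun _ _ => hG.vR _ _) (fun _ _ => hG.hR _ _)
    (fun a ha => ln_le h hG hw (by omega)) (fun _ _ => hG.Θ_le _ _ hx)
    (fun _ _ => hG.Θ_le _ _ hx) (fun a ha => hl (a₀ + a) (by omega) (by omega) x hx)
    (fun a ha => by
      have := hl' (a₀ + a) (by omega) (by omega) x hx
      rw [eV (a₀ + a) (by omega) (by omega), eβ, el (a₀ + a) (by omega) (by omega)] at this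
      exact this)
    (h0 x hx).1 (h0 x hx).2
  simp only [show a₀ + (N - a₀) = N by omega] at key
  exact ⟨fun i => (key.1 i).trans hpow, key.2.trans hpow⟩

omit [Fintype Ω] [Fintype W] in
/-- From a vertex to the first point. -/
theorem vc_bwd [Fintype Ω] [Fintype W] {K : ℕ} (hK : RelC d j K)
    (hG : GC d j m C₀ R p g bk β V tm ΘT FN ξT ξN) {δ : ℝ}
    (hδ : 0 ≤ δ) (hsm : (K * R ^ K) ^ N * (K * R ^ K * δ) ≤ 1)
    (h : MC p (alt g bk) (2 * N - 1) q z)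
    {w w' : W} (hw : 0 < q w) {a₀ : ℕ} (ha₀ : a₀ ≤ N) (h0 : VC N C₀ bk ΘT FN z δ a₀ w w')
    (hl : ∀ a, a < a₀ → LegR d j m N C₀ bk β V tm ΘT FN ξT ξN z δ a w)
    (hl' : ∀ a, a < a₀ → LegR d j m N C₀ bk β V tm ΘT FN ξT ξN z δ a w')
    (eV : ∀ a, a < a₀ → V (z (2 * a) w') = V (z (2 * a) w))
    (eβ : β (z 0 w') = β (z 0 w))
    (el : ∀ a, a < a₀ → ln tm m N z a w' = ln tm m N z a w) :
    VC N C₀ bk ΘT FN z ((K * R ^ K) ^ N * (K * R ^ K * δ)) 0 w w' := by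
  have hL := one_le_L hK hG.one
  have hLδ : 0 ≤ K * R ^ K * δ := mul_nonneg (by linarith) hδ
  have hδL : δ ≤ K * R ^ K * δ := by nlinarith
  have hpow : (K * R ^ K : ℝ) ^ a₀ * (K * R ^ K * δ) ≤ (K * R ^ K) ^ N * (K * R ^ K * δ) :=
    mul_le_mul_of_nonneg_right (pow_le_pow_right₀ hL ha₀) hLδ
  have hδ1 : δ ≤ 1 := by
    have h1 : (1 : ℝ) ≤ (K * R ^ K) ^ N := one_le_pow₀ hL
    nlinarith
  intro x hx
  have key := iter hK hG.one hLδ (n := a₀) (hpow.trans hsm)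
    (fun a => ξT (V (z (2 * (a₀ - 1 - a)) w)) (β (z 0 w)))
    (fun a => ξN (V (z (2 * (a₀ - 1 - a)) w)) (β (z 0 w)))
    (fun a => -(ln tm m N z (a₀ - 1 - a) w))
    (fun a => ΘT (bv bk N z (a₀ - a) w) x) (fun a => ΘT (bv bk N z (a₀ - a) w') x)
    (fun a => FN (bv bk N z (a₀ - a) w) x) (fun a => FN (bv bk N z (a₀ - a) w') x)
    (fun _ _ => hG.vf _ _) (fun _ _ => hG.hom _ _) (fun _ _ => hG.vR _ _) (fun _ _ => hG.hR _ _)
    (fun a ha => by rw [abs_neg]; exact ln_le h hG hw (by omega)) (fun _ _ => hG.Θ_le _ _ hx)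
    (fun _ _ => hG.Θ_le _ _ hx) (fun a ha => by
      have h1 := hl (a₀ - 1 - a) (by omega) x hx
      rw [show a₀ - 1 - a + 1 = a₀ - a by omega] at h1
      rw [show a₀ - (a + 1) = a₀ - 1 - a by omega]
      exact (hK.2 R δ hG.one hδ hδ1 _ _ (hG.vf _ _) (hG.hom _ _) (hG.vR _ _) (hG.hR _ _)).1
        _ _ _ _ _ (ln_le h hG hw (by omega)) (hG.Θ_le _ _ hx) (hG.Θ_le _ _ hx) h1)
    (fun a ha => by
      have h1 := hl' (a₀ - 1 - a) (by omega) x hx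
      rw [eV (a₀ - 1 - a) (by omega), eβ, el (a₀ - 1 - a) (by omega)] at h1
      rw [show a₀ - 1 - a + 1 = a₀ - a by omega] at h1
      rw [show a₀ - (a + 1) = a₀ - 1 - a by omega]
      exact (hK.2 R δ hG.one hδ hδ1 _ _ (hG.vf _ _) (hG.hom _ _) (hG.vR _ _) (hG.hR _ _)).1
        _ _ _ _ _ (ln_le h hG hw (by omega)) (hG.Θ_le _ _ hx) (hG.Θ_le _ _ hx) h1)
    (fun i => ((h0 x hx).1 i).trans hδL) ((h0 x hx).2.trans hδL)
  simp only [Nat.sub_self] at key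
  exact ⟨fun i => (key.1 i).trans hpow, key.2.trans hpow⟩

/-- Two good samples with the same line block and the same time: the blocks are close. -/
theorem close_line {K : ℕ} (hK : RelC d j K) (hp : ∀ ω, 0 ≤ p ω)
    (hG : GC d j m C₀ R p g bk β V tm ΘT FN ξT ξN) {δ : ℝ} (hδ : 0 ≤ δ)
    (hsm : K * R ^ K * (K * R ^ K * δ) ≤ 1) {ω ω' : Ω} (h0 : 0 < p ω) (h0' : 0 < p ω')
    (hg : g ω = g ω') (ht : tm ω = tm ω') (h : Gd d j m C₀ p g bk β V tm ΘT FN ξT ξN δ ω)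
    (h' : Gd d j m C₀ p g bk β V tm ΘT FN ξT ξN δ ω') (x : Fin c → ℝ) (hx : ∀ i, |x i| ≤ C₀) :
    (∀ i, |ΘT (bk ω) x i - ΘT (bk ω') x i| ≤ K * R ^ K * (K * R ^ K * δ)) ∧
      |FN (bk ω) x - FN (bk ω') x| ≤ K * R ^ K * (K * R ^ K * δ) := by
  have h1 := tr_of_gd hK hp hG.one hδ hsm hG.g_β hG.g_V hG.tm_g hG.vf hG.vR hG.hom hG.hR hG.Θ_le
    h0 h0' hg h h' x hx
  have e : dt tm m ω ω' = 0 := by
    unfold dt
    rw [ht, sub_self]
    simp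
  rw [e] at h1
  unfold Rel at h1
  rw [neg_zero, hfl_zero, add_zero] at h1
  refine ⟨fun i => ?_, ?_⟩
  · have := h1.1 i
    rw [flow_zero] at this
    rw [abs_sub_comm]
    exact this
  · rw [abs_sub_comm]
    exact h1.2

/-- The data of two walks with the same context of the vertex `i`. -/
theorem cxv_data {i : ℕ} {w w' : W} (hc : cxv β V tm N z i w = cxv β V tm N z i w') :
    (∀ a < N, V (z (2 * a) w) = V (z (2 * a) w')) ∧
      (∀ a ≤ N, a ≠ i → tv tm N z a w = tv tm N z a w') ∧ β (z 0 w) = β (z 0 w') := by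
  unfold cxv at hc
  simp only [Prod.mk.injEq] at hc
  obtain ⟨h1, h2, h3⟩ := hc
  refine ⟨fun a ha => congrFun h1 ⟨a, ha⟩, fun a ha hai => ?_, h3⟩
  have := congrFun h2 ⟨a, by omega⟩
  simp only [if_neg hai] at this
  exact this

/-- **The line block after the vertex.** -/
theorem close_E {K : ℕ} (hK : RelC d j K) (hp : ∀ ω, 0 ≤ p ω)
    (hG : GC d j m C₀ R p g bk β V tm ΘT FN ξT ξN) {δ : ℝ} (hδ : 0 ≤ δ)
    (hsm : (K * R ^ K) ^ N * (K * R ^ K * (K * R ^ K * δ)) ≤ 1)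
    (h : MC p (alt g bk) (2 * N - 1) q z) {w w' : W} (hw : 0 < q w) (hw' : 0 < q w')
    (hgw : GW d j m N C₀ p g bk β V tm ΘT FN ξT ξN z δ w)
    (hgw' : GW d j m N C₀ p g bk β V tm ΘT FN ξT ξN z δ w') {i : ℕ} (hi : i < N)
    (hg : g (z (2 * i) w) = g (z (2 * i) w'))
    (hc : cxv β V tm N z i w = cxv β V tm N z i w') :
    VC N C₀ bk ΘT FN z ((K * R ^ K) ^ N * (K * R ^ K * (K * R ^ K * δ))) N w w' := by
  have hq := h.isLaw.nonneg
  have hL := one_le_L hK hG.one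
  have hδ2 : 0 ≤ K * R ^ K * (K * R ^ K * δ) := by
    have : (0 : ℝ) ≤ K * R ^ K := by linarith
    positivity
  have hsm2 : K * R ^ K * (K * R ^ K * δ) ≤ 1 := by
    have h1 : (1 : ℝ) ≤ (K * R ^ K) ^ N := one_le_pow₀ hL
    nlinarith
  obtain ⟨cV, ct, cβ⟩ := cxv_data hc
  have hpos : ∀ k, k ≤ 2 * N - 1 → ∀ v, 0 < q v → 0 < p (z k v) := fun k hk v hv =>
    (h.marg k hk).pos hq hv
  have h0 : VC N C₀ bk ΘT FN z (K * R ^ K * (K * R ^ K * δ)) (i + 1) w w' := by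
    intro x hx
    have h1 := close_line hK hp hG hδ hsm2 (hpos (2 * i + 1) (by omega) w hw)
      (hpos (2 * i + 1) (by omega) w' hw')
      (by rw [← same_g h hw hi, ← same_g h hw' hi, hg])
      (by rw [tv_odd h hG.bk_tm hw hi, tv_odd h hG.bk_tm hw' hi, ct (i + 1) (by omega) (by omega)])
      (hgw _ (by omega)) (hgw' _ (by omega)) x hx
    rw [bv_odd h hw hi, bv_odd h hw' hi] at h1
    exact h1
  refine vc_fwd hK hG hδ2 hsm h hw (a₀ := i + 1) (by omega) h0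
    (fun a _ ha => legR hK hp hG hδ hsm2 h hw hgw ha)
    (fun a _ ha => legR hK hp hG hδ hsm2 h hw' hgw' ha) (fun a _ ha => (cV a ha).symm) cβ.symm
    fun a h1 ha => ?_
  unfold ln
  rw [ct a (by omega) (by omega), ct (a + 1) (by omega) (by omega)]

/-- **The line block before the vertex.** -/
theorem close_0 {K : ℕ} (hK : RelC d j K) (hp : ∀ ω, 0 ≤ p ω)
    (hG : GC d j m C₀ R p g bk β V tm ΘT FN ξT ξN) {δ : ℝ} (hδ : 0 ≤ δ)
    (hsm : (K * R ^ K) ^ N * (K * R ^ K * (K * R ^ K * (K * R ^ K * δ))) ≤ 1)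
    (h : MC p (alt g bk) (2 * N - 1) q z) {w w' : W} (hw : 0 < q w) (hw' : 0 < q w')
    (hgw : GW d j m N C₀ p g bk β V tm ΘT FN ξT ξN z δ w)
    (hgw' : GW d j m N C₀ p g bk β V tm ΘT FN ξT ξN z δ w') {i : ℕ} (hi1 : 1 ≤ i) (hi : i ≤ N)
    (hg : g (z (2 * i - 1) w) = g (z (2 * i - 1) w'))
    (hc : cxv β V tm N z i w = cxv β V tm N z i w') :
    VC N C₀ bk ΘT FN z ((K * R ^ K) ^ N * (K * R ^ K * (K * R ^ K * (K * R ^ K * δ)))) 0 w w' := by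
  have hq := h.isLaw.nonneg
  have hL := one_le_L hK hG.one
  have hδ2 : 0 ≤ K * R ^ K * (K * R ^ K * δ) := by
    have : (0 : ℝ) ≤ K * R ^ K := by linarith
    positivity
  have hsm2 : K * R ^ K * (K * R ^ K * δ) ≤ 1 := by
    have h1 : (1 : ℝ) ≤ (K * R ^ K) ^ N := one_le_pow₀ hL
    have h2 : K * R ^ K * (K * R ^ K * δ) ≤ K * R ^ K * (K * R ^ K * (K * R ^ K * δ)) := by
      nlinarith
    nlinarith
  obtain ⟨cV, ct, cβ⟩ := cxv_data hc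
  have hpos : ∀ k, k ≤ 2 * N - 1 → ∀ v, 0 < q v → 0 < p (z k v) := fun k hk v hv =>
    (h.marg k hk).pos hq hv
  have e1 : 2 * (i - 1) + 1 = 2 * i - 1 := by omega
  have h0 : VC N C₀ bk ΘT FN z (K * R ^ K * (K * R ^ K * δ)) (i - 1) w w' := by
    intro x hx
    have h1 := close_line hK hp hG hδ hsm2 (hpos (2 * (i - 1)) (by omega) w hw)
      (hpos (2 * (i - 1)) (by omega) w' hw')
      (by rw [same_g h hw (a := i - 1) (by omega), same_g h hw' (a := i - 1) (by omega), e1, hg])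
      (by
        rw [tv_even (tm := tm) (z := z) (w := w) (N := N) (a := i - 1) (by omega),
          tv_even (tm := tm) (z := z) (w := w') (N := N) (a := i - 1) (by omega),
          ct (i - 1) (by omega) (by omega)])
      (hgw _ (by omega)) (hgw' _ (by omega)) x hx
    rw [bv_even (bk := bk) (z := z) (w := w) (N := N) (a := i - 1) (by omega),
      bv_even (bk := bk) (z := z) (w := w') (N := N) (a := i - 1) (by omega)] at h1
    exact h1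
  refine vc_bwd hK hG hδ2 hsm h hw (a₀ := i - 1) (by omega) h0
    (fun a ha => legR hK hp hG hδ hsm2 h hw hgw (by omega))
    (fun a ha => legR hK hp hG hδ hsm2 h hw' hgw' (by omega))
    (fun a ha => (cV a (by omega)).symm) cβ.symm fun a ha => ?_
  unfold ln
  rw [ct a (by omega) (by omega), ct (a + 1) (by omega) (by omega)]

end Pool.LIV
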